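import Pool.Agent.EAP.Defs

/-!
[EAP-A1] parity counts.

* `Np_zero`: if `p ∣ d` then `p ∤ n + i d` (coprimality), so the valuation is `0`.
* `Np_le'`: `v_p` odd implies `p ∣ n + i d`; `AP4.n2_count`.
* `Np_le`: `Np` is even: `Np ≡ ∑_{i<k} v_p (n + i d)` mod 2 (`Finset.even_sum_iff_even_card_odd` or
  `Finset.odd_sum_iff_odd_card_odd`), even by `h.ev2`; with `Np ≤ k / p + 1` this gives
  `Np ≤ k / p + (k / p) % 2` (omega).
* `log_sum_eq`: `log (sp k m) = ∑_{p ∈ primesLE k} (v_p m % 2) log p` (`Real.log_prod`), exchange the sums;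
  `v % 2 = if Odd v then 1 else 0`.
-/

set_option autoImplicit false

namespace EAP

open Finset AP4

theorem a1_dvd {n d i p : ℕ} (h : Odd ((n + i * d).factorization p)) : p ∣ n + i * d := by
  by_contra h1
  rw [Nat.factorization_eq_zero_of_not_dvd h1] at h
  exact absurd h (by decide)

theorem Np_zero {n d k p : ℕ} (h : Sol n d k) (hp : p.Prime) (hpd : p ∣ d) : Np n d k p = 0 := by
  unfold Np
  rw [Finset.card_eq_zero, Finset.filter_eq_empty_iff]
  intro i _ hi
  have h3 : p ∣ n := (Nat.dvd_add_left (Dvd.dvd.mul_left hpd i)).1 (a1_dvd hi)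
  exact hp.one_lt.ne' (Nat.eq_one_of_dvd_coprimes h.cop h3 hpd)

theorem Np_le' {n d k p : ℕ} (hp : p.Prime) (hpd : ¬ p ∣ d) : Np n d k p ≤ k / p + 1 := by
  refine le_trans ?_ (n2_count (n := n) (d := d) (k := k) hp hpd)
  unfold Np
  apply Finset.card_le_card
  intro i hi
  rw [Finset.mem_filter] at hi ⊢
  exact ⟨hi.1, a1_dvd hi.2⟩

theorem Np_le {n d k β p : ℕ} (h : Eqn n d k β) (hp : p.Prime) (hpd : ¬ p ∣ d) (hβ : β < p) :
    Np n d k p ≤ k / p + (k / p) % 2 := by
  have h1 := Np_le' (n := n) (d := d) (k := k) hp hpd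
  have h2 : Even (Np n d k p) := by
    unfold Np
    rw [← Finset.even_sum_iff_even_card_odd]
    exact h.ev2 p hp hβ
  obtain ⟨r, hr⟩ := h2
  omega

theorem log_sum_eq (n d k : ℕ) :
    ∑ i ∈ range k, Real.log (sp k (n + i * d)) =
      ∑ p ∈ Nat.primesLE k, (Np n d k p : ℝ) * Real.log p := by
  have h1 : ∀ m : ℕ, Real.log (sp k m) =
      ∑ p ∈ Nat.primesLE k, (if Odd (m.factorization p) then Real.log p else 0) := by
    intro m
    unfold sp
    rw [Nat.cast_prod, Real.log_prod]
    · apply Finset.sum_congr rfl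
      intro p _
      rw [Nat.cast_pow, Real.log_pow]
      split_ifs with h
      · rw [Nat.odd_iff.1 h]
        simp
      · rw [Nat.even_iff.1 (Nat.not_odd_iff_even.1 h)]
        simp
    · intro p hp
      have := ((Nat.mem_primesLE.1 hp).2).ne_zero
      positivity
  rw [Finset.sum_congr rfl fun i _ => h1 (n + i * d), Finset.sum_comm]
  apply Finset.sum_congr rfl
  intro p _
  rw [← Finset.sum_filter, Finset.sum_const, nsmul_eq_mul]
  rfl

end EAP
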