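import Pool.Agent.EAP.Defs

/-!
[EAP-A2] the count for small primes: `Np ≤ k / (p+1) + O(log k)`.

Let `A j = #{i < k : p ^ j ∣ n + i d}`. As `gcd(p, d) = 1`, among `p ^ j` consecutive `i` exactly one
qualifies, hence `⌊k / p^j⌋ ≤ A j ≤ ⌊k / p^j⌋ + 1` (`Nat.ModEq`, `Nat.Ico_filter_modEq_card` or
`Nat.count_modEq_card`; it is enough to prove the two inequalities, e.g. by injections).
Let `T = Nat.log p k + 1`, so `k < p ^ T`, `A T ≤ 1`. An index with odd valuation has either valuation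
`j < T` with `j` odd, and there are `A j - A (j+1) ≤ k/p^j + 1 - (k/p^(j+1) - 1)` of these (as
`n + i d ≠ 0`), or valuation `≥ T` (at most `A T ≤ 1` of these). There are `≤ T/2` odd `j < T`, so
`Np ≤ ∑_{j odd, j < T} (k/p^j - k/p^(j+1)) + 2 (T/2) + 1 ≤ k/(p+1) + T + 1 = k/(p+1) + Nat.log p k + 2`,
as `∑_{j odd, j<T} (1 - 1/p) p^(-j) ≤ (1 - 1/p) p^(-1) / (1 - p^(-2)) = 1/(p+1)` (induction on the number
of terms: `∑_{m<M} (1-x) x^(2m+1) = x (1 - x^(2M)) / (1+x)` with `x = 1/p`), and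
`Nat.log p k ≤ Nat.log 2 k` (`Nat.log_anti_left`).
-/

set_option autoImplicit false

namespace EAP

open Finset AP4

/-- `#{i < k : q ∣ n + i d}` -/
def a2A (n d k q : ℕ) : ℕ := ((range k).filter (fun i => q ∣ n + i * d)).card

theorem a2_count {n d k q : ℕ} (hq : 0 < q) (hqd : Nat.Coprime q d) :
    k / q ≤ a2A n d k q ∧ a2A n d k q ≤ k / q + 1 := by
  -- a solution of the congruence
  obtain ⟨v, hv⟩ : ∃ v : ℕ, q ∣ n + v * d := by
    obtain ⟨w, hw⟩ := Nat.exists_mul_mod_eq_of_coprime ((q - n % q) % q) hqd.symm hq.ne'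
    refine ⟨w, ?_⟩
    have h1 : (n + w * d) % q = 0 := by
      rw [Nat.add_mod, mul_comm w d, hw.2, Nat.mod_mod]
      have h2 := Nat.mod_lt n hq
      rcases Nat.eq_zero_or_pos (n % q) with h3 | h3
      · rw [h3]; simp
      · rw [Nat.mod_eq_of_lt (a := q - n % q) (by omega)]
        have h4 : n % q + (q - n % q) = q := by omega
        rw [h4, Nat.mod_self]
    exact Nat.dvd_of_mod_eq_zero h1
  have h1 : ((range k).filter (fun i => q ∣ n + i * d)) =
      ((range k).filter (fun i => i ≡ v [MOD q])) := by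
    apply Finset.filter_congr
    intro i _
    constructor
    · intro hi
      have h1 : (n + i * d) ≡ (n + v * d) [MOD q] :=
        ((Nat.modEq_zero_iff_dvd).2 hi).trans ((Nat.modEq_zero_iff_dvd).2 hv).symm
      have h2 : i * d ≡ v * d [MOD q] := Nat.ModEq.add_left_cancel' n h1
      exact Nat.ModEq.cancel_right_of_coprime hqd h2
    · intro hi
      have h2 : i * d ≡ v * d [MOD q] := hi.mul_right d
      have h3 : (n + i * d) ≡ (n + v * d) [MOD q] := h2.add_left n
      exact (Nat.modEq_zero_iff_dvd).1 (h3.trans ((Nat.modEq_zero_iff_dvd).2 hv))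
  unfold a2A
  rw [h1, ← Nat.count_eq_card_filter_range, Nat.count_modEq_card k hq v]
  split_ifs <;> omega

theorem a2_real {n d k q : ℕ} (hq : 0 < q) (hqd : Nat.Coprime q d) :
    (k : ℝ) / q - 1 ≤ a2A n d k q ∧ (a2A n d k q : ℝ) ≤ (k : ℝ) / q + 1 := by
  obtain ⟨h1, h2⟩ := a2_count (n := n) (k := k) hq hqd
  have hq' : (0 : ℝ) < q := by exact_mod_cast hq
  constructor
  · have h3 : k < q * (k / q + 1) := Nat.lt_mul_div_succ k hq
    have h4 : (k : ℝ) < q * ((k / q : ℕ) + 1) := by exact_mod_cast h3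
    have h5 : (k : ℝ) / q < ((k / q : ℕ) : ℝ) + 1 := by
      rw [div_lt_iff₀ hq']
      linarith
    have h6 : ((k / q : ℕ) : ℝ) ≤ a2A n d k q := by exact_mod_cast h1
    linarith
  · have h3 : ((k / q : ℕ) : ℝ) ≤ (k : ℝ) / q := Nat.cast_div_le
    have h4 : (a2A n d k q : ℝ) ≤ ((k / q : ℕ) : ℝ) + 1 := by exact_mod_cast h2
    linarith

theorem a2_exact {n d k p j : ℕ} (hn : 0 < n) (hp : p.Prime) :
    (((range k).filter (fun i => (n + i * d).factorization p = j)).card : ℝ) =
      a2A n d k (p ^ j) - a2A n d k (p ^ (j + 1)) := by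
  have hdv : ∀ i e, p ^ e ∣ n + i * d ↔ e ≤ (n + i * d).factorization p := fun i e =>
    hp.pow_dvd_iff_le_factorization (by omega)
  have h1 : ((range k).filter (fun i => (n + i * d).factorization p = j)) =
      ((range k).filter (fun i => p ^ j ∣ n + i * d)) \
        ((range k).filter (fun i => p ^ (j + 1) ∣ n + i * d)) := by
    ext i
    simp only [mem_filter, mem_sdiff, hdv]
    constructor
    · rintro ⟨h1, h2⟩
      exact ⟨⟨h1, by omega⟩, fun h => by omega⟩
    · rintro ⟨⟨h1, h2⟩, h3⟩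
      refine ⟨h1, ?_⟩
      by_contra h4
      exact h3 ⟨h1, by omega⟩
  have h2 : ((range k).filter (fun i => p ^ (j + 1) ∣ n + i * d)) ⊆
      ((range k).filter (fun i => p ^ j ∣ n + i * d)) := by
    intro i hi
    rw [mem_filter] at hi ⊢
    exact ⟨hi.1, (pow_dvd_pow p (Nat.le_succ j)).trans hi.2⟩
  rw [h1, card_sdiff_of_subset h2, Nat.cast_sub (card_le_card h2)]
  rfl

theorem a2_geom (x : ℝ) (hx : 0 < x) (M : ℕ) :
    ∑ m ∈ range M, (x ^ (2 * m + 1) - x ^ (2 * m + 2)) = x * (1 - x ^ (2 * M)) / (1 + x) := by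
  have h0 : (1 + x) ≠ 0 := by positivity
  induction M with
  | zero => simp
  | succ M ih =>
    rw [sum_range_succ, ih]
    field_simp
    ring

theorem Np_small {n d k p : ℕ} (hn : 0 < n) (hk : 1 ≤ k) (hp : p.Prime) (hpd : ¬ p ∣ d) :
    (Np n d k p : ℝ) ≤ (k : ℝ) / ((p : ℝ) + 1) + ((Nat.log 2 k : ℝ) + 3) := by
  have _ := hk
  have hcop : ∀ j, Nat.Coprime (p ^ j) d := fun j =>
    Nat.Coprime.pow_left j ((Nat.Prime.coprime_iff_not_dvd hp).2 hpd)
  have hpos : ∀ j, 0 < p ^ j := fun j => pow_pos hp.pos j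
  set T := Nat.log p k + 1 with hT
  have hkT : k < p ^ T := Nat.lt_pow_succ_log_self hp.one_lt k
  have hAT : a2A n d k (p ^ T) ≤ 1 := by
    have := (a2_count (n := n) (k := k) (hpos T) (hcop T)).2
    rw [Nat.div_eq_of_lt hkT] at this
    omega
  have hdv : ∀ i e, p ^ e ∣ n + i * d ↔ e ≤ (n + i * d).factorization p := fun i e =>
    hp.pow_dvd_iff_le_factorization (by omega)
  have hsub : ((range k).filter (fun i => Odd ((n + i * d).factorization p))) ⊆
      ((range (T / 2)).biUnion fun m =>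
        (range k).filter (fun i => (n + i * d).factorization p = 2 * m + 1)) ∪
      (range k).filter (fun i => p ^ T ∣ n + i * d) := by
    intro i hi
    rw [mem_filter] at hi
    obtain ⟨m, hm⟩ := hi.2
    rw [mem_union]
    by_cases hmT : m < T / 2
    · left
      rw [mem_biUnion]
      exact ⟨m, mem_range.mpr hmT, mem_filter.mpr ⟨hi.1, hm⟩⟩
    · right
      rw [mem_filter, hdv]
      exact ⟨hi.1, by omega⟩
  have h1 : (Np n d k p : ℝ) ≤ ∑ m ∈ range (T / 2),
      (((range k).filter (fun i => (n + i * d).factorization p = 2 * m + 1)).card : ℝ) + 1 := by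
    have h2 := (card_le_card hsub).trans (card_union_le _ _)
    have h3 := card_biUnion_le (s := range (T / 2))
      (t := fun m => (range k).filter (fun i => (n + i * d).factorization p = 2 * m + 1))
    have h4 : Np n d k p ≤ ∑ m ∈ range (T / 2),
        ((range k).filter (fun i => (n + i * d).factorization p = 2 * m + 1)).card + 1 := by
      unfold Np
      refine h2.trans ?_
      exact Nat.add_le_add h3 hAT
    exact_mod_cast h4
  have hp0 : (0 : ℝ) < p := by exact_mod_cast hp.pos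
  set x : ℝ := 1 / (p : ℝ) with hx
  have hx0 : 0 < x := by positivity
  have h5 : ∀ m ∈ range (T / 2),
      (((range k).filter (fun i => (n + i * d).factorization p = 2 * m + 1)).card : ℝ) ≤
        k * (x ^ (2 * m + 1) - x ^ (2 * m + 2)) + 2 := by
    intro m _
    rw [a2_exact hn hp]
    have h6 := (a2_real (n := n) (k := k) (hpos (2 * m + 1)) (hcop (2 * m + 1))).2
    have h7 := (a2_real (n := n) (k := k) (hpos (2 * m + 1 + 1)) (hcop (2 * m + 1 + 1))).1
    have h8 : ∀ e : ℕ, (k : ℝ) / ((p ^ e : ℕ) : ℝ) = k * x ^ e := by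
      intro e
      rw [hx]
      push_cast
      rw [one_div, inv_pow]
      rfl
    rw [h8] at h6 h7
    have h9 : k * (x ^ (2 * m + 1) - x ^ (2 * m + 2)) =
      k * x ^ (2 * m + 1) - k * x ^ (2 * m + 1 + 1) := by ring
    rw [h9]
    linarith
  have h6 : ∑ m ∈ range (T / 2),
      (((range k).filter (fun i => (n + i * d).factorization p = 2 * m + 1)).card : ℝ) ≤
      k * (x * (1 - x ^ (2 * (T / 2))) / (1 + x)) + 2 * ((T / 2 : ℕ) : ℝ) := by
    refine (sum_le_sum h5).trans (le_of_eq ?_)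
    rw [sum_add_distrib, ← mul_sum, a2_geom x hx0, sum_const, card_range, nsmul_eq_mul]
    ring
  have h7 : k * (x * (1 - x ^ (2 * (T / 2))) / (1 + x)) ≤ (k : ℝ) / ((p : ℝ) + 1) := by
    have h8 : x * (1 - x ^ (2 * (T / 2))) / (1 + x) ≤ x / (1 + x) := by
      apply div_le_div_of_nonneg_right _ (by positivity)
      have : 0 ≤ x * x ^ (2 * (T / 2)) := by positivity
      linarith
    have h9 : x / (1 + x) = 1 / ((p : ℝ) + 1) := by
      rw [hx]
      field_simp
    calc (k : ℝ) * (x * (1 - x ^ (2 * (T / 2))) / (1 + x)) ≤ k * (1 / ((p : ℝ) + 1)) := by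
          rw [← h9]
          exact mul_le_mul_of_nonneg_left h8 (Nat.cast_nonneg k)
      _ = (k : ℝ) / ((p : ℝ) + 1) := by ring
  have h8 : (2 : ℝ) * ((T / 2 : ℕ) : ℝ) ≤ (Nat.log 2 k : ℝ) + 1 := by
    have h9 : 2 * (T / 2) ≤ T := Nat.mul_div_le T 2
    have h10 : Nat.log p k ≤ Nat.log 2 k := Nat.log_anti_left (by norm_num) hp.two_le
    have h11 : 2 * (T / 2) ≤ Nat.log 2 k + 1 := by omega
    exact_mod_cast h11
  linarith

end EAP
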