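import Pool.Agent.EAP.Defs

/-!
[EAP-A3] the primes with `⌊k/p⌋` odd.

Let `m = k / 2`. If `p ≤ k` is prime, `k / p = 2 q + 1` and `p ∤ k + 1`, then `p ∣ choose k m`: write
`k = (2q+1) p + r`, `0 ≤ r < p`. From `2 m ≤ k < (2q+2) p` and `2 m ≥ k - 1 ≥ (2q+1) p - 1` we get
`m / p = q`, and `m % p = m - q p > r = k % p`, because `(q+1) p > k - m` : otherwise
`2 (q+1) p ≤ 2 (k - m) ≤ k + 1 ≤ (2q+2) p`, so `k + 1 = (2q+2) p` is divisible by `p`. By Lucas' theorem
(`Choose.choose_modEq_choose_mod_mul_choose_div_nat` or similar) `choose k m ≡ choose (k%p) (m%p) * _ = 0`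
mod `p` (or: use `Nat.factorization_choose`/`Nat.Prime.dvd_choose_add`).
So the product of these primes divides `choose k m ≤ 2 ^ k` (`Finset.prod_primes_dvd`,
`Nat.choose_le_two_pow`?; `choose k m ≤ ∑ = 2^k`), and the product of the primes dividing `k + 1` divides
`k + 1`. Take logarithms.
-/

set_option autoImplicit false

namespace EAP

open Finset AP4

theorem a3_dvd {k p : ℕ} (hp : p.Prime) (hodd : (k / p) % 2 = 1) (hk : ¬ p ∣ k + 1) :
    p ∣ Nat.choose k (k / 2) := by
  have : Fact p.Prime := ⟨hp⟩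
  have hp0 := hp.pos
  have hp2 := hp.two_le
  set q := k / p / 2 with hq
  have hkp : k / p = 2 * q + 1 := by omega
  have hdm := Nat.div_add_mod k p
  set r := k % p with hr
  have hrp : r < p := Nat.mod_lt _ hp0
  rw [hkp] at hdm
  have hdm' : 2 * (p * q) + p + r = k := by
    have : p * (2 * q + 1) = 2 * (p * q) + p := by ring
    omega
  have hne : r ≠ p - 1 := by
    intro h
    apply hk
    exact ⟨2 * (q + 1), by rw [← hdm', h]; have : p * (2 * (q + 1)) = 2 * (p * q) + 2 * p := by ring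
                           omega⟩
  set m := k / 2 with hm
  have hm1 : p * q ≤ m := by omega
  have hm2 : m < p * q + p := by omega
  have hmdiv : m / p = q := by
    rw [Nat.div_eq_iff hp0]
    constructor
    · rw [mul_comm]; exact hm1
    · have : q * p = p * q := mul_comm _ _
      omega
  have hmmod : m % p = m - p * q := by
    have := Nat.div_add_mod m p
    rw [hmdiv] at this
    omega
  have hlt : r < m % p := by
    rw [hmmod]
    omega
  have hluc := Choose.choose_modEq_choose_mod_mul_choose_div_nat (p := p) (n := k) (k := m)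
  rw [← hr, Nat.choose_eq_zero_of_lt hlt, zero_mul] at hluc
  exact (Nat.modEq_zero_iff_dvd).1 hluc

theorem a3_prod (s : Finset ℕ) (hs : ∀ p ∈ s, p.Prime) (N : ℕ) (hN : 0 < N)
    (h : ∀ p ∈ s, p ∣ N) : ∑ p ∈ s, Real.log p ≤ Real.log N := by
  have h1 : ∏ p ∈ s, p ∣ N := Finset.prod_primes_dvd N (fun p hp => (hs p hp).prime) h
  have h2 : ∏ p ∈ s, p ≤ N := Nat.le_of_dvd hN h1
  have h3 : 0 < ∏ p ∈ s, p := Finset.prod_pos fun p hp => (hs p hp).pos
  have h4 : Real.log ((∏ p ∈ s, p : ℕ) : ℝ) = ∑ p ∈ s, Real.log p := by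
    rw [Nat.cast_prod, Real.log_prod]
    intro p hp
    exact_mod_cast (hs p hp).ne_zero
  rw [← h4]
  exact Real.log_le_log (by exact_mod_cast h3) (by exact_mod_cast h2)

theorem odd_primes (k : ℕ) :
    ∑ p ∈ Nat.primesLE k, (((k / p) % 2 : ℕ) : ℝ) * Real.log p ≤
      k * Real.log 2 + Real.log ((k : ℝ) + 1) := by
  set T := (Nat.primesLE k).filter (fun p => (k / p) % 2 = 1) with hT
  have h1 : ∑ p ∈ Nat.primesLE k, (((k / p) % 2 : ℕ) : ℝ) * Real.log p =
      ∑ p ∈ T, Real.log p := by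
    rw [hT, Finset.sum_filter]
    apply Finset.sum_congr rfl
    intro p _
    rcases Nat.mod_two_eq_zero_or_one (k / p) with h | h
    · rw [h]; simp
    · rw [h]; simp
  rw [h1, ← Finset.sum_filter_add_sum_filter_not T (fun p => ¬ p ∣ k + 1)]
  have hTp : ∀ p ∈ T, p.Prime := fun p hp => (Nat.mem_primesLE.1 (mem_filter.1 hp).1).2
  have h2 : ∑ p ∈ T.filter (fun p => ¬ p ∣ k + 1), Real.log p ≤ k * Real.log 2 := by
    have h3 := a3_prod (T.filter (fun p => ¬ p ∣ k + 1))
      (fun p hp => hTp p (mem_filter.1 hp).1) (Nat.choose k (k / 2))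
      (Nat.choose_pos (Nat.div_le_self k 2)) (fun p hp => by
        rw [mem_filter] at hp
        exact a3_dvd (hTp p hp.1) (mem_filter.1 hp.1).2 hp.2)
    refine h3.trans ?_
    have h4 : Nat.choose k (k / 2) ≤ 2 ^ k := by
      rw [← Nat.sum_range_choose k]
      exact Finset.single_le_sum (f := fun i => Nat.choose k i) (fun _ _ => Nat.zero_le _)
        (mem_range.2 (by omega))
    have h5 : Real.log (Nat.choose k (k / 2)) ≤ Real.log ((2 ^ k : ℕ) : ℝ) := by
      apply Real.log_le_log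
      · exact_mod_cast Nat.choose_pos (Nat.div_le_self k 2)
      · exact_mod_cast h4
    refine h5.trans (le_of_eq ?_)
    push_cast
    rw [Real.log_pow]
  have h6 : ∑ p ∈ T.filter (fun p => ¬ ¬ p ∣ k + 1), Real.log p ≤ Real.log ((k : ℝ) + 1) := by
    have h7 := a3_prod (T.filter (fun p => ¬ ¬ p ∣ k + 1))
      (fun p hp => hTp p (mem_filter.1 hp).1) (k + 1) (Nat.succ_pos k) (fun p hp => by
        rw [mem_filter, not_not] at hp
        exact hp.2)
    refine h7.trans (le_of_eq ?_)
    push_cast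
    rfl
  linarith

end EAP
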