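import Pool.Agent.EAP.Defs

/-!
[EAP-A4] factorials.

* `log_factorial_le`: induction on `k ≥ 1`: `log (k+1)! = log k! + log (k+1)`, and
  `(k+1) log (k+1) - (k+1) + log (k+1) + 1 - (k log k - k + log k + 1) - log (k+1)
   = (k+1) log (1 + 1/k) - 1 ≥ 0` since `log (1 + 1/k) ≥ 1/(k+1)` (`Real.one_sub_inv_le_log_of_pos`).
* `log_factorial_ge`: `log k! ≥ k log k - k`: Mathlib may have it (`Real.add_pow_le_pow_mul_pow...`, Stirling);
  induction: `log (k+1) ≥ (k+1) log (k+1) - (k+1) - (k log k - k) ` iff `k log (1 + 1/k) ≤ 1`.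
* `log_factorial_eq`: `Nat.factorization_prod_pow_eq_self`, the support is contained in `primesLE k`.
* `fact_ge`: `k / p ≤ v_p (k!)` (nat division): `p ^ (k/p) ∣ k!` (Mathlib: `Nat.Prime.pow_dvd_factorial_iff`
  or Legendre `Nat.factorization_factorial`).
* `fact_ge'`: Legendre's formula `sub_one_mul_padicValNat_factorial : (p-1) * padicValNat p k! =
  k - (p.digits k).sum`; the digit sum is `≤ (p - 1) (Nat.log p k + 1)`, so
  `v ≥ k/(p-1) - (Nat.log p k + 1)`, `Nat.log p k ≤ Nat.log 2 k`.
-/

set_option autoImplicit false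

namespace EAP

open Finset AP4

theorem log_factorial_le {k : ℕ} (hk : 1 ≤ k) :
    Real.log (k.factorial : ℝ) ≤ k * Real.log k - k + Real.log k + 1 := by
  induction k, hk using Nat.le_induction with
  | base => simp
  | succ k hk ih =>
    have hk0 : (0 : ℝ) < k := by exact_mod_cast hk
    have hk1 : (0 : ℝ) < (k : ℝ) + 1 := by positivity
    have hf : (0 : ℝ) < (k.factorial : ℝ) := by exact_mod_cast k.factorial_pos
    have h1 : Real.log ((k + 1).factorial : ℝ) = Real.log ((k : ℝ) + 1) + Real.log (k.factorial : ℝ) := by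
      rw [Nat.factorial_succ, Nat.cast_mul, Real.log_mul (by exact_mod_cast (Nat.succ_ne_zero k)) hf.ne']
      push_cast
      rfl
    have h2 : 1 - (((k : ℝ) + 1) / k)⁻¹ ≤ Real.log (((k : ℝ) + 1) / k) :=
      Real.one_sub_inv_le_log_of_pos (div_pos hk1 hk0)
    rw [Real.log_div hk1.ne' hk0.ne', inv_div] at h2
    have h3 : ((k : ℝ) + 1) * (1 - k / ((k : ℝ) + 1)) = 1 := by
      field_simp
      ring
    have h4 := mul_le_mul_of_nonneg_left h2 hk1.le
    rw [h3] at h4
    push_cast
    rw [h1]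
    linarith

theorem log_factorial_ge (k : ℕ) : k * Real.log k - k ≤ Real.log (k.factorial : ℝ) := by
  induction k with
  | zero => simp
  | succ k ih =>
    have hk1 : (0 : ℝ) < (k : ℝ) + 1 := by positivity
    have hf : (0 : ℝ) < (k.factorial : ℝ) := by exact_mod_cast k.factorial_pos
    have h1 : Real.log ((k + 1).factorial : ℝ) = Real.log ((k : ℝ) + 1) + Real.log (k.factorial : ℝ) := by
      rw [Nat.factorial_succ, Nat.cast_mul, Real.log_mul (by exact_mod_cast (Nat.succ_ne_zero k)) hf.ne']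
      push_cast
      rfl
    have h5 : (k : ℝ) * (Real.log ((k : ℝ) + 1) - Real.log k) ≤ 1 := by
      rcases Nat.eq_zero_or_pos k with h0 | hpos
      · subst h0
        simp
      · have hk0 : (0 : ℝ) < k := by exact_mod_cast hpos
        have h2 : Real.log (((k : ℝ) + 1) / k) ≤ ((k : ℝ) + 1) / k - 1 :=
          Real.log_le_sub_one_of_pos (div_pos hk1 hk0)
        rw [Real.log_div hk1.ne' hk0.ne'] at h2
        have h4 := mul_le_mul_of_nonneg_left h2 hk0.le
        have h3 : (k : ℝ) * (((k : ℝ) + 1) / k - 1) = 1 := by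
          field_simp
          ring
        rw [h3] at h4
        exact h4
    push_cast
    rw [h1]
    linarith

theorem log_factorial_eq (k : ℕ) :
    Real.log (k.factorial : ℝ) =
      ∑ p ∈ Nat.primesLE k, ((k.factorial).factorization p : ℝ) * Real.log p := by
  rw [Real.log_nat_eq_sum_factorization]
  refine Finsupp.sum_of_support_subset _ ?_ _ (fun p _ => by simp)
  intro p hp
  rw [Nat.support_factorization, Nat.mem_primeFactors] at hp
  rw [Nat.mem_primesLE]
  exact ⟨(hp.1.dvd_factorial).1 hp.2.1, hp.1⟩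

theorem fact_ge {k p : ℕ} (hp : p.Prime) : k / p ≤ (k.factorial).factorization p := by
  have h1 : p ^ (k / p) ∣ k.factorial := by
    rw [hp.pow_dvd_factorial_iff (Nat.lt_succ_self (Nat.log p k))]
    rcases Nat.lt_or_ge k p with h | h
    · rw [Nat.div_eq_of_lt h]
      exact Nat.zero_le _
    · have h2 : 1 ∈ Finset.Ico 1 (Nat.log p k).succ := by
        rw [Finset.mem_Ico]
        exact ⟨le_rfl, by have := Nat.log_pos hp.one_lt h; omega⟩
      have h3 := Finset.single_le_sum (f := fun i => k / p ^ i) (fun i _ => Nat.zero_le _) h2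
      simpa using h3
  exact (hp.pow_dvd_iff_le_factorization k.factorial_ne_zero).1 h1

theorem a4_digits {k p : ℕ} (hp : p.Prime) : (p.digits k).sum ≤ (p - 1) * (Nat.log 2 k + 1) := by
  have h1 : (p.digits k).sum ≤ (p.digits k).length • (p - 1) := by
    refine List.sum_le_card_nsmul _ _ fun x hx => ?_
    have := Nat.digits_lt_base hp.one_lt hx
    omega
  rw [smul_eq_mul, mul_comm] at h1
  refine h1.trans (Nat.mul_le_mul_left _ ?_)
  rcases Nat.eq_zero_or_pos k with h0 | hpos
  · subst h0
    simp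
  · rw [Nat.length_digits p k hp.one_lt hpos.ne']
    have := Nat.log_anti_left (n := k) (by norm_num : 1 < 2) hp.two_le
    omega

theorem fact_ge' {k p : ℕ} (hp : p.Prime) :
    (k : ℝ) / ((p : ℝ) - 1) - ((Nat.log 2 k : ℝ) + 2) ≤ ((k.factorial).factorization p : ℝ) := by
  have : Fact p.Prime := ⟨hp⟩
  have h1 := sub_one_mul_padicValNat_factorial (p := p) k
  rw [← Nat.factorization_def _ hp] at h1
  have h2 := a4_digits (k := k) hp
  have h3 : k ≤ (p - 1) * ((k.factorial).factorization p) + (p - 1) * (Nat.log 2 k + 1) := by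
    rw [h1]
    omega
  have hp1 : (0 : ℝ) < (p : ℝ) - 1 := by
    have := hp.one_lt
    have h4 : (1 : ℝ) < p := by exact_mod_cast this
    linarith
  have h5 : ((p - 1 : ℕ) : ℝ) = (p : ℝ) - 1 := by
    rw [Nat.cast_sub hp.one_le, Nat.cast_one]
  have h6 : (k : ℝ) ≤ ((p : ℝ) - 1) * ((k.factorial).factorization p) +
      ((p : ℝ) - 1) * ((Nat.log 2 k : ℝ) + 1) := by
    rw [← h5]
    exact_mod_cast h3
  have h7 : (k : ℝ) / ((p : ℝ) - 1) ≤ ((k.factorial).factorization p : ℝ) +
      ((Nat.log 2 k : ℝ) + 1) := by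
    rw [div_le_iff₀ hp1]
    linarith
  linarith

end EAP
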