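import Pool.Agent.EAP.A1
import Pool.Agent.EAP.A2
import Pool.Agent.EAP.A3
import Pool.Agent.EAP.A4

/-!
[EAP-A5] the energy bound.

`energy`. By `log_sum_eq` the left side is `∑_{p ≤ k} Np log p`. Write `l2 = Nat.log 2 k`,
`v = v_p (k!)`. Claim for each prime `p ≤ k`:
`Np ≤ v + (k/p)%2 + [p ≤ β] - [p ≤ w] g + [p ≤ w] (2 l2 + 5)`, where `g = k/(p-1)` if `p ∣ d` and
`g = 2k/(p²-1)` if not. For `p ≤ w`, `p ∣ d`: `Np = 0` (`Np_zero`) and `fact_ge'`. For `p ≤ w`, `p ∤ d`: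
`Np_small` and `fact_ge'`: `k/(p+1) = k/(p-1) - 2k/(p²-1)`. For `p > w`: `Np ≤ k/p + (k/p)%2 + [p ≤ β]`
(`Np_le` if `p > β`, `Np_le'` if `p ≤ β`, `Np_zero` if `p ∣ d`) and `fact_ge`.
Multiply by `log p ≥ 0` and sum over `p ∈ primesLE k` (as `w ≤ k`, `β ≤ k`, the primes `≤ w` resp. `≤ β`
are among them): the sum is `≤ log k! + (k log 2 + log (k+1)) + θ(β) - k sav w d + (2 l2 + 5) θ(w)`,
with `log_factorial_eq`, `odd_primes`, `Chebyshev.theta_le_log4_mul_x`
(`Chebyshev.theta β = ∑_{p ≤ β} log p`; see its use in `AP4/N2.lean`),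
`log_factorial_le`, `l2 ≤ log k / log 2`, `log (k+1) ≤ log k + 1`. All error terms are `≤ C (log k + 1)`
with `C` depending on `w` only.

`Lam_ge`: `AP4.lower` (here `Lam n d k` unfolds to the sum in it) and `energy`.
-/

set_option autoImplicit false

namespace EAP

open Finset AP4

/-- the gain at `p` -/
noncomputable def a5_g (d k p : ℕ) : ℝ :=
  if p ∣ d then (k : ℝ) / ((p : ℝ) - 1) else 2 * k / ((p : ℝ) ^ 2 - 1)

theorem a5_pointwise {n d k β p : ℕ} (w : ℕ) (h : Eqn n d k β) (hk : 2 ≤ k) (hp : p.Prime) :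
    (Np n d k p : ℝ) ≤ ((k.factorial).factorization p : ℝ) + (((k / p) % 2 : ℕ) : ℝ)
      + (if p ≤ β then 1 else 0)
      + (if p ≤ w then (2 * (Nat.log 2 k : ℝ) + 5) - a5_g d k p else 0) := by
  have hp2 : (2 : ℝ) ≤ p := by exact_mod_cast hp.two_le
  have hl : (0 : ℝ) ≤ (Nat.log 2 k : ℝ) := Nat.cast_nonneg _
  have hm : (0 : ℝ) ≤ (((k / p) % 2 : ℕ) : ℝ) := Nat.cast_nonneg _
  have hv : (0 : ℝ) ≤ ((k.factorial).factorization p : ℝ) := Nat.cast_nonneg _
  have hb : (0 : ℝ) ≤ (if p ≤ β then (1 : ℝ) else 0) := by split_ifs <;> norm_num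
  have hf := fact_ge' (k := k) hp
  by_cases hw : p ≤ w
  · rw [if_pos hw]
    unfold a5_g
    by_cases hd : p ∣ d
    · rw [if_pos hd, Np_zero h.toSol hp hd, Nat.cast_zero]
      linarith
    · rw [if_neg hd]
      have h1 := Np_small h.n0 (by omega) hp hd (n := n) (k := k)
      have e : (k : ℝ) / ((p : ℝ) - 1) - 2 * k / ((p : ℝ) ^ 2 - 1) = k / ((p : ℝ) + 1) := by
        have h2 : (p : ℝ) - 1 ≠ 0 := by linarith
        have h3 : (p : ℝ) + 1 ≠ 0 := by linarith
        have h4 : (p : ℝ) ^ 2 - 1 ≠ 0 := by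
          have : (p : ℝ) ^ 2 - 1 = ((p : ℝ) - 1) * ((p : ℝ) + 1) := by ring
          rw [this]
          exact mul_ne_zero h2 h3
        have h5 : (p : ℝ) ^ 2 - 1 = ((p : ℝ) - 1) * ((p : ℝ) + 1) := by ring
        rw [h5]
        field_simp
        ring
      linarith
  · rw [if_neg hw]
    by_cases hd : p ∣ d
    · rw [Np_zero h.toSol hp hd, Nat.cast_zero]
      linarith
    · have h2 := fact_ge (k := k) hp
      by_cases hβ : p ≤ β
      · rw [if_pos hβ]
        have h1 := Np_le' (n := n) (k := k) hp hd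
        have h3 : (Np n d k p : ℝ) ≤ ((k.factorial).factorization p : ℝ) + 1 := by
          exact_mod_cast h1.trans (by omega)
        linarith
      · have h1 := Np_le h hp hd (not_le.1 hβ)
        have h3 : (Np n d k p : ℝ) ≤ ((k.factorial).factorization p : ℝ) +
            (((k / p) % 2 : ℕ) : ℝ) := by
          exact_mod_cast h1.trans (by omega)
        linarith

theorem a5_filter {w k : ℕ} (hw : w ≤ k) :
    (Nat.primesLE k).filter (fun p => p ≤ w) = Nat.primesLE w := by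
  ext p
  rw [Finset.mem_filter, Nat.mem_primesLE, Nat.mem_primesLE]
  constructor
  · rintro ⟨⟨-, h2⟩, h3⟩
    exact ⟨h3, h2⟩
  · rintro ⟨h1, h2⟩
    exact ⟨⟨h1.trans hw, h2⟩, h1⟩

theorem a5_sav (w d k : ℕ) : ∑ p ∈ Nat.primesLE w, a5_g d k p * Real.log p = k * sav w d := by
  unfold sav a5_g
  rw [Finset.mul_sum]
  refine Finset.sum_congr rfl (fun p _ => ?_)
  split_ifs <;> ring

theorem a5_log2 (k : ℕ) (hk : 2 ≤ k) : 2 * (Nat.log 2 k : ℝ) + 5 ≤ 5 * (Real.log k + 1) := by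
  have h1 : (Nat.log 2 k : ℝ) ≤ Real.logb 2 k := Real.natLog_le_logb k 2
  have h2 : Real.logb 2 k = Real.log k / Real.log 2 := rfl
  have h3 : 0 ≤ Real.log k := Real.log_natCast_nonneg k
  have h4 := Real.log_two_gt_d9
  have h5 : Real.log k / Real.log 2 ≤ 5 / 2 * Real.log k := by
    rw [div_le_iff₀ (by linarith)]
    nlinarith
  linarith

theorem a5_sum {n d k β : ℕ} (w : ℕ) (h : Eqn n d k β) (hk : 2 ≤ k) (hw : w ≤ k) (hβ : β ≤ k) :
    ∑ p ∈ Nat.primesLE k, (Np n d k p : ℝ) * Real.log p ≤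
      Real.log (k.factorial : ℝ) + (k * Real.log 2 + Real.log ((k : ℝ) + 1)) +
      β * Real.log 4 + ((2 * (Nat.log 2 k : ℝ) + 5) * ∑ p ∈ Nat.primesLE w, Real.log p
        - k * sav w d) := by
  have h1 : ∑ p ∈ Nat.primesLE k, (Np n d k p : ℝ) * Real.log p ≤
      ∑ p ∈ Nat.primesLE k, (((k.factorial).factorization p : ℝ) * Real.log p +
        (((k / p) % 2 : ℕ) : ℝ) * Real.log p + (if p ≤ β then Real.log p else 0) +
        (if p ≤ w then (2 * (Nat.log 2 k : ℝ) + 5) * Real.log p - a5_g d k p * Real.log p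
          else 0)) := by
    refine Finset.sum_le_sum (fun p hp => ?_)
    have hpp := (Nat.mem_primesLE.1 hp).2
    have hl : 0 ≤ Real.log p := Real.log_natCast_nonneg p
    refine (mul_le_mul_of_nonneg_right (a5_pointwise w h hk hpp) hl).trans (le_of_eq ?_)
    split_ifs <;> ring
  have h2 : ∑ p ∈ Nat.primesLE k, (if p ≤ β then Real.log p else 0) ≤ β * Real.log 4 := by
    rw [← Finset.sum_filter, a5_filter hβ]
    have h3 := Chebyshev.theta_le_log4_mul_x (x := (β : ℝ)) (Nat.cast_nonneg β)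
    rw [Chebyshev.theta_eq_sum_primesLE_log] at h3
    linarith
  have h4 : ∑ p ∈ Nat.primesLE k, (if p ≤ w then (2 * (Nat.log 2 k : ℝ) + 5) * Real.log p -
      a5_g d k p * Real.log p else 0) =
      (2 * (Nat.log 2 k : ℝ) + 5) * ∑ p ∈ Nat.primesLE w, Real.log p - k * sav w d := by
    rw [← Finset.sum_filter, a5_filter hw, Finset.sum_sub_distrib, ← Finset.mul_sum, a5_sav]
  have h5 := odd_primes k
  have h6 := log_factorial_eq k
  rw [Finset.sum_add_distrib, Finset.sum_add_distrib, Finset.sum_add_distrib, h4, ← h6] at h1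
  linarith

theorem energy (w : ℕ) : ∃ C : ℝ, 0 ≤ C ∧ ∀ n d k β : ℕ, Eqn n d k β → 2 ≤ k → w ≤ k → β ≤ k →
    ∑ i ∈ range k, Real.log (sp k (n + i * d)) ≤
      k * Real.log k - k + k * Real.log 2 + β * Real.log 4 - k * sav w d
        + C * (Real.log k + 1) := by
  have hth : 0 ≤ ∑ p ∈ Nat.primesLE w, Real.log p :=
    Finset.sum_nonneg fun p _ => Real.log_natCast_nonneg p
  refine ⟨2 + 5 * ∑ p ∈ Nat.primesLE w, Real.log p, by positivity, ?_⟩
  intro n d k β h hk hw hβ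
  have h1 := a5_sum w h hk hw hβ
  have h2 := log_factorial_le (k := k) (by omega)
  have h3 := a5_log2 k hk
  have hk2 : (2 : ℝ) ≤ k := by exact_mod_cast hk
  have h4 : Real.log ((k : ℝ) + 1) ≤ Real.log k + 1 := by
    have h5 : Real.log ((k : ℝ) + 1) ≤ Real.log (k * Real.exp 1) := by
      apply Real.log_le_log (by linarith)
      have := Real.exp_one_gt_d9
      nlinarith
    rwa [Real.log_mul (by linarith) (Real.exp_pos 1).ne', Real.log_exp] at h5
  have h6 : (2 * (Nat.log 2 k : ℝ) + 5) * ∑ p ∈ Nat.primesLE w, Real.log p ≤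
      5 * (Real.log k + 1) * ∑ p ∈ Nat.primesLE w, Real.log p :=
    mul_le_mul_of_nonneg_right h3 hth
  rw [log_sum_eq]
  have h7 : (2 + 5 * ∑ p ∈ Nat.primesLE w, Real.log p) * (Real.log k + 1) =
      2 * (Real.log k + 1) + 5 * (Real.log k + 1) * ∑ p ∈ Nat.primesLE w, Real.log p := by ring
  rw [h7]
  linarith

theorem Lam_ge (w : ℕ) : ∃ C : ℝ, 0 ≤ C ∧ ∀ n d k β : ℕ, Eqn n d k β → 2 ≤ k → w ≤ k → β ≤ k →
    k * (1 - Real.log 2 + sav w d) - β * Real.log 4 - C * (Real.log k + 1) ≤ Lam n d k := by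
  obtain ⟨C, hC, hen⟩ := energy w
  refine ⟨C, hC, fun n d k β h hk hw hβ => ?_⟩
  have h1 := hen n d k β h hk hw hβ
  have h2 := AP4.lower h.toSol (by omega)
  unfold Lam
  linarith

end EAP
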