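import Pool.Agent.EAP.Defs

/-!
[EAP-A7] numerical lower bounds for `sav 200 d` (46 primes).

True values: `∑_{p ≤ 200} 2 log p/(p²-1) = 1.130613…`. For `p ∣ d`: `log p/(p-1) ≥ 2 log p/(p²-1)` as
`p + 1 ≥ 2`.
`sav_ge`: so `sav 200 d ≥ ∑_{p ≤ 200} 2 log p/(p²-1)`. Lower bounds for `log p`: if `2 ^ m ≤ p ^ N` then
`log p ≥ (m/N) log 2`, with `Real.log_two_gt_d9`; `N = 12` for `p < 50`, or larger (`N = 40` for
`3, 5, 7, 11, 13`), keeps the total error below `0.0005`. Suggestion: a lemma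
`(h : 2 ^ m ≤ p ^ N) : (m/N : ℝ) * Real.log 2 ≤ Real.log p`, one `have` per prime, then `norm_num`
with rational coefficients.  `Nat.primesLE 200` as an explicit finset: `by decide`/`rfl` may be slow;
you can bound from below by a sum over an explicit finset of primes `≤ 200`
(`Finset.sum_le_sum_of_subset_of_nonneg`, subset by `simp [Nat.mem_primesLE]; norm_num`).
`sav_even`: for `2 ∣ d` the term of `p = 2` is `log 2` instead of `(2/3) log 2`, so the sum is
`≥ 1.130 + 0.231`.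
-/

set_option autoImplicit false

namespace EAP

open Finset AP4

/-- the table: prime `p`, exponents `m`, `N` with `2 ^ m ≤ p ^ N`, and `10⁸` times a lower bound for the
term of `p` -/
def a7_T : List (ℕ × ℕ × ℕ × ℕ) :=
  [(2, 1, 1, 46209812), (3, 792, 500, 27448628), (5, 1160, 500, 13400845), (7, 1403, 500, 8104045),
   (11, 345, 100, 3985596), (13, 370, 100, 3053148), (17, 408, 100, 1963917),
   (19, 424, 100, 1632746), (23, 452, 100, 1186751), (29, 485, 100, 800419), (31, 198, 40, 714808),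
   (37, 208, 40, 526953), (41, 214, 40, 441468), (43, 217, 40, 406961), (47, 222, 40, 348457),
   (53, 229, 40, 282640), (59, 235, 40, 234036), (61, 237, 40, 220800), (67, 242, 40, 186877),
   (71, 245, 40, 168473), (73, 247, 40, 160667), (79, 252, 40, 139962), (83, 255, 40, 128304),
   (89, 259, 40, 113336), (97, 263, 40, 96884), (101, 266, 40, 90380), (103, 267, 40, 87231),
   (107, 269, 40, 81436), (109, 270, 40, 78766), (113, 272, 40, 73831), (127, 279, 40, 59954),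
   (131, 281, 40, 56752), (137, 283, 40, 52259), (139, 284, 40, 50945), (149, 288, 40, 44960),
   (151, 289, 40, 43929), (157, 291, 40, 40917), (163, 293, 40, 38221), (167, 295, 40, 36660),
   (173, 297, 40, 34393), (179, 299, 40, 32342), (181, 299, 40, 31631), (191, 303, 40, 28786),
   (193, 303, 40, 28192), (197, 304, 40, 27148), (199, 305, 40, 26693)]

/-- the conditions on the table -/
def a7_ok (x : ℕ × ℕ × ℕ × ℕ) : Bool :=
  decide (0 < x.2.2.1) && decide (2 ≤ x.1) && decide (x.1 ≤ 200) && decide (2 ^ x.2.1 ≤ x.1 ^ x.2.2.1) &&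
    decide (x.2.2.2 * (x.1 ^ 2 - 1) * x.2.2.1 * 10 ^ 10 ≤ 2 * x.2.1 * 6931471803 * 10 ^ 8)

theorem a7_all_ok : ∀ x ∈ a7_T, a7_ok x = true := by
  decide +kernel

theorem a7_all_prime : ∀ x ∈ a7_T, Nat.Prime x.1 := by
  intro x hx
  simp only [a7_T, List.mem_cons, List.not_mem_nil, or_false] at hx
  rcases hx with rfl | rfl | rfl | rfl | rfl | rfl | rfl | rfl | rfl | rfl | rfl | rfl | rfl | rfl | rfl | rfl | rfl | rfl | rfl | rfl | rfl | rfl | rfl | rfl | rfl | rfl | rfl | rfl | rfl | rfl | rfl | rfl | rfl | rfl | rfl | rfl | rfl | rfl | rfl | rfl | rfl | rfl | rfl | rfl | rfl | rfl <;> norm_num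

theorem a7_nodup : (a7_T.map Prod.fst).Nodup := by
  decide +kernel

theorem a7_sum : 113000000 ≤ (a7_T.map fun x => x.2.2.2).sum := by
  decide +kernel

/-- the term for `p` not dividing `d` -/
noncomputable def a7_g (p : ℕ) : ℝ := 2 * Real.log p / ((p : ℝ) ^ 2 - 1)

theorem a7_g_nonneg {p : ℕ} (hp : 2 ≤ p) : 0 ≤ a7_g p := by
  have h1 : (2 : ℝ) ≤ p := by exact_mod_cast hp
  have h2 : 0 ≤ Real.log p := Real.log_natCast_nonneg p
  unfold a7_g
  apply div_nonneg (by positivity)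
  nlinarith

theorem a7_log {p m N : ℕ} (_hN : 0 < N) (_hp : 2 ≤ p) (h : 2 ^ m ≤ p ^ N) :
    (m : ℝ) * Real.log 2 ≤ N * Real.log p := by
  rw [← Real.log_pow, ← Real.log_pow]
  apply Real.log_le_log (by positivity)
  exact_mod_cast h

theorem a7_term {x : ℕ × ℕ × ℕ × ℕ} (h : a7_ok x = true) : (x.2.2.2 : ℝ) / 10 ^ 8 ≤ a7_g x.1 := by
  obtain ⟨p, m, N, t⟩ := x
  simp only [a7_ok, Bool.and_eq_true, decide_eq_true_eq] at h
  obtain ⟨⟨⟨⟨hN, hp⟩, -⟩, h1⟩, h2⟩ := h
  have h3 := a7_log hN hp h1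
  have hp' : (2 : ℝ) ≤ p := by exact_mod_cast hp
  have hN' : (0 : ℝ) < N := by exact_mod_cast hN
  have h4 : (0 : ℝ) < (p : ℝ) ^ 2 - 1 := by nlinarith
  have h5 : ((p ^ 2 - 1 : ℕ) : ℝ) = (p : ℝ) ^ 2 - 1 := by
    rw [Nat.cast_sub (Nat.one_le_pow _ _ (by omega))]
    push_cast
    ring
  have h6 : (t : ℝ) * ((p : ℝ) ^ 2 - 1) * N * 10 ^ 10 ≤ 2 * m * 6931471803 * 10 ^ 8 := by
    rw [← h5]
    exact_mod_cast h2
  have h7 : (0.6931471803 : ℝ) < Real.log 2 := Real.log_two_gt_d9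
  have h8 : (m : ℝ) * 0.6931471803 ≤ N * Real.log p :=
    le_trans (mul_le_mul_of_nonneg_left h7.le (Nat.cast_nonneg m)) h3
  simp only [a7_g]
  rw [div_le_div_iff₀ (by positivity) h4]
  have h9 : (t : ℝ) * ((p : ℝ) ^ 2 - 1) * N ≤ 2 * Real.log p * 10 ^ 8 * N := by
    linarith
  exact le_of_mul_le_mul_right h9 hN'

theorem a7_main : (1.13 : ℝ) ≤ ∑ p ∈ Nat.primesLE 200, a7_g p := by
  have h1 : ∑ p ∈ (a7_T.map Prod.fst).toFinset, a7_g p ≤ ∑ p ∈ Nat.primesLE 200, a7_g p := by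
    apply Finset.sum_le_sum_of_subset_of_nonneg
    · intro p hp
      rw [List.mem_toFinset, List.mem_map] at hp
      obtain ⟨x, hx, rfl⟩ := hp
      rw [Nat.mem_primesLE]
      have h2 := a7_all_ok x hx
      simp only [a7_ok, Bool.and_eq_true, decide_eq_true_eq] at h2
      exact ⟨h2.1.1.2, a7_all_prime x hx⟩
    · intro p hp _
      exact a7_g_nonneg (Nat.mem_primesLE.1 hp).2.two_le
  refine le_trans ?_ h1
  rw [List.sum_toFinset _ a7_nodup, List.map_map]
  have h3 : (a7_T.map fun x => ((x.2.2.2 : ℕ) : ℝ) / 10 ^ 8).sum ≤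
      (a7_T.map (a7_g ∘ Prod.fst)).sum :=
    List.sum_le_sum fun x hx => a7_term (a7_all_ok x hx)
  refine le_trans ?_ h3
  have h4 : (a7_T.map fun x => ((x.2.2.2 : ℕ) : ℝ) / 10 ^ 8).sum =
      (((a7_T.map fun x => x.2.2.2).sum : ℕ) : ℝ) / 10 ^ 8 := by
    generalize a7_T = L
    induction L with
    | nil => simp
    | cons x L ih =>
      rw [List.map_cons, List.map_cons, List.sum_cons, List.sum_cons, ih]
      push_cast
      ring
  rw [h4, le_div_iff₀ (by positivity)]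
  have h5 : ((113000000 : ℕ) : ℝ) ≤ (((a7_T.map fun x => x.2.2.2).sum : ℕ) : ℝ) := by
    exact_mod_cast a7_sum
  refine le_trans ?_ h5
  norm_num

theorem a7_le {p d : ℕ} (hp : p.Prime) : a7_g p ≤ (if p ∣ d then Real.log p / ((p : ℝ) - 1)
    else 2 * Real.log p / ((p : ℝ) ^ 2 - 1)) := by
  split_ifs with h
  · have h1 : (2 : ℝ) ≤ p := by exact_mod_cast hp.two_le
    have h2 : 0 ≤ Real.log p := Real.log_natCast_nonneg p
    unfold a7_g
    rw [div_le_div_iff₀ (by nlinarith) (by linarith)]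
    have h3 : (0 : ℝ) ≤ (p - 1) * (p - 1) := mul_self_nonneg _
    have h4 : 0 ≤ Real.log p * ((p - 1) * (p - 1)) := mul_nonneg h2 h3
    nlinarith
  · exact le_refl _

theorem sav_ge (d : ℕ) : (1.13 : ℝ) ≤ sav 200 d := by
  refine le_trans a7_main ?_
  unfold sav
  exact Finset.sum_le_sum fun p hp => a7_le (Nat.mem_primesLE.1 hp).2

theorem sav_even {d : ℕ} (hd : 2 ∣ d) : (1.36 : ℝ) ≤ sav 200 d := by
  have h2 : (2 : ℕ) ∈ Nat.primesLE 200 := Nat.mem_primesLE.2 ⟨by norm_num, Nat.prime_two⟩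
  have h1 := a7_main
  rw [← Finset.add_sum_erase _ _ h2] at h1
  unfold sav
  rw [← Finset.add_sum_erase _ _ h2, if_pos hd]
  have h3 : ∑ p ∈ (Nat.primesLE 200).erase 2, a7_g p ≤ ∑ p ∈ (Nat.primesLE 200).erase 2,
      (if p ∣ d then Real.log p / ((p : ℝ) - 1) else 2 * Real.log p / ((p : ℝ) ^ 2 - 1)) :=
    Finset.sum_le_sum fun p hp => a7_le (Nat.mem_primesLE.1 (Finset.mem_of_mem_erase hp)).2
  have h4 : a7_g 2 = 2 * Real.log 2 / 3 := by
    unfold a7_g
    norm_num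
  have h5 : Real.log ((2 : ℕ) : ℝ) / (((2 : ℕ) : ℝ) - 1) = Real.log 2 := by
    norm_num
  have h7 : (0.6931471803 : ℝ) < Real.log 2 := Real.log_two_gt_d9
  rw [h5]
  rw [h4] at h1
  linarith

end EAP
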