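import Pool.Agent.EAP.Defs

/-!
[EAP-B1] positions inside one class.

`c` with `F n d k c` nonempty is a product of distinct primes (`sp`), hence squarefree, and coprime to `d`
(`AP4.sp_coprime`). For `i, j ∈ F n d k c`, `j ≤ i`: `n + i d = c x²`, `n + j d = c z²` (`AP4.sp_mul_sq`), so
`(i - j) d = c (x² - z²)` and `c ∣ i - j`.
`c` squarefree: `4 ∣ n + i d` iff `x` even (if `x` is odd then `4 ∣ c x²` gives `4 ∣ c`, `Nat.Coprime`).
If `d` is odd and `x, z` are both odd, then `8 ∣ x² - z²`, so `8 c ∣ (i - j) d`, and `Nat.Coprime (8 c) d`,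
so `8 c ∣ i - j`. If both are even, `4 ∣ x² - z²` and `4 c ∣ i - j`.
A set of `i < k` in one residue class mod `q` (`q ≥ 1`) has at most `k / q + 1` elements: `i ↦ i / q` is
injective into `range (k / q + 1)` (see the proof of `AP4.n2_count`).
`card_Fe_sum`: the sets `Fe n d k c` are disjoint subsets of `{i < k : 4 ∣ n + i d}`, which is one residue
class mod `4` (`d` odd).
-/

set_option autoImplicit false

namespace EAP

open Finset AP4

theorem b1_sp_squarefree (k m : ℕ) : Squarefree (sp k m) := by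
  unfold sp
  refine Finset.squarefree_prod_of_pairwise_isCoprime (fun p hp q hq hpq => ?_) fun p hp => ?_
  · simp only [Function.onFun, ← Nat.coprime_iff_isRelPrime]
    exact Nat.Coprime.pow _ _ ((Nat.coprime_primes (Nat.mem_primesLE.1 hp).2
      (Nat.mem_primesLE.1 hq).2).2 hpq)
  · have hpp := (Nat.mem_primesLE.1 hp).2
    rcases Nat.mod_two_eq_zero_or_one (m.factorization p) with h | h
    · rw [h, pow_zero]
      exact squarefree_one
    · rw [h, pow_one]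
      exact hpp.squarefree

theorem F_squarefree {n d k c : ℕ} (hF : (F n d k c).Nonempty) : Squarefree c := by
  obtain ⟨i, hi⟩ := hF
  rw [F, mem_filter] at hi
  rw [← hi.2]
  exact b1_sp_squarefree _ _

theorem F_coprime {n d k c : ℕ} (h : Sol n d k) (hF : (F n d k c).Nonempty) : Nat.Coprime c d := by
  obtain ⟨i, hi⟩ := hF
  rw [F, mem_filter, mem_range] at hi
  rw [← hi.2]
  exact sp_coprime h hi.1

theorem b1_count {k q : ℕ} {A : Finset ℕ} (hA : A ⊆ range k) (_hq : 1 ≤ q)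
    (h : ∀ i ∈ A, ∀ j ∈ A, (q : ℤ) ∣ (i : ℤ) - j) : A.card ≤ k / q + 1 := by
  have h0 := Finset.card_le_card_of_injOn (s := A) (t := range (k / q + 1)) (fun i => i / q) ?_ ?_
  · rwa [Finset.card_range] at h0
  · intro i hi
    have hi' := mem_range.1 (hA hi)
    rw [Finset.mem_coe, Finset.mem_range]
    exact Nat.lt_succ_of_le (Nat.div_le_div_right hi'.le)
  · intro i hi j hj hij
    simp only at hij
    have h1 : j ≡ i [MOD q] := (Nat.modEq_iff_dvd).2 (h i hi j hj)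
    have h2 := Nat.div_add_mod i q
    have h3 := Nat.div_add_mod j q
    have h4 : j % q = i % q := h1
    rw [← h2, ← h3, hij, h4]

/-- two elements of one class -/
theorem b1_pair {n d k c i j : ℕ} (h : Sol n d k) (hi : i ∈ F n d k c) (hj : j ∈ F n d k c) :
    ∃ x z : ℕ, n + i * d = c * x ^ 2 ∧ n + j * d = c * z ^ 2 ∧
      ((i : ℤ) - j) * d = c * ((x : ℤ) ^ 2 - (z : ℤ) ^ 2) := by
  rw [F, mem_filter, mem_range] at hi hj
  obtain ⟨x, _, hx⟩ := sp_mul_sq h hi.1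
  obtain ⟨z, _, hz⟩ := sp_mul_sq h hj.1
  rw [hi.2] at hx
  rw [hj.2] at hz
  refine ⟨x, z, hx, hz, ?_⟩
  have hx' : ((n + i * d : ℕ) : ℤ) = ((c * x ^ 2 : ℕ) : ℤ) := by rw [← hx]
  have hz' : ((n + j * d : ℕ) : ℤ) = ((c * z ^ 2 : ℕ) : ℤ) := by rw [← hz]
  push_cast at hx' hz'
  linear_combination hx' - hz'

theorem b1_cancel {q d : ℕ} {t : ℤ} (hqd : Nat.Coprime q d) (h : (q : ℤ) ∣ t * d) : (q : ℤ) ∣ t :=
  IsCoprime.dvd_of_dvd_mul_right (Nat.isCoprime_iff_coprime.2 hqd) h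

theorem card_F {n d k c : ℕ} (h : Sol n d k) (hc : 1 ≤ c) : (F n d k c).card ≤ k / c + 1 := by
  refine b1_count (filter_subset _ _) hc fun i hi j hj => ?_
  obtain ⟨x, z, _, _, h3⟩ := b1_pair h hi hj
  refine b1_cancel (F_coprime h ⟨i, hi⟩) ?_
  rw [h3]
  exact dvd_mul_right _ _

theorem b1_odd {c x m : ℕ} (h : ¬ 4 ∣ m) (hm : m = c * x ^ 2) : Odd x := by
  rw [← Nat.not_even_iff_odd]
  rintro ⟨y, hy⟩
  apply h
  rw [hm, hy]
  exact ⟨c * y ^ 2, by ring⟩

theorem b1_even {c x m : ℕ} (hc : Squarefree c) (h : 4 ∣ m) (hm : m = c * x ^ 2) : Even x := by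
  rw [← Nat.not_odd_iff_even]
  intro hx
  have h1 : Nat.Coprime 4 (x ^ 2) := by
    have h2 : Nat.Coprime 2 x := Nat.coprime_two_left.2 hx
    have h3 : Nat.Coprime (2 ^ 2) (x ^ 2) := Nat.Coprime.pow _ _ h2
    exact h3
  rw [hm] at h
  have h2 : 4 ∣ c := h1.dvd_of_dvd_mul_right h
  have h3 := hc 2 (by norm_num; exact h2)
  rw [Nat.isUnit_iff] at h3
  omega

theorem b1_sq8 {x z : ℕ} (hx : Odd x) (hz : Odd z) : (8 : ℤ) ∣ (x : ℤ) ^ 2 - (z : ℤ) ^ 2 := by
  obtain ⟨a, ha⟩ := hx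
  obtain ⟨b, hb⟩ := hz
  obtain ⟨u, hu⟩ := Int.even_mul_succ_self (a : ℤ)
  obtain ⟨v, hv⟩ := Int.even_mul_succ_self (b : ℤ)
  refine ⟨u - v, ?_⟩
  rw [ha, hb]
  push_cast
  linear_combination 4 * hu - 4 * hv

theorem card_Fo {n d k c : ℕ} (h : Sol n d k) (hd : Odd d) (hc : 1 ≤ c) :
    (Fo n d k c).card ≤ k / (8 * c) + 1 := by
  refine b1_count ((filter_subset _ _).trans (filter_subset _ _)) (by omega) fun i hi j hj => ?_
  rw [Fo, mem_filter] at hi hj
  obtain ⟨x, z, h1, h2, h3⟩ := b1_pair h hi.1 hj.1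
  have hcop : Nat.Coprime (8 * c) d := by
    refine Nat.Coprime.mul_left ?_ (F_coprime h ⟨i, hi.1⟩)
    have h4 : Nat.Coprime (2 ^ 3) d := Nat.Coprime.pow_left 3 (Nat.coprime_two_left.2 hd)
    exact h4
  refine b1_cancel hcop ?_
  obtain ⟨y, hy⟩ := b1_sq8 (b1_odd hi.2 h1) (b1_odd hj.2 h2)
  rw [h3, hy]
  exact ⟨y, by push_cast; ring⟩

theorem card_Fe {n d k c : ℕ} (h : Sol n d k) (hd : Odd d) (hc : 1 ≤ c) :
    (Fe n d k c).card ≤ k / (4 * c) + 1 := by
  refine b1_count ((filter_subset _ _).trans (filter_subset _ _)) (by omega) fun i hi j hj => ?_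
  rw [Fe, mem_filter] at hi hj
  obtain ⟨x, z, h1, h2, h3⟩ := b1_pair h hi.1 hj.1
  have hcop : Nat.Coprime (4 * c) d := by
    refine Nat.Coprime.mul_left ?_ (F_coprime h ⟨i, hi.1⟩)
    have h4 : Nat.Coprime (2 ^ 2) d := Nat.Coprime.pow_left 2 (Nat.coprime_two_left.2 hd)
    exact h4
  refine b1_cancel hcop ?_
  have hsq := F_squarefree ⟨i, hi.1⟩
  obtain ⟨a, ha⟩ := b1_even hsq hi.2 h1
  obtain ⟨b, hb⟩ := b1_even hsq hj.2 h2
  rw [h3, ha, hb]
  exact ⟨(a : ℤ) ^ 2 - (b : ℤ) ^ 2, by push_cast; ring⟩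

theorem card_Fe_sum {n d k : ℕ} (hd : Odd d) :
    ∑ c ∈ Icc 1 k, (Fe n d k c).card ≤ k / 4 + 1 := by
  classical
  have hdis : Set.PairwiseDisjoint (↑(Icc 1 k) : Set ℕ) (fun c => Fe n d k c) := by
    intro c _ c' _ hcc
    rw [Function.onFun, Finset.disjoint_left]
    intro i hi hi'
    rw [Fe, mem_filter, F, mem_filter] at hi hi'
    exact hcc (hi.1.2.symm.trans hi'.1.2)
  rw [← Finset.card_biUnion hdis]
  refine (Finset.card_le_card (t := (range k).filter (fun i => 4 ∣ n + i * d)) ?_).trans ?_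
  · intro i hi
    rw [mem_biUnion] at hi
    obtain ⟨c, _, hi⟩ := hi
    rw [Fe, mem_filter, F, mem_filter] at hi
    exact mem_filter.2 ⟨hi.1.1, hi.2⟩
  · refine b1_count (filter_subset _ _) (by norm_num) fun i hi j hj => ?_
    rw [mem_filter] at hi hj
    have hcop : Nat.Coprime 4 d := by
      have h4 : Nat.Coprime (2 ^ 2) d := Nat.Coprime.pow_left 2 (Nat.coprime_two_left.2 hd)
      exact h4
    refine b1_cancel hcop ?_
    have h1 : (4 : ℤ) ∣ ((n + i * d : ℕ) : ℤ) := by exact_mod_cast hi.2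
    have h2 : (4 : ℤ) ∣ ((n + j * d : ℕ) : ℤ) := by exact_mod_cast hj.2
    have h3 := dvd_sub h1 h2
    push_cast at h3 ⊢
    have e : ((i : ℤ) - j) * d = n + i * d - (n + j * d) := by ring
    rw [e]
    exact h3

end EAP
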