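import Pool.Agent.EAP.B1

/-!
[EAP-B2] the value of one class.

Let `u = k / c ≥ 1` (real), `o = (Fo ..).card`, `e = (Fe ..).card`, `o + e = S ≤ 3`,
`o ≤ k / (8 c) + 1`, `e ≤ k / (4 c) + 1` (nat division: `k / (8 c) = 0` iff `u < 8`, `≤ 1` if `u < 16`;
`k / (4 c) = 0` iff `u < 4`, `≤ 1` if `u < 8`). Claim `(o + e) log u - e ≤ fu u`.
* `u < 4`: `o, e ≤ 1`: `o log u + e (log u - 1) ≤ log u + max (log u - 1) 0 = fu u`.
* `4 ≤ u < 8`: `o ≤ 1`, `e ≤ 2`, `log u ≥ log 4 > 1`: `≤ log u + 2 (log u - 1) = fu u`.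
* `8 ≤ u < 16`: `o ≤ 2`. If `o + e = 3` then `e ≥ 1` and `3 log u - e ≤ 3 log u - 1 = fu u`; if
  `o + e ≤ 2` then `≤ 2 log u ≤ 3 log u - 1`.
* `16 ≤ u`: `≤ 3 log u = fu u`.
-/

set_option autoImplicit false

namespace EAP

open Finset AP4

theorem card_split (n d k c : ℕ) : S n d k c = (Fo n d k c).card + (Fe n d k c).card := by
  unfold Fo Fe
  rw [add_comm, Finset.card_filter_add_card_filter_not]
  rfl

theorem b2_real (o e : ℕ) (L u : ℝ) (hL : 0 ≤ L) (hL4 : 4 ≤ u → 1 ≤ L) (h3 : o + e ≤ 3)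
    (h1 : u < 4 → o ≤ 1 ∧ e ≤ 1) (h2 : u < 8 → o ≤ 1 ∧ e ≤ 2) (h4 : u < 16 → o ≤ 2) :
    ((o + e : ℕ) : ℝ) * L ≤ (L + max (L - 1) 0 + (if 4 ≤ u then L - 1 else 0)
    + (if 8 ≤ u then 1 else 0) + (if 16 ≤ u then 1 else 0)) + e := by
  by_cases c4 : 4 ≤ u
  · have l1 := hL4 c4
    have hm : max (L - 1) 0 = L - 1 := max_eq_left (by linarith)
    rw [if_pos c4, hm]
    by_cases c8 : 8 ≤ u
    · rw [if_pos c8]
      by_cases c16 : 16 ≤ u
      · rw [if_pos c16]
        have h5 : ((o + e : ℕ) : ℝ) ≤ 3 := by exact_mod_cast h3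
        have h6 : ((o + e : ℕ) : ℝ) * L ≤ 3 * L := mul_le_mul_of_nonneg_right h5 hL
        have h7 : (0 : ℝ) ≤ e := Nat.cast_nonneg e
        linarith
      · rw [if_neg c16]
        push Not at c16
        have ho := h4 c16
        by_cases hs : o + e = 3
        · have he : 1 ≤ e := by omega
          have he' : (1 : ℝ) ≤ e := by exact_mod_cast he
          rw [hs]
          push_cast
          linarith
        · have hs2 : o + e ≤ 2 := by omega
          have h5 : ((o + e : ℕ) : ℝ) ≤ 2 := by exact_mod_cast hs2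
          have h6 : ((o + e : ℕ) : ℝ) * L ≤ 2 * L := mul_le_mul_of_nonneg_right h5 hL
          have h7 : (0 : ℝ) ≤ e := Nat.cast_nonneg e
          linarith
    · rw [if_neg c8]
      push Not at c8
      rw [if_neg (by linarith)]
      obtain ⟨ho, he⟩ := h2 c8
      have ho' : (o : ℝ) ≤ 1 := by exact_mod_cast ho
      have he' : (e : ℝ) ≤ 2 := by exact_mod_cast he
      push_cast
      have h5 : (o : ℝ) * L ≤ 1 * L := mul_le_mul_of_nonneg_right ho' hL
      have h6 : (e : ℝ) * (L - 1) ≤ 2 * (L - 1) := mul_le_mul_of_nonneg_right he' (by linarith)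
      linarith
  · rw [if_neg c4, if_neg (by push Not at c4 ⊢; linarith), if_neg (by push Not at c4 ⊢; linarith)]
    push Not at c4
    obtain ⟨ho, he⟩ := h1 c4
    have ho' : (o : ℝ) ≤ 1 := by exact_mod_cast ho
    have he' : (e : ℝ) ≤ 1 := by exact_mod_cast he
    have he0 : (0 : ℝ) ≤ e := Nat.cast_nonneg e
    push_cast
    have h5 : (o : ℝ) * L ≤ 1 * L := mul_le_mul_of_nonneg_right ho' hL
    have h6 : (e : ℝ) * (L - 1) ≤ max (L - 1) 0 := by
      rcases le_total 0 (L - 1) with h | h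
      · refine le_trans ?_ (le_max_left _ _)
        calc (e : ℝ) * (L - 1) ≤ 1 * (L - 1) := mul_le_mul_of_nonneg_right he' h
          _ = L - 1 := one_mul _
      · refine le_trans ?_ (le_max_right _ _)
        exact mul_nonpos_of_nonneg_of_nonpos he0 h
    linarith

theorem class_odd {n d k c : ℕ} (h : Sol n d k) (hd : Odd d) (hc : 1 ≤ c) (hck : c ≤ k)
    (h3 : S n d k c ≤ 3) :
    (S n d k c : ℝ) * Real.log ((k : ℝ) / c) ≤ fu ((k : ℝ) / c) + (Fe n d k c).card := by
  have hs := card_split n d k c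
  have ho := card_Fo h hd hc
  have he := card_Fe h hd hc
  have hc' : (0 : ℝ) < c := by exact_mod_cast hc
  rw [hs] at h3 ⊢
  have hu1 : (1 : ℝ) ≤ (k : ℝ) / c := by
    rw [le_div_iff₀ hc', one_mul]
    exact_mod_cast hck
  have key : ∀ m : ℕ, (k : ℝ) / c < m → k < m * c := by
    intro m hm
    rw [div_lt_iff₀ hc'] at hm
    exact_mod_cast hm
  unfold fu
  refine b2_real _ _ _ _ (Real.log_nonneg hu1) ?_ h3 ?_ ?_ ?_
  · intro h4
    have h5 : Real.log 4 ≤ Real.log ((k : ℝ) / c) := Real.log_le_log (by norm_num) h4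
    have h6 : Real.log 4 = 2 * Real.log 2 := by
      rw [show (4 : ℝ) = 2 ^ 2 by norm_num, Real.log_pow]
      norm_num
    have := Real.log_two_gt_d9
    linarith
  · intro h4
    have h5 := key 4 (by exact_mod_cast h4)
    have e1 : k / (4 * c) = 0 := Nat.div_eq_of_lt h5
    have e2 : k / (8 * c) = 0 := Nat.div_eq_of_lt (by omega)
    omega
  · intro h4
    have h5 := key 8 (by exact_mod_cast h4)
    have e1 : k / (4 * c) < 2 := Nat.div_lt_of_lt_mul (by omega)
    have e2 : k / (8 * c) = 0 := Nat.div_eq_of_lt h5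
    omega
  · intro h4
    have h5 := key 16 (by exact_mod_cast h4)
    have e1 : k / (8 * c) < 2 := Nat.div_lt_of_lt_mul (by omega)
    omega

end EAP
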