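import Pool.Agent.EAP.Defs

/-!
[EAP-B4] squarefree numbers: counting.

`count_gen`: induction on the list/finset `P` of primes, for all `K`: let `C_P(K)` be the number of
`a ∈ [1, K]` with `p² ∤ a` for all `p ∈ P`. For a prime `q ∉ P`:
`C_{P ∪ {q}}(K) = C_P(K) - #{a ≤ K : q² ∣ a, p² ∤ a (p ∈ P)} = C_P(K) - C_P(K / q²)` (`a = q² a'`,
`p² ∣ a` iff `p² ∣ a'` as `p ≠ q`). With `δ = ∏_{p∈P} (1 - 1/p²) ∈ [0, 1]` and `|C_P(K) - δ K| ≤ E`:
`|C_{P ∪ {q}}(K) - δ (1 - 1/q²) K| ≤ 2 E + δ |K/q² - ⌊K/q²⌋| ≤ 2 E + 1`. Start: `E = 0`. So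
`E = 2 ^ |P| - 1`.
`count_sq`: `P = {2, 3, 5, 7, 11, 13, 17, 19}`, a squarefree number is not divisible by any `p²`.
-/

set_option autoImplicit false

namespace EAP

open Finset AP4

/-- `∏_{p ≤ 19} (1 - 1/p²)` -/
noncomputable def dl : ℝ := ∏ p ∈ ({2, 3, 5, 7, 11, 13, 17, 19} : Finset ℕ), (1 - 1 / (p : ℝ) ^ 2)

theorem b4_card (P : Finset ℕ) (hP : ∀ p ∈ P, p.Prime) (q : ℕ) (hq : q.Prime) (hqP : q ∉ P) (K : ℕ) :
    ((Icc 1 K).filter (fun a => ∀ p ∈ P, ¬ p ^ 2 ∣ a)).card =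
    ((Icc 1 K).filter (fun a => ∀ p ∈ insert q P, ¬ p ^ 2 ∣ a)).card +
    ((Icc 1 (K / q ^ 2)).filter (fun a => ∀ p ∈ P, ¬ p ^ 2 ∣ a)).card := by
  classical
  have hq2 : 0 < q ^ 2 := pow_pos hq.pos 2
  have h1 : ((Icc 1 K).filter (fun a => ∀ p ∈ insert q P, ¬ p ^ 2 ∣ a)) =
      ((Icc 1 K).filter (fun a => ∀ p ∈ P, ¬ p ^ 2 ∣ a)).filter (fun a => ¬ q ^ 2 ∣ a) := by
    ext a
    simp only [mem_filter, Finset.mem_insert, forall_eq_or_imp]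
    tauto
  have h2 : ((Icc 1 (K / q ^ 2)).filter (fun a => ∀ p ∈ P, ¬ p ^ 2 ∣ a)).card =
      (((Icc 1 K).filter (fun a => ∀ p ∈ P, ¬ p ^ 2 ∣ a)).filter (fun a => q ^ 2 ∣ a)).card := by
    refine Finset.card_bij (fun a _ => q ^ 2 * a) ?_ ?_ ?_
    · intro a ha
      rw [mem_filter, mem_Icc] at ha
      obtain ⟨⟨ha1, ha2⟩, ha3⟩ := ha
      rw [mem_filter, mem_filter, mem_Icc]
      refine ⟨⟨⟨?_, ?_⟩, ?_⟩, Dvd.intro _ rfl⟩
      · exact Nat.mul_pos hq2 ha1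
      · rw [mul_comm]
        exact (Nat.le_div_iff_mul_le hq2).1 ha2
      · intro p hp hdiv
        have hne : p ≠ q := fun h => hqP (h ▸ hp)
        have hcop : Nat.Coprime (p ^ 2) (q ^ 2) :=
          Nat.Coprime.pow 2 2 ((Nat.coprime_primes (hP p hp) hq).2 hne)
        exact ha3 p hp (hcop.dvd_of_dvd_mul_left hdiv)
    · intro a _ b _ hab
      exact Nat.eq_of_mul_eq_mul_left hq2 hab
    · intro b hb
      rw [mem_filter, mem_filter, mem_Icc] at hb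
      obtain ⟨⟨⟨hb1, hb2⟩, hb3⟩, a, rfl⟩ := hb
      refine ⟨a, ?_, rfl⟩
      rw [mem_filter, mem_Icc]
      refine ⟨⟨?_, ?_⟩, ?_⟩
      · rcases Nat.eq_zero_or_pos a with h | h
        · subst h
          omega
        · exact h
      · rw [Nat.le_div_iff_mul_le hq2, mul_comm]
        exact hb2
      · intro p hp hdiv
        exact hb3 p hp (Dvd.dvd.mul_left hdiv _)
  rw [h1, h2, add_comm]
  exact (Finset.card_filter_add_card_filter_not _).symm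

theorem b4_delta (P : Finset ℕ) (hP : ∀ p ∈ P, p.Prime) :
    0 ≤ ∏ p ∈ P, (1 - 1 / (p : ℝ) ^ 2) ∧ ∏ p ∈ P, (1 - 1 / (p : ℝ) ^ 2) ≤ 1 := by
  have h0 : ∀ p ∈ P, (0 : ℝ) ≤ 1 - 1 / (p : ℝ) ^ 2 := by
    intro p hp
    have h1 : (1 : ℝ) ≤ (p : ℝ) := by exact_mod_cast (hP p hp).one_le
    have h2 : (1 : ℝ) ≤ (p : ℝ) ^ 2 := one_le_pow₀ h1
    have h3 : 1 / (p : ℝ) ^ 2 ≤ 1 := by
      rw [div_le_one (by positivity)]
      exact h2
    linarith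
  refine ⟨Finset.prod_nonneg h0, Finset.prod_le_one h0 ?_⟩
  intro p _
  have : (0 : ℝ) ≤ 1 / (p : ℝ) ^ 2 := by positivity
  linarith

theorem count_gen (P : Finset ℕ) (hP : ∀ p ∈ P, p.Prime) (K : ℕ) :
    |(((Icc 1 K).filter (fun a => ∀ p ∈ P, ¬ p ^ 2 ∣ a)).card : ℝ) -
      (∏ p ∈ P, (1 - 1 / (p : ℝ) ^ 2)) * K| ≤ 2 ^ P.card - 1 := by
  classical
  induction P using Finset.induction_on generalizing K with
  | empty => simp
  | insert q P hqP ih =>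
    have hP' : ∀ p ∈ P, p.Prime := fun p hp => hP p (Finset.mem_insert_of_mem hp)
    have hq : q.Prime := hP q (Finset.mem_insert_self q P)
    have ih1 := ih hP' K
    have ih2 := ih hP' (K / q ^ 2)
    have hc := b4_card P hP' q hq hqP K
    obtain ⟨d0, d1⟩ := b4_delta P hP'
    rw [Finset.card_insert_of_notMem hqP, Finset.prod_insert hqP]
    have hc' : (((Icc 1 K).filter (fun a => ∀ p ∈ insert q P, ¬ p ^ 2 ∣ a)).card : ℝ) =
        (((Icc 1 K).filter (fun a => ∀ p ∈ P, ¬ p ^ 2 ∣ a)).card : ℝ) -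
        (((Icc 1 (K / q ^ 2)).filter (fun a => ∀ p ∈ P, ¬ p ^ 2 ∣ a)).card : ℝ) := by
      rw [hc]; push_cast; ring
    rw [hc']
    set A : ℝ := (((Icc 1 K).filter (fun a => ∀ p ∈ P, ¬ p ^ 2 ∣ a)).card : ℝ)
    set B : ℝ := (((Icc 1 (K / q ^ 2)).filter (fun a => ∀ p ∈ P, ¬ p ^ 2 ∣ a)).card : ℝ)
    set D : ℝ := ∏ p ∈ P, (1 - 1 / (p : ℝ) ^ 2)
    have hq0 : (0 : ℝ) < (q : ℝ) ^ 2 := by
      have : (0 : ℝ) < (q : ℝ) := by exact_mod_cast hq.pos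
      positivity
    have f1 : ((K / q ^ 2 : ℕ) : ℝ) ≤ (K : ℝ) / (q : ℝ) ^ 2 := by
      have := @Nat.cast_div_le ℝ _ _ _ K (q ^ 2)
      push_cast at this
      exact this
    have f2 : (K : ℝ) / (q : ℝ) ^ 2 ≤ ((K / q ^ 2 : ℕ) : ℝ) + 1 := by
      rw [div_le_iff₀ hq0]
      have := Nat.lt_div_mul_add (a := K) (pow_pos hq.pos 2)
      have h5 : K ≤ (K / q ^ 2 + 1) * q ^ 2 := by
        rw [add_mul, one_mul]
        exact this.le
      exact_mod_cast h5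
    have e1 : A - B - (1 - 1 / (q : ℝ) ^ 2) * D * K =
        (A - D * K) - (B - D * ((K / q ^ 2 : ℕ) : ℝ)) +
          D * ((K : ℝ) / (q : ℝ) ^ 2 - ((K / q ^ 2 : ℕ) : ℝ)) := by
      ring
    have g1 : 0 ≤ D * ((K : ℝ) / (q : ℝ) ^ 2 - ((K / q ^ 2 : ℕ) : ℝ)) :=
      mul_nonneg d0 (by linarith)
    have g2 : D * ((K : ℝ) / (q : ℝ) ^ 2 - ((K / q ^ 2 : ℕ) : ℝ)) ≤ 1 := by
      calc D * ((K : ℝ) / (q : ℝ) ^ 2 - ((K / q ^ 2 : ℕ) : ℝ)) ≤ 1 * 1 :=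
            mul_le_mul d1 (by linarith) (by linarith) (by norm_num)
        _ = 1 := one_mul 1
    rw [e1]
    rw [abs_le] at ih1 ih2 ⊢
    rw [pow_succ]
    constructor <;> linarith [ih1.1, ih1.2, ih2.1, ih2.2]

theorem count_sq (K : ℕ) : (((Icc 1 K).filter Squarefree).card : ℝ) ≤ dl * K + 256 := by
  have hP : ∀ p ∈ ({2, 3, 5, 7, 11, 13, 17, 19} : Finset ℕ), p.Prime := by
    intro p hp
    simp only [Finset.mem_insert, Finset.mem_singleton] at hp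
    rcases hp with h | h | h | h | h | h | h | h <;> subst h <;> norm_num
  have h1 := count_gen _ hP K
  have h2 : ((Icc 1 K).filter Squarefree).card ≤
      ((Icc 1 K).filter (fun a => ∀ p ∈ ({2, 3, 5, 7, 11, 13, 17, 19} : Finset ℕ),
        ¬ p ^ 2 ∣ a)).card := by
    refine Finset.card_le_card ?_
    intro a ha
    rw [mem_filter] at ha ⊢
    refine ⟨ha.1, fun p hp hd => ?_⟩
    have := ha.2 p (by rwa [← sq])
    exact (hP p hp).one_lt.ne' (Nat.isUnit_iff.1 this)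
  have h3 : (((Icc 1 K).filter Squarefree).card : ℝ) ≤
      (((Icc 1 K).filter (fun a => ∀ p ∈ ({2, 3, 5, 7, 11, 13, 17, 19} : Finset ℕ),
        ¬ p ^ 2 ∣ a)).card : ℝ) := by exact_mod_cast h2
  have h4 : ({2, 3, 5, 7, 11, 13, 17, 19} : Finset ℕ).card = 8 := by decide
  rw [h4] at h1
  have h5 := (abs_le.1 h1).2
  unfold dl
  linarith

end EAP
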