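import Pool.Agent.EAP.B4

/-!
[EAP-B5] partial summation over squarefree numbers.

`abel_le`: let `q(j) = #{a ∈ [1, j] : a squarefree} ≤ dl * j + 256`. Partial summation:
`∑_{a ≤ K, sqfree} g a = ∑_{j=1}^{K-1} (g j - g (j+1)) q(j) + g K q(K)`
`≤ ∑_{j<K} (g j - g (j+1)) (dl j + 256) + g K (dl K + 256) = dl ∑_{a ≤ K} g a + 256 g 1`.
(Or by induction on `K` a statement like: for all antitone nonneg `g` on `[1, K]`,
`∑_{a ≤ K} g a ([a sqfree] - dl) ≤ 256 g 1`: write `D(j) = q(j) - dl j ≤ 256` and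
`∑_{a ≤ K} g a (D a - D (a-1)) = g K D(K) + ∑_{a<K} (g a - g (a+1)) D(a)`.)
-/

set_option autoImplicit false

namespace EAP

open Finset AP4

theorem b5_abel (g w : ℕ → ℝ) (B : ℝ) (hD : ∀ j, ∑ a ∈ Icc 1 j, w a ≤ B) (K : ℕ) (hK : 1 ≤ K)
    (hm : ∀ a, 1 ≤ a → a < K → g (a + 1) ≤ g a) :
    ∑ a ∈ Icc 1 K, g a * w a ≤ g K * ∑ a ∈ Icc 1 K, w a + B * (g 1 - g K) := by
  induction K, hK using Nat.le_induction with
  | base => simp
  | succ K hK ih =>
    have ih' := ih fun a h1 h2 => hm a h1 (by omega)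
    rw [Finset.sum_Icc_succ_top (by omega), Finset.sum_Icc_succ_top (by omega)]
    have h1 := hm K hK (by omega)
    have h2 := hD K
    have h3 : 0 ≤ (g K - g (K + 1)) * (B - ∑ a ∈ Icc 1 K, w a) :=
      mul_nonneg (by linarith) (by linarith)
    linarith

theorem b5_count (j : ℕ) :
    ∑ a ∈ Icc 1 j, ((if Squarefree a then (1 : ℝ) else 0) - dl) ≤ 256 := by
  have h := count_sq j
  rw [Finset.sum_sub_distrib, Finset.sum_const, Nat.card_Icc, Finset.sum_boole, nsmul_eq_mul]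
  have e : ((j + 1 - 1 : ℕ) : ℝ) = j := by simp
  rw [e]
  linarith

theorem abel_le {K : ℕ} (hK : 1 ≤ K) (g : ℕ → ℝ) (h0 : 0 ≤ g K)
    (hm : ∀ a, 1 ≤ a → a < K → g (a + 1) ≤ g a) :
    ∑ a ∈ (Icc 1 K).filter Squarefree, g a ≤ dl * ∑ a ∈ Icc 1 K, g a + 256 * g 1 := by
  have h := b5_abel g (fun a => (if Squarefree a then (1 : ℝ) else 0) - dl) 256 b5_count K hK hm
  have h1 : g K * ∑ a ∈ Icc 1 K, ((if Squarefree a then (1 : ℝ) else 0) - dl) ≤ g K * 256 :=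
    mul_le_mul_of_nonneg_left (b5_count K) h0
  have e : ∑ a ∈ Icc 1 K, g a * ((if Squarefree a then (1 : ℝ) else 0) - dl) =
      ∑ a ∈ (Icc 1 K).filter Squarefree, g a - dl * ∑ a ∈ Icc 1 K, g a := by
    rw [Finset.sum_filter, Finset.mul_sum, ← Finset.sum_sub_distrib]
    refine Finset.sum_congr rfl fun a _ => ?_
    split_ifs <;> ring
  rw [e] at h
  linarith

end EAP
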