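import Pool.Agent.EAP.Defs

/-!
[EAP-B6] sums of `fu (k / c)` over all `c`.

`log_sum`: for real `x ≥ 0`: `∑_{1 ≤ c ≤ ⌊x⌋} log (x/c) ≤ x`. With `N = ⌊x⌋ ≥ 1`:
`= N log x - log N! ≤ N log x - N log N + N = N (1 + log (x/N)) ≤ N (x/N) = x` (`log N! ≥ N log N - N`;
this is `EAP.log_factorial_ge` in `A4.lean`, prove it here again under another name or import `A4`;
`log t ≤ t - 1`).
`fu_sum`: the five parts of `fu`, `k` real:
1. `∑_{c ≤ k} log (k/c) ≤ k`.
2. `max (log (k/c) - 1) 0` is `log ((k/e)/c)` if `c ≤ k/e` and `0` otherwise: sum `≤ k/e`.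
3. `4 ≤ k/c` iff `c ≤ k/4`; `log (k/c) - 1 = log ((k/4)/c) + (log 4 - 1)`: sum
   `≤ k/4 + (k/4)(log 4 - 1) = (k/4) log 4 = (k/2) log 2` (there are `⌊k/4⌋ ≤ k/4` such `c`, `log 4 ≥ 1`).
4. `#{c : c ≤ k/8} ≤ k/8`. 5. `#{c : c ≤ k/16} ≤ k/16`.
Total `k (1 + 1/e + (log 2)/2 + 3/16)`.
`fu_mono`: `fu` is monotone on `[1, ∞)` (each part is; `log u - 1 ≥ 0` for `u ≥ 4`), `fu_nonneg`,
`fu_le : fu u ≤ 3 log u + 2`, for `u ≥ 1`: careful with `max`: for `u < 4` the value is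
`≤ log u + log u`, as `max (log u - 1) 0 ≤ log u`.
-/

set_option autoImplicit false

namespace EAP

open Finset AP4

theorem b6_log_sum {x : ℝ} (hx : 0 < x) (N : ℕ) : ∑ c ∈ Icc 1 N, Real.log (x / c) ≤ x := by
  have h1 : ∏ c ∈ Icc 1 N, (x / (c : ℝ)) = x ^ N / (N.factorial : ℝ) := by
    have h0 : ∏ c ∈ Icc 1 N, (c : ℝ) = (N.factorial : ℝ) := by
      rw [← Nat.cast_prod]
      congr 1
      have h5 := Finset.prod_Ico_id_eq_factorial N
      exact h5
    rw [Finset.prod_div_distrib, Finset.prod_const, Nat.card_Icc, Nat.add_sub_cancel, h0]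
  rw [← Real.log_prod (fun c hc => ?_), h1]
  · have h2 : x ^ N / (N.factorial : ℝ) ≤ Real.exp x := Real.pow_div_factorial_le_exp x hx.le N
    have h3 : 0 < x ^ N / (N.factorial : ℝ) := by positivity
    calc Real.log (x ^ N / (N.factorial : ℝ)) ≤ Real.log (Real.exp x) := Real.log_le_log h3 h2
      _ = x := Real.log_exp x
  · have hc1 : 1 ≤ c := (mem_Icc.1 hc).1
    have : (0 : ℝ) < c := by exact_mod_cast hc1
    positivity

theorem log_sum {x : ℝ} (hx : 0 ≤ x) : ∑ c ∈ Icc 1 ⌊x⌋₊, Real.log (x / c) ≤ x := by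
  rcases hx.eq_or_lt with h | h
  · subst h
    simp
  · exact b6_log_sum h _

theorem b6_max_sum {y : ℝ} (hy : 0 < y) {k : ℕ} (hyk : y ≤ k) :
    ∑ c ∈ Icc 1 k, max (Real.log (y / c)) 0 ≤ y := by
  have h1 : ∑ c ∈ Icc 1 k, max (Real.log (y / c)) 0 =
      ∑ c ∈ Icc 1 ⌊y⌋₊, max (Real.log (y / c)) 0 := by
    symm
    refine Finset.sum_subset ?_ fun c hc hc' => ?_
    · intro c hc
      rw [mem_Icc] at hc ⊢
      refine ⟨hc.1, ?_⟩
      have h2 : (c : ℝ) ≤ y := (Nat.le_floor_iff hy.le).1 hc.2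
      exact_mod_cast h2.trans hyk
    · rw [mem_Icc] at hc hc'
      have h2 : y < c := by
        rw [← not_le]
        intro h
        exact hc' ⟨hc.1, Nat.le_floor h⟩
      have h3 : (0 : ℝ) < c := hy.trans h2
      exact max_eq_right (Real.log_nonpos (by positivity) ((div_le_one h3).2 h2.le))
  rw [h1]
  refine le_trans (le_of_eq ?_) (b6_log_sum hy ⌊y⌋₊)
  refine Finset.sum_congr rfl fun c hc => ?_
  rw [mem_Icc] at hc
  have h2 : (c : ℝ) ≤ y := (Nat.le_floor_iff hy.le).1 hc.2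
  have h3 : (0 : ℝ) < c := by exact_mod_cast hc.1
  exact max_eq_left (Real.log_nonneg ((one_le_div h3).2 h2))

theorem b6_ite_sum {k m : ℕ} (hm : 1 ≤ m) (f : ℕ → ℝ) :
    ∑ c ∈ Icc 1 k, (if (m : ℝ) ≤ (k : ℝ) / c then f c else 0) = ∑ c ∈ Icc 1 (k / m), f c := by
  rw [← Finset.sum_filter]
  refine Finset.sum_congr ?_ fun _ _ => rfl
  ext c
  rw [mem_filter, mem_Icc, mem_Icc]
  constructor
  · rintro ⟨⟨h1, h2⟩, h3⟩
    refine ⟨h1, ?_⟩
    have h4 : (0 : ℝ) < c := by exact_mod_cast h1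
    rw [le_div_iff₀ h4] at h3
    rw [Nat.le_div_iff_mul_le hm, mul_comm]
    exact_mod_cast h3
  · rintro ⟨h1, h2⟩
    have h4 : (0 : ℝ) < c := by exact_mod_cast h1
    rw [Nat.le_div_iff_mul_le hm] at h2
    refine ⟨⟨h1, le_trans (Nat.le_mul_of_pos_right c hm) h2⟩, ?_⟩
    rw [le_div_iff₀ h4, mul_comm]
    exact_mod_cast h2

theorem b6_card {k m : ℕ} : (((Icc 1 (k / m)).card : ℕ) : ℝ) ≤ (k : ℝ) / m := by
  rw [Nat.card_Icc, Nat.add_sub_cancel]
  exact Nat.cast_div_le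

theorem b6_log4 : 1 ≤ Real.log 4 := by
  rw [Real.le_log_iff_exp_le (by norm_num)]
  have := Real.exp_one_lt_d9
  linarith

theorem b6_log4' : Real.log 4 = 2 * Real.log 2 := by
  rw [show (4 : ℝ) = 2 ^ 2 by norm_num, Real.log_pow]
  push_cast
  ring

theorem fu_sum {k : ℕ} (hk : 1 ≤ k) :
    ∑ c ∈ Icc 1 k, fu ((k : ℝ) / c) ≤ (19 / 16 + Real.exp (-1) + Real.log 2 / 2) * k := by
  have hk0 : (0 : ℝ) < k := by exact_mod_cast hk
  unfold fu
  rw [Finset.sum_add_distrib, Finset.sum_add_distrib, Finset.sum_add_distrib,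
    Finset.sum_add_distrib]
  have h1 : ∑ c ∈ Icc 1 k, Real.log ((k : ℝ) / c) ≤ k := b6_log_sum hk0 k
  have h2 : ∑ c ∈ Icc 1 k, max (Real.log ((k : ℝ) / c) - 1) 0 ≤ Real.exp (-1) * k := by
    have h3 := b6_max_sum (y := Real.exp (-1) * k) (mul_pos (Real.exp_pos _) hk0) (k := k) (by
      have : Real.exp (-1) ≤ 1 := by
        rw [Real.exp_le_one_iff]
        norm_num
      nlinarith)
    refine le_trans (le_of_eq (Finset.sum_congr rfl fun c hc => ?_)) h3
    have hc1 : 1 ≤ c := (mem_Icc.1 hc).1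
    have hc0 : (0 : ℝ) < c := by exact_mod_cast hc1
    rw [mul_div_assoc, Real.log_mul (Real.exp_pos _).ne' (by positivity), Real.log_exp]
    congr 1
    ring
  have h3 : ∑ c ∈ Icc 1 k, (if 4 ≤ (k : ℝ) / c then Real.log ((k : ℝ) / c) - 1 else 0) ≤
      (k : ℝ) / 4 * Real.log 4 := by
    have e1 := b6_ite_sum (k := k) (m := 4) (by norm_num) (fun c => Real.log ((k : ℝ) / c) - 1)
    push_cast at e1
    rw [e1]
    have e2 : ∑ c ∈ Icc 1 (k / 4), (Real.log ((k : ℝ) / c) - 1) =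
        ∑ c ∈ Icc 1 (k / 4), Real.log ((k : ℝ) / 4 / c) +
          ((Icc 1 (k / 4)).card : ℝ) * (Real.log 4 - 1) := by
      rw [← nsmul_eq_mul, ← Finset.sum_const, ← Finset.sum_add_distrib]
      refine Finset.sum_congr rfl fun c hc => ?_
      have hc1 : 1 ≤ c := (mem_Icc.1 hc).1
      have hc0 : (0 : ℝ) < c := by exact_mod_cast hc1
      have e3 : (k : ℝ) / c = (k : ℝ) / 4 / c * 4 := by ring
      rw [e3, Real.log_mul (by positivity) (by norm_num)]
      ring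
    rw [e2]
    have e4 : ∑ c ∈ Icc 1 (k / 4), Real.log ((k : ℝ) / 4 / c) ≤ (k : ℝ) / 4 :=
      b6_log_sum (by positivity) _
    have e5 : ((Icc 1 (k / 4)).card : ℝ) * (Real.log 4 - 1) ≤ (k : ℝ) / 4 * (Real.log 4 - 1) :=
      mul_le_mul_of_nonneg_right (b6_card (k := k) (m := 4)) (by linarith [b6_log4])
    linarith
  have h4 : ∑ c ∈ Icc 1 k, (if 8 ≤ (k : ℝ) / c then (1 : ℝ) else 0) ≤ (k : ℝ) / 8 := by
    have e1 := b6_ite_sum (k := k) (m := 8) (by norm_num) (fun _ => (1 : ℝ))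
    push_cast at e1
    rw [e1, Finset.sum_const, nsmul_eq_mul, mul_one]
    exact b6_card (k := k) (m := 8)
  have h5 : ∑ c ∈ Icc 1 k, (if 16 ≤ (k : ℝ) / c then (1 : ℝ) else 0) ≤ (k : ℝ) / 16 := by
    have e1 := b6_ite_sum (k := k) (m := 16) (by norm_num) (fun _ => (1 : ℝ))
    push_cast at e1
    rw [e1, Finset.sum_const, nsmul_eq_mul, mul_one]
    exact b6_card (k := k) (m := 16)
  rw [b6_log4'] at h3
  linarith

theorem fu_mono {u v : ℝ} (hu : 1 ≤ u) (huv : u ≤ v) : fu u ≤ fu v := by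
  have h1 : Real.log u ≤ Real.log v := Real.log_le_log (by linarith) huv
  have h2 : max (Real.log u - 1) 0 ≤ max (Real.log v - 1) 0 := max_le_max (by linarith) le_rfl
  have h3 : (if 4 ≤ u then Real.log u - 1 else 0) ≤ (if 4 ≤ v then Real.log v - 1 else 0) := by
    split_ifs with ha hb hb
    · linarith
    · exact absurd (ha.trans huv) hb
    · have h5 : Real.log 4 ≤ Real.log v := Real.log_le_log (by norm_num) hb
      linarith [b6_log4]
    · exact le_rfl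
  have h4 : (if 8 ≤ u then (1 : ℝ) else 0) ≤ (if 8 ≤ v then 1 else 0) := by
    split_ifs with ha hb hb
    · exact le_rfl
    · exact absurd (ha.trans huv) hb
    · norm_num
    · exact le_rfl
  have h5 : (if 16 ≤ u then (1 : ℝ) else 0) ≤ (if 16 ≤ v then 1 else 0) := by
    split_ifs with ha hb hb
    · exact le_rfl
    · exact absurd (ha.trans huv) hb
    · norm_num
    · exact le_rfl
  unfold fu
  linarith

theorem fu_nonneg {u : ℝ} (hu : 1 ≤ u) : 0 ≤ fu u := by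
  have h := fu_mono le_rfl hu
  have h1 : 0 ≤ fu 1 := by
    unfold fu
    rw [Real.log_one, if_neg (by norm_num), if_neg (by norm_num), if_neg (by norm_num)]
    have := le_max_right ((0 : ℝ) - 1) 0
    linarith
  linarith

theorem fu_le {u : ℝ} (hu : 1 ≤ u) : fu u ≤ 3 * Real.log u + 2 := by
  have h0 : 0 ≤ Real.log u := Real.log_nonneg hu
  have h2 : max (Real.log u - 1) 0 ≤ Real.log u := max_le (by linarith) h0
  have h3 : (if 4 ≤ u then Real.log u - 1 else 0) ≤ Real.log u := by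
    split_ifs
    · linarith
    · exact h0
  have h4 : (if 8 ≤ u then (1 : ℝ) else 0) ≤ 1 := by
    split_ifs
    · exact le_rfl
    · norm_num
  have h5 : (if 16 ≤ u then (1 : ℝ) else 0) ≤ 1 := by
    split_ifs
    · exact le_rfl
    · norm_num
  unfold fu
  linarith

end EAP
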