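import Pool.Agent.EAP.B5
import Pool.Agent.EAP.B6

/-!
[EAP-B7] the sum over squarefree classes.

`abel_le` with `K = k`, `g c = fu (k / c)` (antitone by `fu_mono`, `k/c ≥ 1`; `g k = fu 1 ≥ 0`), `fu_sum`,
`fu_le`: `≤ dl (19/16 + e⁻¹ + (log 2)/2) k + 256 (3 log k + 2)`.
`dl_num`: `dl = 0.6142335…`, `e⁻¹ < 0.36788` (`Real.exp_neg`, `Real.exp_one_gt_d9`),
`log 2 < 0.6931472` (`Real.log_two_lt_d9`): the product is `1.168243…`. (`dl`: `simp [dl]` / unfold, then
`norm_num`.) `dl ≥ 0`.
-/

set_option autoImplicit false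

namespace EAP

open Finset AP4

theorem b7_dl_val : dl = 3 / 4 * (8 / 9 * (24 / 25 * (48 / 49 * (120 / 121 * (168 / 169 * (288 / 289 *
    (360 / 361))))))) := by
  unfold dl
  rw [Finset.prod_insert (by decide), Finset.prod_insert (by decide), Finset.prod_insert (by decide),
    Finset.prod_insert (by decide), Finset.prod_insert (by decide), Finset.prod_insert (by decide),
    Finset.prod_insert (by decide), Finset.prod_singleton]
  norm_num

theorem b7_dl_nonneg : 0 ≤ dl := by
  rw [b7_dl_val]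
  norm_num

theorem dl_num : dl * (19 / 16 + Real.exp (-1) + Real.log 2 / 2) ≤ 1.1683 := by
  have h1 : Real.exp (-1) ≤ 0.36788 := by
    rw [Real.exp_neg]
    have h := Real.exp_one_gt_d9
    rw [inv_le_comm₀ (Real.exp_pos 1) (by norm_num)]
    refine le_trans ?_ h.le
    norm_num
  have h2 : Real.log 2 ≤ 0.6931472 := le_trans Real.log_two_lt_d9.le (by norm_num)
  have h3 : 19 / 16 + Real.exp (-1) + Real.log 2 / 2 ≤ 1.9019536 := by
    linarith
  refine le_trans (mul_le_mul_of_nonneg_left h3 b7_dl_nonneg) ?_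
  rw [b7_dl_val]
  norm_num

theorem sqfree_sum {k : ℕ} (hk : 1 ≤ k) :
    ∑ c ∈ (Icc 1 k).filter Squarefree, fu ((k : ℝ) / c) ≤
      1.1683 * k + 768 * (Real.log k + 1) := by
  have hk0 : (1 : ℝ) ≤ k := by exact_mod_cast hk
  have hkk : (k : ℝ) / (k : ℕ) = 1 := div_self (by positivity)
  have h1 := abel_le hk (fun c => fu ((k : ℝ) / c)) (by
    rw [hkk]
    exact fu_nonneg (le_refl 1)) (by
    intro a ha hak
    have ha0 : (1 : ℝ) ≤ a := by exact_mod_cast ha
    have hak' : ((a + 1 : ℕ) : ℝ) ≤ k := by exact_mod_cast hak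
    apply fu_mono
    · rw [le_div_iff₀ (by positivity), one_mul]
      exact hak'
    · apply div_le_div_of_nonneg_left (by positivity) (by positivity)
      push_cast
      linarith)
  have h2 := fu_sum hk
  have h3 : fu ((k : ℝ) / ((1 : ℕ) : ℝ)) ≤ 3 * Real.log k + 2 := by
    have := fu_le hk0
    simpa using this
  have h4 := mul_le_mul_of_nonneg_left h2 b7_dl_nonneg
  have h5 := mul_le_mul_of_nonneg_right dl_num (le_trans zero_le_one hk0)
  linarith

end EAP
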