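import Pool.Agent.EAP.Defs

/-!
[EAP-C1] power saving for the multiplicities.

Let `C₀` be the constant of `AP4.A_bound`. Given `1 ≤ c ≤ k` let `Q ≥ 1` be the largest integer with
`c Q³ ≤ k` (`Nat.findGreatest`, or `Q = ⌊(k/c)^(1/3)⌋`); then `k < c (Q+1)³ ≤ 8 c Q³`.
`AP4.S_sieve`: `S ≤ 135 (k/c) / (M d Q + 3)`. `AP4.m4` (`x = Q`): `log Q - A d Q - 5 ≤ 2 log (M d Q + 3)` and
`A d Q ≤ A d k ≤ C₀` (`AP4.A_mono`), so `M d Q + 3 ≥ exp ((log Q - C₀ - 5)/2) = Q^(1/2) exp (-(C₀+5)/2)`.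
With `u = k/c < 8 Q³`, `Q^(1/2) ≥ (u/8)^(1/6)`. So `S ≤ 135 u · exp((C₀+5)/2) (u/8)^(-1/6) = C u^(5/6)`.
-/

set_option autoImplicit false

namespace EAP

open Finset AP4

theorem c1_exists {c k : ℕ} (hc : 1 ≤ c) (hck : c ≤ k) :
    ∃ Q : ℕ, 1 ≤ Q ∧ c * Q ^ 3 ≤ k ∧ k < c * (Q + 1) ^ 3 := by
  have h1 : c * 1 ^ 3 ≤ k := by simpa using hck
  have hk : 1 ≤ k := hc.trans hck
  set Q := Nat.findGreatest (fun Q => c * Q ^ 3 ≤ k) k with hQ
  have hQ1 : 1 ≤ Q := Nat.le_findGreatest (P := fun Q => c * Q ^ 3 ≤ k) hk h1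
  have hQ2 : c * Q ^ 3 ≤ k := Nat.findGreatest_spec (P := fun Q => c * Q ^ 3 ≤ k) hk h1
  refine ⟨Q, hQ1, hQ2, ?_⟩
  rcases Nat.lt_or_ge Q k with h | h
  · have := Nat.findGreatest_is_greatest (P := fun Q => c * Q ^ 3 ≤ k) (n := k) (k := Q + 1)
      (Nat.lt_succ_self _) h
    omega
  · have h2 : k + 1 ≤ (Q + 1) ^ 3 := by
      calc k + 1 ≤ (Q + 1) ^ 1 := by rw [pow_one]; exact Nat.succ_le_succ h
        _ ≤ (Q + 1) ^ 3 := Nat.pow_le_pow_right (by omega) (by omega)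
    calc k < k + 1 := Nat.lt_succ_self _
      _ ≤ 1 * (Q + 1) ^ 3 := by omega
      _ ≤ c * (Q + 1) ^ 3 := Nat.mul_le_mul_right _ hc

theorem S_pow : ∃ C : ℝ, 0 < C ∧ ∀ n d k c : ℕ, Sol n d k → 1 ≤ c → c ≤ k →
    (S n d k c : ℝ) ≤ C * ((k : ℝ) / c) ^ ((5 : ℝ) / 6) := by
  obtain ⟨C0, hC0, hA⟩ := A_bound
  refine ⟨135 * Real.exp ((C0 + 6) / 2), by positivity, fun n d k c h hc hck => ?_⟩
  obtain ⟨Q, hQ1, hQ2, hQ3⟩ := c1_exists hc hck
  have hc0 : (0 : ℝ) < c := by exact_mod_cast hc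
  have hk0 : (0 : ℝ) < k := by exact_mod_cast (hc.trans hck)
  have hQR : (1 : ℝ) ≤ Q := by exact_mod_cast hQ1
  have hQk : Q ≤ k := by
    calc Q = 1 * Q ^ 1 := by ring
      _ ≤ c * Q ^ 3 := Nat.mul_le_mul hc (Nat.pow_le_pow_right hQ1 (by omega))
      _ ≤ k := hQ2
  set u : ℝ := (k : ℝ) / c with hu
  have hu0 : 0 < u := div_pos hk0 hc0
  have hu8 : u ≤ 8 * (Q : ℝ) ^ 3 := by
    rw [hu, div_le_iff₀ hc0]
    have h1 : (k : ℝ) ≤ c * ((Q : ℝ) + 1) ^ 3 := by exact_mod_cast hQ3.le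
    have h2 : ((Q : ℝ) + 1) ^ 3 ≤ (2 * (Q : ℝ)) ^ 3 :=
      pow_le_pow_left₀ (by positivity) (by linarith) 3
    have h3 := mul_le_mul_of_nonneg_left h2 hc0.le
    have h4 : (c : ℝ) * (2 * (Q : ℝ)) ^ 3 = 8 * (Q : ℝ) ^ 3 * c := by ring
    linarith
  have hlog : Real.log u ≤ 3 + 3 * Real.log Q := by
    have h1 := Real.log_le_log hu0 hu8
    rw [Real.log_mul (by norm_num) (by positivity), Real.log_pow] at h1
    have h2 : Real.log 8 ≤ 3 := by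
      have h3 : Real.log 8 = 3 * Real.log 2 := by
        rw [show (8 : ℝ) = 2 ^ 3 by norm_num, Real.log_pow]
        norm_num
      have := Real.log_two_lt_d9
      linarith
    push_cast at h1
    linarith
  have hAd : A d Q ≤ C0 := (A_mono d hQk).trans (hA n d k h (hc.trans hck))
  have hm := m4 d hQ1
  have hM0 : (0 : ℝ) < (M d Q : ℝ) + 3 := by positivity
  have hM : Real.exp (Real.log u / 6 - (C0 + 6) / 2) ≤ (M d Q : ℝ) + 3 := by
    rw [← Real.le_log_iff_exp_le hM0]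
    linarith
  have hS := S_sieve h hc hQ1 hQ2
  rw [← hu] at hS
  refine hS.trans ?_
  have h5 : 135 * u / ((M d Q : ℝ) + 3) ≤ 135 * u / Real.exp (Real.log u / 6 - (C0 + 6) / 2) :=
    div_le_div_of_nonneg_left (by positivity) (Real.exp_pos _) hM
  refine h5.trans (le_of_eq ?_)
  rw [Real.rpow_def_of_pos hu0, div_eq_mul_inv, ← Real.exp_neg]
  have h6 : u = Real.exp (Real.log u) := (Real.exp_log hu0).symm
  calc 135 * u * Real.exp (-(Real.log u / 6 - (C0 + 6) / 2))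
      = 135 * (Real.exp (Real.log u) * Real.exp (-(Real.log u / 6 - (C0 + 6) / 2))) := by
        rw [← h6]; ring
    _ = 135 * Real.exp ((C0 + 6) / 2) * Real.exp (Real.log u * (5 / 6)) := by
        rw [mul_assoc, ← Real.exp_add, ← Real.exp_add]
        congr 2
        ring

end EAP
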