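import Pool.Agent.EAP.C1

/-!
[EAP-C2] the tail.

`pow_sum`: `∑_{1 ≤ c ≤ N} c^(-7/8) ≤ 8 N^(1/8)`: induction, `(N+1)^(1/8) - N^(1/8) ≥ (1/8) (N+1)^(-7/8)`
(concavity; e.g. `Real.rpow_one_add_le_one_add_mul_self` or with `a = N^(1/8)`, `b = (N+1)^(1/8)`:
`b^8 - a^8 = 1` and `b^8 - a^8 ≤ 8 b^7 (b - a)`).
`tail`: by `S_pow` and `log u ≤ 24 u^(1/24)` (`Real.log_le_rpow_div`), `S log u ≤ 24 C u^(7/8)` for
`u = k/c ≥ 1`. For `U ≥ 1` the `c` with `c U < k` satisfy `c ≤ N := k / U` (nat), so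
`∑ ≤ 24 C k^(7/8) ∑_{c ≤ N} c^(-7/8) ≤ 192 C k^(7/8) (k/U)^(1/8) = 192 C k U^(-1/8) ≤ ε k` for `U` large
(`U = ⌈(192 C/ε)^8⌉ + 1`).
-/

set_option autoImplicit false

namespace EAP

open Finset AP4

theorem c2_pow8 {x : ℝ} (hx : 0 ≤ x) : (x ^ ((1 : ℝ) / 8)) ^ 8 = x := by
  rw [← Real.rpow_natCast, ← Real.rpow_mul hx]
  norm_num

theorem c2_step (N : ℕ) : (((N + 1 : ℕ) : ℝ)) ^ (-((7 : ℝ) / 8)) ≤
    8 * (((N + 1 : ℕ) : ℝ) ^ ((1 : ℝ) / 8) - (N : ℝ) ^ ((1 : ℝ) / 8)) := by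
  have hN : (0 : ℝ) ≤ N := Nat.cast_nonneg _
  have hN1 : (0 : ℝ) < ((N + 1 : ℕ) : ℝ) := by positivity
  have ha := c2_pow8 hN
  have hb := c2_pow8 hN1.le
  have ha0 : 0 ≤ (N : ℝ) ^ ((1 : ℝ) / 8) := Real.rpow_nonneg hN _
  have hb0 : 0 < ((N + 1 : ℕ) : ℝ) ^ ((1 : ℝ) / 8) := Real.rpow_pos_of_pos hN1 _
  have hab : (N : ℝ) ^ ((1 : ℝ) / 8) ≤ ((N + 1 : ℕ) : ℝ) ^ ((1 : ℝ) / 8) :=
    Real.rpow_le_rpow hN (by push_cast; linarith) (by norm_num)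
  have h7 : (((N + 1 : ℕ) : ℝ)) ^ (-((7 : ℝ) / 8)) = ((((N + 1 : ℕ) : ℝ) ^ ((1 : ℝ) / 8)) ^ 7)⁻¹ := by
    rw [← Real.rpow_natCast, ← Real.rpow_mul hN1.le, ← Real.rpow_neg hN1.le]
    norm_num
  have hN1' : ((N + 1 : ℕ) : ℝ) = N + 1 := by push_cast; ring
  rw [h7]
  generalize (N : ℝ) ^ ((1 : ℝ) / 8) = a at *
  generalize ((N + 1 : ℕ) : ℝ) ^ ((1 : ℝ) / 8) = b at *
  have h8 : b ^ 8 - a ^ 8 = 1 := by rw [ha, hb, hN1']; ring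
  rw [inv_le_iff_one_le_mul₀ (by positivity), ← h8]
  have e : b ^ 8 - a ^ 8 = (b - a) * (b ^ 7 + b ^ 6 * a + b ^ 5 * a ^ 2 + b ^ 4 * a ^ 3 +
      b ^ 3 * a ^ 4 + b ^ 2 * a ^ 5 + b * a ^ 6 + a ^ 7) := by ring
  rw [e]
  have hk : ∀ i : ℕ, i ≤ 7 → b ^ (7 - i) * a ^ i ≤ b ^ 7 := by
    intro i hi
    calc b ^ (7 - i) * a ^ i ≤ b ^ (7 - i) * b ^ i :=
          mul_le_mul_of_nonneg_left (pow_le_pow_left₀ ha0 hab i) (by positivity)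
      _ = b ^ 7 := by rw [← pow_add]; congr 1; omega
  have k1 := hk 1 (by norm_num)
  have k2 := hk 2 (by norm_num)
  have k3 := hk 3 (by norm_num)
  have k4 := hk 4 (by norm_num)
  have k5 := hk 5 (by norm_num)
  have k6 := hk 6 (by norm_num)
  have k7 := hk 7 (by norm_num)
  norm_num at k1 k2 k3 k4 k5 k6 k7
  have hsum : b ^ 7 + b ^ 6 * a + b ^ 5 * a ^ 2 + b ^ 4 * a ^ 3 +
      b ^ 3 * a ^ 4 + b ^ 2 * a ^ 5 + b * a ^ 6 + a ^ 7 ≤ 8 * b ^ 7 := by linarith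
  calc (b - a) * (b ^ 7 + b ^ 6 * a + b ^ 5 * a ^ 2 + b ^ 4 * a ^ 3 +
      b ^ 3 * a ^ 4 + b ^ 2 * a ^ 5 + b * a ^ 6 + a ^ 7) ≤ (b - a) * (8 * b ^ 7) :=
        mul_le_mul_of_nonneg_left hsum (by linarith)
    _ = 8 * (b - a) * b ^ 7 := by ring

theorem c2_pow_sum (N : ℕ) :
    ∑ c ∈ Icc 1 N, (c : ℝ) ^ (-((7 : ℝ) / 8)) ≤ 8 * (N : ℝ) ^ ((1 : ℝ) / 8) := by
  induction N with
  | zero => simp
  | succ N ih =>
    rw [sum_Icc_succ_top (by omega)]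
    have := c2_step N
    linarith

theorem tail {ε : ℝ} (hε : 0 < ε) : ∃ U : ℕ, 1 ≤ U ∧ ∀ n d k : ℕ, Sol n d k → 1 ≤ k →
    ∑ c ∈ (Icc 1 k).filter (fun c => c * U < k), (S n d k c : ℝ) * Real.log ((k : ℝ) / c) ≤
      ε * k := by
  obtain ⟨C, hC, HS⟩ := S_pow
  set U : ℕ := ⌈(192 * C / ε) ^ 8⌉₊ + 1 with hU
  refine ⟨U, by omega, ?_⟩
  intro n d k hs hk
  have hkr : (0 : ℝ) < k := by exact_mod_cast hk
  have hUr : (0 : ℝ) < (U : ℝ) := by rw [hU]; positivity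
  have hUbig : 192 * C / ε ≤ (U : ℝ) ^ ((1 : ℝ) / 8) := by
    have h0 : 0 ≤ 192 * C / ε := by positivity
    have h1 : (192 * C / ε) ^ 8 ≤ (U : ℝ) := by
      rw [hU]
      push_cast
      have := Nat.le_ceil ((192 * C / ε) ^ 8)
      linarith
    calc 192 * C / ε = ((192 * C / ε) ^ 8) ^ ((1 : ℝ) / 8) := by
          rw [← Real.rpow_natCast, ← Real.rpow_mul h0]
          norm_num
      _ ≤ (U : ℝ) ^ ((1 : ℝ) / 8) := Real.rpow_le_rpow (by positivity) h1 (by norm_num)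
  have hterm : ∀ c ∈ (Icc 1 k).filter (fun c => c * U < k),
      (S n d k c : ℝ) * Real.log ((k : ℝ) / c) ≤
        24 * C * (k : ℝ) ^ ((7 : ℝ) / 8) * (c : ℝ) ^ (-((7 : ℝ) / 8)) := by
    intro c hc
    rw [mem_filter, mem_Icc] at hc
    obtain ⟨⟨hc1, hck⟩, -⟩ := hc
    have hcr : (0 : ℝ) < c := by exact_mod_cast hc1
    set u : ℝ := (k : ℝ) / c with hu
    have hu1 : 1 ≤ u := by
      rw [hu, le_div_iff₀ hcr, one_mul]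
      exact_mod_cast hck
    have hu0 : 0 < u := by linarith
    have h1 := HS n d k c hs hc1 hck
    have h2 : Real.log u ≤ 24 * u ^ ((1 : ℝ) / 24) := by
      have := Real.log_le_rpow_div hu0.le (ε := (1 : ℝ) / 24) (by norm_num)
      calc Real.log u ≤ u ^ ((1 : ℝ) / 24) / ((1 : ℝ) / 24) := this
        _ = 24 * u ^ ((1 : ℝ) / 24) := by ring
    have h3 : 0 ≤ Real.log u := Real.log_nonneg hu1
    calc (S n d k c : ℝ) * Real.log u ≤ (C * u ^ ((5 : ℝ) / 6)) * (24 * u ^ ((1 : ℝ) / 24)) :=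
          mul_le_mul h1 h2 h3 (by positivity)
      _ = 24 * C * (u ^ ((5 : ℝ) / 6) * u ^ ((1 : ℝ) / 24)) := by ring
      _ = 24 * C * u ^ ((7 : ℝ) / 8) := by
          rw [← Real.rpow_add hu0]
          norm_num
      _ = 24 * C * ((k : ℝ) ^ ((7 : ℝ) / 8) * (c : ℝ) ^ (-((7 : ℝ) / 8))) := by
          rw [hu, Real.div_rpow hkr.le hcr.le, Real.rpow_neg hcr.le, div_eq_mul_inv]
      _ = _ := by ring
  have hsub : (Icc 1 k).filter (fun c => c * U < k) ⊆ Icc 1 (k / U) := by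
    intro c hc
    rw [mem_filter, mem_Icc] at hc
    rw [mem_Icc]
    refine ⟨hc.1.1, ?_⟩
    rw [Nat.le_div_iff_mul_le (by omega)]
    exact hc.2.le
  have hN : ((k / U : ℕ) : ℝ) ^ ((1 : ℝ) / 8) ≤ (k : ℝ) ^ ((1 : ℝ) / 8) / (U : ℝ) ^ ((1 : ℝ) / 8) := by
    rw [← Real.div_rpow hkr.le hUr.le]
    exact Real.rpow_le_rpow (Nat.cast_nonneg _) Nat.cast_div_le (by norm_num)
  have hK0 : 0 ≤ 24 * C * (k : ℝ) ^ ((7 : ℝ) / 8) := by positivity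
  calc ∑ c ∈ (Icc 1 k).filter (fun c => c * U < k), (S n d k c : ℝ) * Real.log ((k : ℝ) / c)
      ≤ ∑ c ∈ (Icc 1 k).filter (fun c => c * U < k),
        24 * C * (k : ℝ) ^ ((7 : ℝ) / 8) * (c : ℝ) ^ (-((7 : ℝ) / 8)) := sum_le_sum hterm
    _ ≤ ∑ c ∈ Icc 1 (k / U), 24 * C * (k : ℝ) ^ ((7 : ℝ) / 8) * (c : ℝ) ^ (-((7 : ℝ) / 8)) :=
        sum_le_sum_of_subset_of_nonneg hsub fun c _ _ =>
          mul_nonneg hK0 (Real.rpow_nonneg (Nat.cast_nonneg _) _)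
    _ = 24 * C * (k : ℝ) ^ ((7 : ℝ) / 8) * ∑ c ∈ Icc 1 (k / U), (c : ℝ) ^ (-((7 : ℝ) / 8)) := by
        rw [mul_sum]
    _ ≤ 24 * C * (k : ℝ) ^ ((7 : ℝ) / 8) * (8 * ((k : ℝ) ^ ((1 : ℝ) / 8) / (U : ℝ) ^ ((1 : ℝ) / 8))) := by
        refine mul_le_mul_of_nonneg_left ?_ hK0
        refine le_trans (c2_pow_sum _) ?_
        linarith
    _ = (192 * C / (U : ℝ) ^ ((1 : ℝ) / 8)) * ((k : ℝ) ^ ((7 : ℝ) / 8) * (k : ℝ) ^ ((1 : ℝ) / 8)) := by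
        ring
    _ = (192 * C / (U : ℝ) ^ ((1 : ℝ) / 8)) * k := by
        rw [← Real.rpow_add hkr]
        norm_num
    _ ≤ ε * k := by
        refine mul_le_mul_of_nonneg_right ?_ hkr.le
        have hU8 : 0 < (U : ℝ) ^ ((1 : ℝ) / 8) := Real.rpow_pos_of_pos hUr _
        rw [div_le_iff₀ hU8]
        rw [div_le_iff₀ hε] at hUbig
        linarith

end EAP
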