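import Pool.Agent.MP_c1dca2_ag.SC2.E6
import Pool.Agent.MP_c1dca2_ag.SC2.H3

/-!
[EAP-D1] the naive height on `y² = (x - e 0)(x - e 1)(x - e 2)` over `ℚ`.

`hgt_par`: `SC2.addSub_pt` gives `addSub e (sym2 (xco P) (xco Q)) = c • sym2 (xco (P+Q)) (xco (P-Q))`, `c ≠ 0`;
`Height.logHeight_smul_eq_logHeight`; `Height.abs_logHeight_sym2_sub_le` (twice; `xco` is never `0`:
`WeierstrassCurve.Affine.Point.xRep_ne_zero`; rewrite `sym2 u v` as
`![u 0 * v 0, u 0 * v 1 + u 1 * v 0, u 1 * v 1]` and `u = ![u 0, u 1]`);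
`WeierstrassCurve.abs_logHeight_addSubMap_sub_two_mul_logHeight_le` for `W = EC e` (the instance
`(EC e).IsElliptic` is `⟨(SC2.delta_ne_zero hc).isUnit⟩`; `addSub e v = fun i => eval v (addSubMap (EC e) i)`
by definition).
`hgt_aff`: `SC2.xco_aff`, `Height.logHeight₁_eq_logHeight`.
-/

set_option autoImplicit false

namespace EAP

open SC2

/-- the naive height -/
noncomputable def hgt {e : Fin 3 → ℚ} (P : Pt e) : ℝ := Height.logHeight (xco P)

theorem hgt_nonneg {e : Fin 3 → ℚ} (P : Pt e) : 0 ≤ hgt P := by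
  unfold hgt
  positivity

theorem hgt_aff {e : Fin 3 → ℚ} (hc : Cv e) (x y : ℚ) (h : OnC e x y) :
    hgt (aff hc x y h) = Height.logHeight₁ x := by
  rw [hgt, xco_aff, Height.logHeight₁_eq_logHeight]

theorem d1_vec (u : Fin 2 → ℚ) : ![u 0, u 1] = u := by
  ext i
  fin_cases i <;> rfl

theorem d1_ne {e : Fin 3 → ℚ} (P : Pt e) : xco P ≠ 0 := by
  unfold xco
  exact WeierstrassCurve.Affine.Point.xRep_ne_zero _

theorem d1_sym2 : ∃ C : ℝ, ∀ {e : Fin 3 → ℚ} (P Q : Pt e),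
    |Height.logHeight (sym2 (xco P) (xco Q)) - (hgt P + hgt Q)| ≤ C := by
  obtain ⟨C, h⟩ := Height.abs_logHeight_sym2_sub_le ℚ
  refine ⟨C, fun P Q => ?_⟩
  have h1 := h (a := xco P 0) (b := xco P 1) (c := xco Q 0) (d := xco Q 1)
    (by rw [d1_vec]; exact d1_ne P) (by rw [d1_vec]; exact d1_ne Q)
  rw [d1_vec, d1_vec] at h1
  exact h1

theorem hgt_par {e : Fin 3 → ℚ} (hc : Cv e) :
    ∃ C : ℝ, ∀ P Q : Pt e, |hgt (P + Q) + hgt (P - Q) - 2 * (hgt P + hgt Q)| ≤ C := by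
  have hell : WeierstrassCurve.IsElliptic (EC e) := ⟨(SC2.delta_ne_zero hc).isUnit⟩
  obtain ⟨C₁, h₁⟩ := d1_sym2
  obtain ⟨C₂, h₂⟩ :=
    WeierstrassCurve.abs_logHeight_addSubMap_sub_two_mul_logHeight_le (EC e)
  refine ⟨C₁ + C₂ + 2 * C₁, fun P Q => ?_⟩
  obtain ⟨c, hc0, hcc⟩ := addSub_pt hc P Q
  have h3 := h₁ P Q
  have h4 := h₁ (P + Q) (P - Q)
  have h5 : |Height.logHeight (addSub e (sym2 (xco P) (xco Q))) -
      2 * Height.logHeight (sym2 (xco P) (xco Q))| ≤ C₂ := h₂ _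
  have h6 : addSub e (sym2 (xco P) (xco Q)) = c • sym2 (xco (P + Q)) (xco (P - Q)) := by
    funext i
    exact hcc i
  rw [h6, Height.logHeight_smul_eq_logHeight _ hc0] at h5
  rw [abs_le] at h3 h4 h5 ⊢
  constructor <;> linarith [h3.1, h3.2, h4.1, h4.2, h5.1, h5.2]

end EAP
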