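import Pool.Agent.EAP.D1

/-!
[EAP-D2] Northcott property of the height.

By `SC2.pt_cases` a point is `0` or `aff x y`; `hgt (aff x y) = logHeight₁ x` (`hgt_aff`), so `x` lies in a
finite set (the instance `Northcott (logHeight₁)` for number fields, `Northcott.finite_le`; or
`NumberField.finite_setOfPred_logHeight₁_le`), and `y` is one of at most two square roots of
`(x - e 0)(x - e 1)(x - e 2)`; or use a map with finite fibres: `P ↦ x`, the fibre over `x` has at most two
points since `xco P = xco Q → P = Q ∨ P = -Q`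
(`WeierstrassCurve.Affine.Point.eq_or_eq_neg_of_xRep_eq_xRep`, `neg_aff`).
-/

set_option autoImplicit false

namespace EAP

open SC2

theorem d2_eq {e : Fin 3 → ℚ} {P Q : Pt e} (h : xco P = xco Q) : Q = P ∨ Q = -P :=
  WeierstrassCurve.Affine.Point.eq_or_eq_neg_of_xRep_eq_xRep (W := EC e) h.symm

theorem d2_fibre {e : Fin 3 → ℚ} (u : Fin 2 → ℚ) : {P : Pt e | xco P = u}.Finite := by
  by_cases hne : ∃ P : Pt e, xco P = u
  · obtain ⟨P, hP⟩ := hne
    refine (Set.toFinite ({P, -P} : Set (Pt e))).subset ?_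
    intro Q hQ
    have hQ' : xco Q = u := hQ
    rcases d2_eq (hP.trans hQ'.symm) with h | h
    · exact Or.inl h
    · exact Or.inr h
  · refine Set.finite_empty.subset ?_
    intro Q hQ
    exact hne ⟨Q, hQ⟩

theorem hgt_northcott {e : Fin 3 → ℚ} (hc : Cv e) : Northcott (hgt (e := e)) := by
  refine ⟨fun B => ?_⟩
  have h1 : ({x : ℚ | Height.logHeight₁ x ≤ B}).Finite :=
    NumberField.finite_setOfPred_logHeight₁_le ℚ B
  have h2 : (insert (![1, 0] : Fin 2 → ℚ)
      ((fun x : ℚ => (![x, 1] : Fin 2 → ℚ)) '' {x : ℚ | Height.logHeight₁ x ≤ B})).Finite :=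
    (h1.image _).insert _
  refine (h2.biUnion fun u _ => d2_fibre (e := e) u).subset ?_
  intro P hP
  have hP' : hgt P ≤ B := hP
  rw [Set.mem_iUnion₂]
  rcases pt_cases hc P with rfl | ⟨x, y, h, rfl⟩
  · exact ⟨![1, 0], Set.mem_insert _ _, xco_zero⟩
  · rw [hgt_aff] at hP'
    exact ⟨![x, 1], Set.mem_insert_of_mem _ ⟨x, hP', rfl⟩, xco_aff hc x y h⟩

end EAP
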