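import Mathlib

/-!
[EAP-D3] the square classes of `x - a i` for a rational point with `y ≠ 0`.

For a prime `p` dividing the squarefree part of `x - a i` an odd number of times, compare the `p`-adic
valuations of the three factors: their sum is even, so another factor has odd valuation as well.
-/

set_option autoImplicit false

namespace EAP

theorem d3_sqf (r : ℚ) (hr : r ≠ 0) :
    ∃ (δ : ℤ) (z : ℚ), z ≠ 0 ∧ δ ≠ 0 ∧ Squarefree δ.natAbs ∧ r = δ * z ^ 2 := by
  obtain ⟨m, b, hb, hm⟩ := Nat.sq_mul_squarefree (r.num.natAbs * r.den)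
  have hnum : r.num ≠ 0 := Rat.num_ne_zero.mpr hr
  have hden : (r.den : ℚ) ≠ 0 := by exact_mod_cast r.den_nz
  have hpos : r.num.natAbs * r.den ≠ 0 :=
    mul_ne_zero (Int.natAbs_ne_zero.mpr hnum) r.den_nz
  have hb0 : b ≠ 0 := by
    rintro rfl
    exact hpos (by rw [← hb]; ring)
  have hm0 : m ≠ 0 := by
    rintro rfl
    exact hpos (by rw [← hb]; ring)
  have habs : (r.num.natAbs : ℤ) = r.num.sign * r.num := by
    rw [Int.sign_mul_self_eq_natAbs]
  have hs1 : r.num.sign * r.num.sign = 1 := by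
    rcases lt_trichotomy r.num 0 with h | h | h
    · rw [Int.sign_eq_neg_one_of_neg h]; norm_num
    · exact absurd h hnum
    · rw [Int.sign_eq_one_of_pos h]; norm_num
  have hsn : r.num.sign.natAbs = 1 := by
    have h2 := congrArg Int.natAbs hs1
    rw [Int.natAbs_mul] at h2
    simpa using h2
  refine ⟨r.num.sign * m, b / r.den, ?_, ?_, ?_, ?_⟩
  · exact div_ne_zero (by exact_mod_cast hb0) hden
  · refine mul_ne_zero ?_ (by exact_mod_cast hm0)
    intro h
    rw [h] at hs1
    norm_num at hs1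
  · rw [Int.natAbs_mul, hsn, one_mul, Int.natAbs_natCast]
    exact hm
  · have hb' : ((b : ℤ) ^ 2 * m : ℤ) = r.num.sign * r.num * r.den := by
      have : ((b ^ 2 * m : ℕ) : ℤ) = ((r.num.natAbs * r.den : ℕ) : ℤ) := by rw [hb]
      push_cast at this
      rw [this, ← habs]
      push_cast
      ring
    have hk : ((r.num.sign * m * b ^ 2 : ℤ)) = r.num * r.den := by
      calc r.num.sign * m * b ^ 2 = r.num.sign * ((b : ℤ) ^ 2 * m) := by ring
        _ = (r.num.sign * r.num.sign) * (r.num * r.den) := by rw [hb']; ring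
        _ = r.num * r.den := by rw [hs1, one_mul]
    have hk' : ((r.num.sign : ℚ) * m * b ^ 2) = r.num * r.den := by exact_mod_cast hk
    have hr2 : r = r.num / r.den := (Rat.num_div_den r).symm
    have e1 : r = (r.num * r.den) / (r.den : ℚ) ^ 2 := by
      conv_lhs => rw [hr2]
      field_simp
    conv_lhs => rw [e1]
    rw [← hk']
    push_cast
    field_simp

theorem d3_val_one {p : ℕ} [hp : Fact p.Prime] {δ : ℤ} (hs : Squarefree δ.natAbs) (hd : p ∣ δ.natAbs) :
    padicValRat p (δ : ℚ) = 1 := by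
  rw [padicValRat.of_int, padicValInt]
  have h0 : δ.natAbs ≠ 0 := hs.ne_zero
  have h1 : 1 ≤ padicValNat p δ.natAbs := one_le_padicValNat_of_dvd h0 hd
  have h2 : padicValNat p δ.natAbs ≤ 1 := by
    have := hs.natFactorization_le_one p
    rwa [Nat.factorization_def _ hp.out] at this
  have : padicValNat p δ.natAbs = 1 := le_antisymm h2 h1
  rw [this]
  norm_num

theorem d3_odd {p : ℕ} [hp : Fact p.Prime] {δ : ℤ} {z : ℚ} (hs : Squarefree δ.natAbs)
    (hd : p ∣ δ.natAbs) (hz : z ≠ 0) : Odd (padicValRat p ((δ : ℚ) * z ^ 2)) := by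
  have hδ : (δ : ℚ) ≠ 0 := by
    have : δ.natAbs ≠ 0 := hs.ne_zero
    exact_mod_cast Int.natAbs_ne_zero.mp this
  rw [padicValRat.mul hδ (pow_ne_zero _ hz), padicValRat.pow, d3_val_one hs hd]
  exact ⟨padicValRat p z, by push_cast; ring⟩

/-- shifting by an integer does not change a negative valuation -/
theorem d3_shift {p : ℕ} [hp : Fact p.Prime] {r : ℚ} {n : ℤ} (hr : r ≠ 0) (hn : r + n ≠ 0)
    (h : padicValRat p r < 0) : padicValRat p (r + n) = padicValRat p r := by
  by_cases h0 : n = 0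
  · rw [h0]; simp
  · refine padicValRat.add_eq_of_lt hn hr (by exact_mod_cast h0) (lt_of_lt_of_le h ?_)
    rw [padicValRat.of_int]
    positivity

theorem d3_nonneg {p : ℕ} [hp : Fact p.Prime] {r : ℚ} {n : ℤ} (hr : r ≠ 0) (hn : r + n ≠ 0)
    (h : 0 ≤ padicValRat p r) : 0 ≤ padicValRat p (r + n) := by
  by_contra hc
  push Not at hc
  have h1 := d3_shift (n := -n) hn (by push_cast; simpa using hr) hc
  have e : r + (n : ℚ) + ((-n : ℤ) : ℚ) = r := by push_cast; ring
  rw [e] at h1
  omega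

theorem d3_diff {p : ℕ} [hp : Fact p.Prime] {r s : ℚ} {n : ℤ}
    (he : r - s = n) (h1 : 1 ≤ padicValRat p r) (h2 : 1 ≤ padicValRat p s) : (p : ℤ) ∣ n := by
  by_cases h0 : n = 0
  · rw [h0]; exact dvd_zero _
  · have h3 : r + (-s) ≠ 0 := by
      rw [← sub_eq_add_neg, he]
      exact_mod_cast h0
    have h4 := padicValRat.min_le_padicValRat_add (p := p) h3
    rw [padicValRat.neg, ← sub_eq_add_neg, he, padicValRat.of_int] at h4
    have h5 : (1 : ℤ) ≤ padicValInt p n := le_trans (le_min h1 h2) h4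
    have h6 : padicValInt p n ≠ 0 := by
      intro hc
      rw [hc] at h5
      norm_num at h5
    have h7 : p ∣ n.natAbs := by
      by_contra hc
      apply h6
      rw [padicValInt]
      exact padicValNat.eq_zero_of_not_dvd hc
    exact Int.natCast_dvd.mpr h7

/-- two indices different from `i` -/
theorem d3_third (f : Fin 3 → ℤ) (i : Fin 3) (he : Even (f 0 + f 1 + f 2)) (ho : Odd (f i)) :
    ∃ j, j ≠ i ∧ Odd (f j) := by
  fin_cases i
  · simp only [Fin.zero_eta, Fin.isValue] at ho ⊢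
    by_cases h : Odd (f 1)
    · exact ⟨1, by decide, h⟩
    · refine ⟨2, by decide, ?_⟩
      rw [Int.not_odd_iff_even] at h
      rw [Int.even_add, Int.even_add] at he
      rw [← Int.not_even_iff_odd] at ho ⊢
      tauto
  · simp only [Fin.mk_one, Fin.isValue] at ho ⊢
    by_cases h : Odd (f 0)
    · exact ⟨0, by decide, h⟩
    · refine ⟨2, by decide, ?_⟩
      rw [Int.not_odd_iff_even] at h
      rw [Int.even_add, Int.even_add] at he
      rw [← Int.not_even_iff_odd] at ho ⊢
      tauto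
  · simp only [Fin.reduceFinMk, Fin.isValue] at ho ⊢
    by_cases h : Odd (f 0)
    · exact ⟨0, by decide, h⟩
    · refine ⟨1, by decide, ?_⟩
      rw [Int.not_odd_iff_even] at h
      rw [Int.even_add, Int.even_add] at he
      rw [← Int.not_even_iff_odd] at ho ⊢
      tauto

theorem d3_delta (a : Fin 3 → ℤ) {i j : Fin 3} (hij : j ≠ i) {q : ℤ} (h : q ∣ a j - a i) :
    q ∣ (a 0 - a 1) * (a 1 - a 2) * (a 2 - a 0) := by
  have h' : q ∣ a i - a j := by
    have := dvd_neg.mpr h
    rwa [neg_sub] at this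
  fin_cases i <;> fin_cases j <;> first
    | exact absurd rfl hij
    | exact (Dvd.dvd.mul_right (Dvd.dvd.mul_right h _) _)
    | exact (Dvd.dvd.mul_right (Dvd.dvd.mul_right h' _) _)
    | exact (Dvd.dvd.mul_right (Dvd.dvd.mul_left h _) _)
    | exact (Dvd.dvd.mul_right (Dvd.dvd.mul_left h' _) _)
    | exact (Dvd.dvd.mul_left h _)
    | exact (Dvd.dvd.mul_left h' _)

theorem classes (a : Fin 3 → ℤ) (ha : Function.Injective a) (x y : ℚ) (hy : y ≠ 0)
    (h : y ^ 2 = (x - a 0) * (x - a 1) * (x - a 2)) :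
    ∃ δ : Fin 3 → ℤ, (∀ i, δ i ∣ (a 0 - a 1) * (a 1 - a 2) * (a 2 - a 0)) ∧
      ∀ i, ∃ z : ℚ, z ≠ 0 ∧ δ i ≠ 0 ∧ x - a i = δ i * z ^ 2 := by
  have hy2 : (x - a 0) * (x - a 1) * (x - a 2) ≠ 0 := by
    rw [← h]; exact pow_ne_zero _ hy
  have hne : ∀ i, x - a i ≠ 0 := by
    intro i
    fin_cases i
    · exact left_ne_zero_of_mul (left_ne_zero_of_mul hy2)
    · exact right_ne_zero_of_mul (left_ne_zero_of_mul hy2)
    · exact right_ne_zero_of_mul hy2
  choose δ z hz hδ hs he using fun i => d3_sqf (x - a i) (hne i)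
  refine ⟨δ, ?_, fun i => ⟨z i, hz i, hδ i, he i⟩⟩
  intro i
  set Δ : ℤ := (a 0 - a 1) * (a 1 - a 2) * (a 2 - a 0) with hΔ
  have hΔ0 : Δ ≠ 0 := by
    have h01 : a 0 - a 1 ≠ 0 := sub_ne_zero.mpr (fun e => absurd (ha e) (by decide))
    have h12 : a 1 - a 2 ≠ 0 := sub_ne_zero.mpr (fun e => absurd (ha e) (by decide))
    have h20 : a 2 - a 0 ≠ 0 := sub_ne_zero.mpr (fun e => absurd (ha e) (by decide))
    exact mul_ne_zero (mul_ne_zero h01 h12) h20
  have key : ∀ p : ℕ, p.Prime → p ∣ (δ i).natAbs → p ∣ Δ.natAbs := by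
    intro p hp hpd
    have : Fact p.Prime := ⟨hp⟩
    have hodd : Odd (padicValRat p (x - a i)) := by
      rw [he i]
      exact d3_odd (hs i) hpd (hz i)
    have hsum : Even (padicValRat p (x - a 0) + padicValRat p (x - a 1) + padicValRat p (x - a 2)) := by
      rw [← padicValRat.mul (hne 0) (hne 1), ← padicValRat.mul (mul_ne_zero (hne 0) (hne 1)) (hne 2),
        ← h, padicValRat.pow]
      exact ⟨padicValRat p y, by push_cast; ring⟩
    have hsh : ∀ j k, x - a k = (x - a j) + ((a j - a k : ℤ) : ℚ) := by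
      intro j k
      push_cast
      ring
    have hnn : 0 ≤ padicValRat p (x - a i) := by
      by_contra hc
      push Not at hc
      have hall : ∀ k, padicValRat p (x - a k) = padicValRat p (x - a i) := by
        intro k
        rw [hsh i k]
        refine d3_shift (hne i) ?_ hc
        rw [← hsh i k]
        exact hne k
      rw [hall 0, hall 1, hall 2] at hsum
      obtain ⟨u, hu⟩ := hodd
      obtain ⟨w, hw⟩ := hsum
      omega
    have hnn' : ∀ k, 0 ≤ padicValRat p (x - a k) := by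
      intro k
      rw [hsh i k]
      refine d3_nonneg (hne i) ?_ hnn
      rw [← hsh i k]
      exact hne k
    obtain ⟨j, hj, hjo⟩ := d3_third (fun k => padicValRat p (x - a k)) i hsum hodd
    have h1 : 1 ≤ padicValRat p (x - a i) := by
      obtain ⟨u, hu⟩ := hodd
      omega
    have h2 : 1 ≤ padicValRat p (x - a j) := by
      have h3 := hnn' j
      obtain ⟨u, hu⟩ := hjo
      omega
    have h4 : (p : ℤ) ∣ a j - a i :=
      d3_diff (by push_cast; ring) h1 h2
    have h5 : (p : ℤ) ∣ Δ := d3_delta a hj h4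
    exact Int.natCast_dvd.mp h5
  have hsub : (δ i).natAbs.primeFactors ⊆ Δ.natAbs.primeFactors := by
    intro p hp
    have hp1 := Nat.prime_of_mem_primeFactors hp
    exact Nat.mem_primeFactors.mpr
      ⟨hp1, key p hp1 (Nat.dvd_of_mem_primeFactors hp), Int.natAbs_ne_zero.mpr hΔ0⟩
  have hdvd : (δ i).natAbs ∣ Δ.natAbs := by
    rw [← Nat.prod_primeFactors_of_squarefree (hs i)]
    exact (Finset.prod_dvd_prod_of_subset _ _ _ hsub).trans (Nat.prod_primeFactors_dvd _)
  exact Int.natAbs_dvd_natAbs.mp hdvd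

end EAP
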