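import Pool.Agent.MP_c1dca2_ag.SC2.E2

/-!
[EAP-D4] two points in the same square classes differ by a double.

Let `P = aff x y`, `P' = aff x' y'`. If `x = x'` then `y² = y'²`, so `P' = P` (then `P - P' = 0 = 0 + 0`) or
`P' = -P` (`neg_aff`, then `P - P' = P + P`). If `x ≠ x'`: let `l = (y - y')/(x - x')`,
`x₃ = l² + Σ e - x - x'`, `y₃ = -(y + l (x₃ - x))`; `add_aff_of_ne` gives `P + P' = aff x₃ y₃`. With
`L i = y + l (e i - x)` (the value of the line at `e i`):
`(x - e i)(x' - e i)(x₃ - e i) = (L i)²` (the cubic minus the square of the line is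
`(t - x)(t - x')(t - x₃)`; check with `field_simp`/`linear_combination` after multiplying by `(x - x')²`,
using both curve equations; the identity only needs `l (x - x') = y - y'`). So `α i := L i / s i` has
`(α i)² = x₃ - e i`. `(α 0 α 1 α 2)² = y₃²`, so `α 0 α 1 α 2 = ± y₃`; if the sign is `-`, replace `α 0` by `-α 0`.
`halve` gives `R` with `R + R = P + P'`, so `P - P' = (R + R) - (P' + P') = (R - P') + (R - P')`.
-/

set_option autoImplicit false

namespace EAP

open SC2

theorem d4_line {F : Type} [Field F] {a b c x y x' y' l x₃ : F} (hx : x - x' ≠ 0)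
    (h : y ^ 2 = (x - a) * (x - b) * (x - c)) (h' : y' ^ 2 = (x' - a) * (x' - b) * (x' - c))
    (hl : l * (x - x') = y - y') (hx3 : x₃ = l ^ 2 + (a + b + c) - x - x') :
    (y + l * (a - x)) ^ 2 = (x - a) * (x' - a) * (x₃ - a) := by
  apply mul_left_cancel₀ hx
  subst hx3
  linear_combination (a - x') * h - (a - x) * h' + (a - x) * (y + l * (x' - x) + y') * hl

theorem d4_sq {F : Type} [Field F] {u v w s L : F} (hs : s ≠ 0) (h1 : u * v = s ^ 2)
    (h2 : L ^ 2 = u * v * w) : (L / s) ^ 2 = w := by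
  rw [div_pow, h2, h1, mul_div_assoc, mul_comm, div_mul_cancel₀]
  exact pow_ne_zero 2 hs

theorem d4_halve {F : Type} [Field F] {e : Fin 3 → F} (hc : Cv e) (X Y : F) (h : OnC e X Y)
    (a b c : F) (ha : a ^ 2 = X - e 0) (hb : b ^ 2 = X - e 1) (hcc : c ^ 2 = X - e 2) :
    ∃ R : Pt e, R + R = aff hc X Y h := by
  have h1 : (a * b * c - Y) * (a * b * c + Y) = 0 := by
    have h2 := h
    rw [OnC, ← ha, ← hb, ← hcc] at h2
    linear_combination -h2
  rcases mul_eq_zero.1 h1 with h3 | h3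
  · obtain ⟨h', h4⟩ := halve hc X Y h a b c ha hb hcc (sub_eq_zero.1 h3)
    exact ⟨_, h4⟩
  · obtain ⟨h', h4⟩ := halve hc X Y h a b (-c) ha hb (by rw [neg_sq]; exact hcc)
      (by linear_combination -h3)
    exact ⟨_, h4⟩

theorem sub_double {F : Type} [Field F] {e : Fin 3 → F} (hc : Cv e) {x y x' y' : F}
    (h : OnC e x y) (h' : OnC e x' y') (s : Fin 3 → F) (hs0 : ∀ i, s i ≠ 0)
    (hs : ∀ i, (x - e i) * (x' - e i) = s i ^ 2) :
    ∃ R : Pt e, aff hc x y h - aff hc x' y' h' = R + R := by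
  by_cases hx : x = x'
  · subst hx
    have h1 : (y - y') * (y + y') = 0 := by
      have h2 := h
      have h3 := h'
      rw [OnC] at h2 h3
      linear_combination h2 - h3
    rcases mul_eq_zero.1 h1 with h2 | h2
    · have h3 : y = y' := sub_eq_zero.1 h2
      subst h3
      exact ⟨0, by rw [sub_self, add_zero]⟩
    · have h3 : y' = -y := by linear_combination h2
      subst h3
      refine ⟨aff hc x y h, ?_⟩
      have h4 : aff hc x (-y) h' = -aff hc x y h := (neg_aff hc x y h).symm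
      rw [h4, sub_neg_eq_add]
  · have hx' : x - x' ≠ 0 := sub_ne_zero.2 hx
    obtain ⟨l, hl⟩ : ∃ l : F, l * (x - x') = y - y' := ⟨(y - y') / (x - x'), div_mul_cancel₀ _ hx'⟩
    obtain ⟨x₃, hx3⟩ : ∃ x₃ : F, x₃ = l ^ 2 + (e 0 + e 1 + e 2) - x - x' := ⟨_, rfl⟩
    obtain ⟨h3, h4⟩ := add_aff_of_ne hc x y h x' y' h' hx l x₃ (-(y + l * (x₃ - x))) hl hx3 rfl
    have H := h
    have H' := h'
    rw [OnC] at H H'
    have a0 := d4_line hx' H H' hl hx3
    have a1 := d4_line (a := e 1) (b := e 2) (c := e 0) (x₃ := x₃) hx'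
      (by rw [H]; ring) (by rw [H']; ring) hl (by rw [hx3]; ring)
    have a2 := d4_line (a := e 2) (b := e 0) (c := e 1) (x₃ := x₃) hx'
      (by rw [H]; ring) (by rw [H']; ring) hl (by rw [hx3]; ring)
    obtain ⟨R, hR⟩ := d4_halve hc x₃ _ h3 _ _ _ (d4_sq (hs0 0) (hs 0) a0) (d4_sq (hs0 1) (hs 1) a1)
      (d4_sq (hs0 2) (hs 2) a2)
    refine ⟨R - aff hc x' y' h', ?_⟩
    have h5 : R + R = aff hc x y h + aff hc x' y' h' := hR.trans h4.symm
    have h6 : (R - aff hc x' y' h') + (R - aff hc x' y' h')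
        = (R + R) - (aff hc x' y' h' + aff hc x' y' h') := by abel
    rw [h6, h5]
    abel

end EAP
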