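import Pool.Agent.EAP.D2
import Pool.Agent.EAP.D3
import Pool.Agent.EAP.D4
import Pool.Agent.MP_c1dca2_ag.SC2.E5

/-!
[EAP-D5] Mordell's theorem for `y² = (x - a 0)(x - a 1)(x - a 2)`, `a i` distinct integers, over `ℚ`.

`AddCommGroup.fg_of_descent'` (`Mathlib/GroupTheory/Descent.lean`) with `h = hgt`, `hgt_nonneg`, `hgt_par`,
`hgt_northcott`. It remains to see that the range `H` of `x ↦ 2 • x` has finite index.
Let `Δ = (a 0 - a 1)(a 1 - a 2)(a 2 - a 0) ≠ 0`. Each point gets a label in a finite type: `0` and the three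
points `(a i, 0)` get their own labels, a point `(x, y)` with `y ≠ 0` gets a `δ` from `classes`. Two points
with the same label differ by a double (`sub_double`).
-/

set_option autoImplicit false

namespace EAP

open SC2

theorem cv_int {a : Fin 3 → ℤ} (ha : Function.Injective a) : Cv (fun i => (a i : ℚ)) where
  two := by norm_num
  inj := fun i j h => ha (Int.cast_injective (α := ℚ) h)

theorem d5_fin {G : Type} [AddCommGroup G] (H : AddSubgroup G) {T : Type} [Finite T] (cl : G → T)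
    (h : ∀ P P' : G, cl P = cl P' → P - P' ∈ H) : H.FiniteIndex := by
  have : Finite (G ⧸ H) := by
    refine Finite.of_injective (fun q : G ⧸ H => cl (Quotient.out q)) ?_
    intro q q' hq
    have h1 := h _ _ hq.symm
    rw [← Quotient.out_eq q, ← Quotient.out_eq q']
    refine QuotientAddGroup.eq.mpr ?_
    rw [neg_add_eq_sub]
    exact h1
  exact AddSubgroup.finiteIndex_of_finite_quotient

/-- the discriminant -/
def d5_D (a : Fin 3 → ℤ) : ℤ := (a 0 - a 1) * (a 1 - a 2) * (a 2 - a 0)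

/-- the type of labels -/
abbrev d5_T (a : Fin 3 → ℤ) : Type :=
  Option (Fin 3) ⊕ (Fin 3 → Set.Icc (-|d5_D a|) |d5_D a|)

/-- the point `P` has label `t` -/
def d5_R (a : Fin 3 → ℤ) (hc : Cv (fun i => (a i : ℚ))) (P : Pt (fun i => (a i : ℚ))) :
    d5_T a → Prop
  | Sum.inl none => P = 0
  | Sum.inl (some i) => ∃ h : OnC (fun i => (a i : ℚ)) (a i) 0, P = aff hc (a i) 0 h
  | Sum.inr δ => ∃ (x y : ℚ) (h : OnC (fun i => (a i : ℚ)) x y), P = aff hc x y h ∧
      ∀ i, ∃ z : ℚ, z ≠ 0 ∧ ((δ i : ℤ) : ℚ) ≠ 0 ∧ x - a i = ((δ i : ℤ) : ℚ) * z ^ 2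

theorem d5_ne {a : Fin 3 → ℤ} (ha : Function.Injective a) : d5_D a ≠ 0 := by
  have h01 : a 0 - a 1 ≠ 0 := sub_ne_zero.mpr (fun e => absurd (ha e) (by decide))
  have h12 : a 1 - a 2 ≠ 0 := sub_ne_zero.mpr (fun e => absurd (ha e) (by decide))
  have h20 : a 2 - a 0 ≠ 0 := sub_ne_zero.mpr (fun e => absurd (ha e) (by decide))
  exact mul_ne_zero (mul_ne_zero h01 h12) h20

theorem d5_lab {a : Fin 3 → ℤ} (ha : Function.Injective a) (hc : Cv (fun i => (a i : ℚ)))
    (P : Pt (fun i => (a i : ℚ))) : ∃ t : d5_T a, d5_R a hc P t := by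
  rcases pt_cases hc P with h0 | ⟨x, y, h, rfl⟩
  · exact ⟨Sum.inl none, h0⟩
  · by_cases hy : y = 0
    · subst hy
      have h2 : aff hc x 0 h + aff hc x 0 h = 0 := (aff_two_zero hc x 0 h).mpr rfl
      rcases two_torsion hc _ h2 with h3 | ⟨i, h', h3⟩
      · exact absurd h3 (aff_ne_zero hc x 0 h)
      · exact ⟨Sum.inl (some i), h', h3⟩
    · obtain ⟨δ, hδ, hz⟩ := classes a ha x y hy h
      have hb : ∀ i, δ i ∈ Set.Icc (-|d5_D a|) |d5_D a| := by
        intro i
        have h1 : |δ i| ≤ |d5_D a| := by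
          refine Int.le_of_dvd (abs_pos.mpr (d5_ne ha)) ?_
          rw [abs_dvd_abs]
          exact hδ i
        exact Set.mem_Icc.mpr (abs_le.mp h1)
      refine ⟨Sum.inr (fun i => ⟨δ i, hb i⟩), x, y, h, rfl, fun i => ?_⟩
      obtain ⟨z, hz0, hd, he⟩ := hz i
      exact ⟨z, hz0, by exact_mod_cast hd, he⟩

theorem d5_same {a : Fin 3 → ℤ} (hc : Cv (fun i => (a i : ℚ)))
    (P P' : Pt (fun i => (a i : ℚ))) (t : d5_T a) (h : d5_R a hc P t) (h' : d5_R a hc P' t) :
    ∃ R : Pt (fun i => (a i : ℚ)), P - P' = R + R := by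
  match t, h, h' with
  | Sum.inl none, h, h' =>
    have h1 : P = 0 := h
    have h2 : P' = 0 := h'
    exact ⟨0, by rw [h1, h2, sub_zero, add_zero]⟩
  | Sum.inl (some i), h, h' =>
    obtain ⟨g, hg⟩ := h
    obtain ⟨g', hg'⟩ := h'
    exact ⟨0, by rw [hg, hg', sub_self, add_zero]⟩
  | Sum.inr δ, h, h' =>
    obtain ⟨x, y, g, hg, hz⟩ := h
    obtain ⟨x', y', g', hg', hz'⟩ := h'
    choose z hz0 hd he using hz
    choose z' hz0' hd' he' using hz'
    rw [hg, hg']
    refine sub_double hc g g' (fun i => ((δ i : ℤ) : ℚ) * z i * z' i) ?_ ?_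
    · intro i
      exact mul_ne_zero (mul_ne_zero (hd i) (hz0 i)) (hz0' i)
    · intro i
      show (x - (a i : ℚ)) * (x' - (a i : ℚ)) = _
      rw [he i, he' i]
      ring

theorem fg_pt {a : Fin 3 → ℤ} (ha : Function.Injective a) :
    AddGroup.FG (Pt (fun i => (a i : ℚ))) := by
  have hc := cv_int ha
  obtain ⟨C, hC⟩ := hgt_par hc
  have hN : Northcott (hgt (e := fun i => (a i : ℚ))) := hgt_northcott hc
  refine AddCommGroup.fg_of_descent' (h := hgt) (C := C) ?_ hgt_nonneg hC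
  choose cl hcl using d5_lab ha hc
  refine d5_fin _ cl (fun P P' hPP => ?_)
  obtain ⟨R, hR⟩ := d5_same hc P P' (cl P) (hcl P) (by rw [hPP]; exact hcl P')
  rw [hR]
  exact ⟨R, by rw [nsmulAddMonoidHom_apply, two_nsmul]⟩

end EAP
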