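import Pool.Agent.AP4.N10

/-!
# [EAP] MP_651b89_nt: definitions

The analytic and combinatorial part. `AP4.Sol n d k` says that all terms `n + i d`, `i < k`, of a
coprime progression have even `p`-adic valuation for all primes `p > k`;
`AP4.sp k m = ∏_{p ≤ k} p ^ (v_p m mod 2)`; `AP4.S n d k c = #{i < k : sp k (n + i d) = c}`.
-/

set_option autoImplicit false

namespace EAP

open Finset AP4

/-- the indices `i < k` with `sp k (n + i d) = c` (`AP4.S n d k c` is its cardinality) -/
def F (n d k c : ℕ) : Finset ℕ := (range k).filter (fun i => sp k (n + i * d) = c)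

/-- those with `4 ∤ n + i d` -/
def Fo (n d k c : ℕ) : Finset ℕ := (F n d k c).filter (fun i => ¬ 4 ∣ n + i * d)

/-- those with `4 ∣ n + i d` -/
def Fe (n d k c : ℕ) : Finset ℕ := (F n d k c).filter (fun i => 4 ∣ n + i * d)

/-- the number of `i < k` with `v_p (n + i d)` odd -/
def Np (n d k p : ℕ) : ℕ := ((range k).filter (fun i => Odd ((n + i * d).factorization p))).card

/-- the product of the terms `n + i d`, `i < k`, is a square times an integer with all prime
factors `≤ β` -/
structure Eqn (n d k β : ℕ) : Prop extends Sol n d k where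
  ev2 : ∀ p : ℕ, p.Prime → β < p → Even (∑ i ∈ range k, (n + i * d).factorization p)

/-- the gain from the primes `≤ w` -/
noncomputable def sav (w d : ℕ) : ℝ :=
  ∑ p ∈ Nat.primesLE w, (if p ∣ d then Real.log p / ((p : ℝ) - 1)
    else 2 * Real.log p / ((p : ℝ) ^ 2 - 1))

/-- the value of the linear program for one class, `u = k / c` -/
noncomputable def fu (u : ℝ) : ℝ :=
  Real.log u + max (Real.log u - 1) 0 + (if 4 ≤ u then Real.log u - 1 else 0)
    + (if 8 ≤ u then 1 else 0) + (if 16 ≤ u then 1 else 0)

/-- the main sum -/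
noncomputable def Lam (n d k : ℕ) : ℝ :=
  ∑ c ∈ cop d k, (S n d k c : ℝ) * Real.log ((k : ℝ) / c)

end EAP
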