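import Pool.Agent.EAP.B1
import Pool.Agent.EAP.B6
import Pool.Agent.EAP.C2

/-!
[EAP-E1] `n` large compared with `k`, `d` bounded.

`single`: let `i > j` be in `F n d k c`, `n + i d = c x²`, `n + j d = c z²`, `x > z`. Then
`k D > (i - j) d = c (x² - z²) ≥ c (2 z + 1) > 2 c z`, so `k² D² > 4 c² z² = 4 c (n + j d) ≥ 4 c n`.
But `4 c n ≥ 4 c U D² k ≥ 4 D² k²` (`c U ≥ k`), contradiction.
`Lam_far`: split `Lam` as in U1: `c U < k`: `≤ ε k`; else `S ≤ 1` and
`∑_{c ≤ k} log (k/c) ≤ k` (`log_sum` with `x = k`).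
-/

set_option autoImplicit false

namespace EAP

open Finset AP4

theorem single {n d k c U D : ℕ} (h : Sol n d k) (hd : d ≤ D) (hc : 1 ≤ c) (hU : k ≤ c * U)
    (hn : U * D ^ 2 * k ≤ n) : S n d k c ≤ 1 := by
  unfold S
  rw [Finset.card_le_one]
  -- it is enough to exclude j < i
  have key : ∀ i j : ℕ, i < k → j < i → sp k (n + i * d) = c → sp k (n + j * d) = c → False := by
    intro i j hi hji si sj
    obtain ⟨x, hx, hxe⟩ := sp_mul_sq h hi
    obtain ⟨z, hz, hze⟩ := sp_mul_sq h (hji.trans hi)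
    rw [si] at hxe
    rw [sj] at hze
    have hd0 := h.d0
    have h1 : c * x ^ 2 = c * z ^ 2 + (i - j) * d := by
      obtain ⟨t, rfl⟩ := Nat.exists_eq_add_of_lt hji
      rw [← hxe, ← hze]
      have : j + t + 1 - j = t + 1 := by omega
      rw [this]; ring
    have hpos : 0 < (i - j) * d := Nat.mul_pos (by omega) hd0
    have h2 : z < x := by
      have : c * z ^ 2 < c * x ^ 2 := by omega
      have h3 : z ^ 2 < x ^ 2 := lt_of_mul_lt_mul_left this (Nat.zero_le _)
      exact lt_of_pow_lt_pow_left₀ 2 (Nat.zero_le _) h3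
    have h3 : z ^ 2 + 2 * z + 1 ≤ x ^ 2 := by nlinarith
    have h4 : c * (z ^ 2 + 2 * z + 1) ≤ c * x ^ 2 := Nat.mul_le_mul_left _ h3
    have h5 : 2 * (c * z) < (i - j) * d := by nlinarith
    have h6 : (i - j) * d ≤ k * D := Nat.mul_le_mul (by omega) hd
    have h7 : 2 * (c * z) < k * D := lt_of_lt_of_le h5 h6
    have h8 : (2 * (c * z)) * (2 * (c * z)) < (k * D) * (k * D) := by
      exact Nat.mul_lt_mul'' h7 h7
    have h9 : (2 * (c * z)) * (2 * (c * z)) = 4 * c * (n + j * d) := by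
      rw [hze]; ring
    have h10 : 4 * c * (U * D ^ 2 * k) ≤ 4 * c * (n + j * d) :=
      Nat.mul_le_mul_left _ (hn.trans (Nat.le_add_right _ _))
    have h11 : k * (4 * D ^ 2 * k) ≤ (c * U) * (4 * D ^ 2 * k) := Nat.mul_le_mul_right _ hU
    nlinarith
  intro a ha b hb
  rw [mem_filter, mem_range] at ha hb
  rcases lt_trichotomy a b with hlt | heq | hgt
  · exact (key b a hb.1 hlt hb.2 ha.2).elim
  · exact heq
  · exact (key a b ha.1 hgt ha.2 hb.2).elim

theorem Lam_far {ε : ℝ} (hε : 0 < ε) (D : ℕ) : ∃ U : ℕ, ∀ n d k : ℕ, Sol n d k → 1 ≤ k → d ≤ D →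
    U * D ^ 2 * k ≤ n → Lam n d k ≤ (1 + ε) * k := by
  obtain ⟨U, _, hU⟩ := tail hε
  refine ⟨U, fun n d k h hk hd hn => ?_⟩
  have h1 := hU n d k h hk
  have hlog : ∀ c ∈ Icc 1 k, 0 ≤ Real.log ((k : ℝ) / c) := by
    intro c hc
    rw [mem_Icc] at hc
    apply Real.log_nonneg
    rw [le_div_iff₀ (by exact_mod_cast hc.1)]
    rw [one_mul]; exact_mod_cast hc.2
  have h2 : Lam n d k ≤ ∑ c ∈ Icc 1 k, (S n d k c : ℝ) * Real.log ((k : ℝ) / c) := by
    unfold Lam
    apply Finset.sum_le_sum_of_subset_of_nonneg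
    · exact Finset.filter_subset _ _
    · intro c hc _
      exact mul_nonneg (Nat.cast_nonneg _) (hlog c hc)
  have h3 : ∑ c ∈ Icc 1 k, (S n d k c : ℝ) * Real.log ((k : ℝ) / c) =
      ∑ c ∈ (Icc 1 k).filter (fun c => c * U < k), (S n d k c : ℝ) * Real.log ((k : ℝ) / c) +
      ∑ c ∈ (Icc 1 k).filter (fun c => ¬ c * U < k), (S n d k c : ℝ) * Real.log ((k : ℝ) / c) :=
    (Finset.sum_filter_add_sum_filter_not _ _ _).symm
  have h4 : ∑ c ∈ (Icc 1 k).filter (fun c => ¬ c * U < k),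
      (S n d k c : ℝ) * Real.log ((k : ℝ) / c) ≤ ∑ c ∈ Icc 1 k, Real.log ((k : ℝ) / c) := by
    calc _ ≤ ∑ c ∈ (Icc 1 k).filter (fun c => ¬ c * U < k), Real.log ((k : ℝ) / c) := by
          apply Finset.sum_le_sum
          intro c hc
          rw [mem_filter] at hc
          have hs := single h hd (mem_Icc.1 hc.1).1 (not_lt.1 hc.2) hn
          have hs' : (S n d k c : ℝ) ≤ 1 := by exact_mod_cast hs
          have := mul_le_mul_of_nonneg_right hs' (hlog c hc.1)
          rwa [one_mul] at this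
      _ ≤ _ := by
          apply Finset.sum_le_sum_of_subset_of_nonneg
          · exact Finset.filter_subset _ _
          · intro c hc _
            exact hlog c hc
  have h5 := log_sum (x := (k : ℝ)) (Nat.cast_nonneg _)
  rw [Nat.floor_natCast] at h5
  linarith

end EAP
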