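import Pool.Agent.EAP.Defs

/-!
[EAP-E2] the square parts of the terms.

`log (n + i d) - log (sp k (n + i d)) = log x² = 2 log x` with `n + i d = s x²`, `s = sp ..`
(`AP4.sp_mul_sq`), and `log x = ∑_{m ∣ x} Λ(m)` (`ArithmeticFunction.vonMangoldt_sum`). If `m ∣ x` then
`m² ∣ n + i d`, `gcd (m, d) = 1` (`AP4.coprime_term`) and `m ≤ X := Nat.sqrt (n + k d)`. So
`2 ∑_{i<k} log x_i ≤ 2 ∑_{m ≤ X, gcd (m,d) = 1} Λ(m) #{i < k : m² ∣ n + i d}
≤ 2 ∑_{m ≤ X, gcd (m, d) = 1} Λ(m) (k/m² + 1) ≤ 2 k ∑ Λ(m)/m² + 2 ψ(X)`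
(the `i < k` with `m² ∣ n + i d` lie in one residue class mod `m²`, as in `AP4.n2_count`), and
`ψ(X) ≤ (log 4 + 4) X` (`Chebyshev.psi_le_const_mul_self`, see its use in `AP4/N6.lean`),
`X ≤ √(n + k d)` (`Real.nat_sqrt_le_real_sqrt`).
-/

set_option autoImplicit false

namespace EAP

open Finset AP4

theorem e2_count {n d k q : ℕ} (hqd : Nat.Coprime q d) :
    ((range k).filter (fun i => q ∣ n + i * d)).card ≤ k / q + 1 := by
  have h := Finset.card_le_card_of_injOn (s := (range k).filter (fun i => q ∣ n + i * d))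
    (t := range (k / q + 1)) (fun i => i / q) ?_ ?_
  · rwa [Finset.card_range] at h
  · intro i hi
    rw [Finset.mem_coe, Finset.mem_filter, Finset.mem_range] at hi
    rw [Finset.mem_coe, Finset.mem_range]
    exact Nat.lt_succ_of_le (Nat.div_le_div_right hi.1.le)
  · intro i hi j hj hij
    rw [Finset.mem_coe, Finset.mem_filter] at hi hj
    simp only at hij
    have h1 : (n + i * d) ≡ (n + j * d) [MOD q] :=
      ((Nat.modEq_zero_iff_dvd).2 hi.2).trans ((Nat.modEq_zero_iff_dvd).2 hj.2).symm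
    have h2 : i * d ≡ j * d [MOD q] := Nat.ModEq.add_left_cancel' n h1
    have h3 : i ≡ j [MOD q] := Nat.ModEq.cancel_right_of_coprime hqd h2
    have h4 : i % q = j % q := h3
    rw [← Nat.div_add_mod i q, ← Nat.div_add_mod j q, h4, hij]

theorem e2_term {n d k i : ℕ} (h : Sol n d k) (hi : i < k) :
    Real.log ((n : ℝ) + i * d) - Real.log (sp k (n + i * d)) ≤
      2 * ∑ m ∈ (Icc 1 (Nat.sqrt (n + k * d))).filter (fun m => Nat.Coprime m d),
        (if m ^ 2 ∣ n + i * d then ArithmeticFunction.vonMangoldt m else 0) := by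
  obtain ⟨x, hx0, hx⟩ := sp_mul_sq h hi
  have hs0 := sp_pos k (n + i * d)
  have h1 : Real.log ((n : ℝ) + i * d) =
      Real.log (sp k (n + i * d)) + 2 * Real.log x := by
    have e1 : ((n : ℝ) + i * d) = (sp k (n + i * d) : ℝ) * (x : ℝ) ^ 2 := by
      exact_mod_cast congrArg (Nat.cast : ℕ → ℝ) hx
    have hsR : (sp k (n + i * d) : ℝ) ≠ 0 := by exact_mod_cast hs0.ne'
    have hxR : (x : ℝ) ≠ 0 := by exact_mod_cast hx0.ne'
    rw [e1, Real.log_mul hsR (pow_ne_zero 2 hxR), Real.log_pow]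
    norm_num
  have hdvd : x ^ 2 ∣ n + i * d := Dvd.intro_left _ hx.symm
  have hle : x ≤ Nat.sqrt (n + k * d) := by
    rw [Nat.le_sqrt']
    refine (Nat.le_of_dvd (by have := h.n0; omega) hdvd).trans ?_
    exact Nat.add_le_add_left (Nat.mul_le_mul_right d hi.le) n
  have hcop : Nat.Coprime x d :=
    Nat.Coprime.coprime_dvd_left ((dvd_pow_self x two_ne_zero).trans hdvd)
      (coprime_term h.cop i)
  have h2 : Real.log x ≤ ∑ m ∈ (Icc 1 (Nat.sqrt (n + k * d))).filter (fun m => Nat.Coprime m d),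
        (if m ^ 2 ∣ n + i * d then ArithmeticFunction.vonMangoldt m else 0) := by
    rw [← ArithmeticFunction.vonMangoldt_sum, ← Finset.sum_filter]
    refine Finset.sum_le_sum_of_subset_of_nonneg ?_
      fun _ _ _ => ArithmeticFunction.vonMangoldt_nonneg
    intro m hm
    have hmx := (Nat.mem_divisors.1 hm).1
    have hm0 : 0 < m := Nat.pos_of_dvd_of_pos hmx hx0
    rw [Finset.mem_filter, Finset.mem_filter, Finset.mem_Icc]
    exact ⟨⟨⟨hm0, (Nat.le_of_dvd hx0 hmx).trans hle⟩, Nat.Coprime.coprime_dvd_left hmx hcop⟩,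
      (pow_dvd_pow_of_dvd hmx 2).trans hdvd⟩
  rw [h1]
  linarith


theorem square_part : ∃ C : ℝ, 0 ≤ C ∧ ∀ n d k : ℕ, Sol n d k → 1 ≤ k →
    ∑ i ∈ range k, Real.log ((n : ℝ) + i * d) - ∑ i ∈ range k, Real.log (sp k (n + i * d)) ≤
      2 * k * (∑ m ∈ (Icc 1 (Nat.sqrt (n + k * d))).filter (fun m => Nat.Coprime m d),
        ArithmeticFunction.vonMangoldt m / (m : ℝ) ^ 2) + C * Real.sqrt ((n : ℝ) + k * d) := by
  refine ⟨2 * (Real.log 4 + 4), by positivity, ?_⟩
  intro n d k h hk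
  set X := Nat.sqrt (n + k * d) with hX
  set T := (Icc 1 X).filter (fun m => Nat.Coprime m d) with hT
  have h1 : ∑ i ∈ range k, Real.log ((n : ℝ) + i * d) -
      ∑ i ∈ range k, Real.log (sp k (n + i * d)) ≤
      ∑ i ∈ range k, 2 * ∑ m ∈ T,
        (if m ^ 2 ∣ n + i * d then ArithmeticFunction.vonMangoldt m else 0) := by
    rw [← Finset.sum_sub_distrib]
    exact Finset.sum_le_sum fun i hi => e2_term h (Finset.mem_range.1 hi)
  have h2 : ∑ i ∈ range k, 2 * ∑ m ∈ T,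
        (if m ^ 2 ∣ n + i * d then ArithmeticFunction.vonMangoldt m else 0) =
      2 * ∑ m ∈ T, (((range k).filter (fun i => m ^ 2 ∣ n + i * d)).card : ℝ) *
        ArithmeticFunction.vonMangoldt m := by
    rw [← Finset.mul_sum, Finset.sum_comm]
    congr 1
    refine Finset.sum_congr rfl fun m _ => ?_
    rw [← Finset.sum_filter, Finset.sum_const, nsmul_eq_mul]
  have h3 : ∀ m ∈ T, (((range k).filter (fun i => m ^ 2 ∣ n + i * d)).card : ℝ) *
        ArithmeticFunction.vonMangoldt m ≤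
      k * (ArithmeticFunction.vonMangoldt m / (m : ℝ) ^ 2) + ArithmeticFunction.vonMangoldt m := by
    intro m hm
    rw [hT, Finset.mem_filter, Finset.mem_Icc] at hm
    have hc := e2_count (n := n) (k := k) (Nat.Coprime.pow_left 2 hm.2)
    have hc' : (((range k).filter (fun i => m ^ 2 ∣ n + i * d)).card : ℝ) ≤
        (k : ℝ) / (m : ℝ) ^ 2 + 1 := by
      have e1 : ((k / m ^ 2 : ℕ) : ℝ) ≤ (k : ℝ) / (m : ℝ) ^ 2 := by
        have e2 := @Nat.cast_div_le ℝ _ _ _ k (m ^ 2)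
        rwa [Nat.cast_pow] at e2
      have e3 : (((range k).filter (fun i => m ^ 2 ∣ n + i * d)).card : ℝ) ≤
          ((k / m ^ 2 : ℕ) : ℝ) + 1 := by exact_mod_cast hc
      linarith
    calc _ ≤ ((k : ℝ) / (m : ℝ) ^ 2 + 1) * ArithmeticFunction.vonMangoldt m :=
          mul_le_mul_of_nonneg_right hc' ArithmeticFunction.vonMangoldt_nonneg
      _ = _ := by ring
  have h4 : ∑ m ∈ T, (((range k).filter (fun i => m ^ 2 ∣ n + i * d)).card : ℝ) *
        ArithmeticFunction.vonMangoldt m ≤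
      k * (∑ m ∈ T, ArithmeticFunction.vonMangoldt m / (m : ℝ) ^ 2) +
        ∑ m ∈ T, ArithmeticFunction.vonMangoldt m := by
    rw [Finset.mul_sum, ← Finset.sum_add_distrib]
    exact Finset.sum_le_sum h3
  have h5 : ∑ m ∈ T, ArithmeticFunction.vonMangoldt m ≤ (Real.log 4 + 4) * X := by
    refine le_trans ?_ (Chebyshev.psi_le_const_mul_self (Nat.cast_nonneg X))
    unfold Chebyshev.psi
    rw [Nat.floor_natCast]
    refine Finset.sum_le_sum_of_subset_of_nonneg ?_
      fun _ _ _ => ArithmeticFunction.vonMangoldt_nonneg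
    intro m hm
    rw [hT, Finset.mem_filter, Finset.mem_Icc] at hm
    exact Finset.mem_Ioc.2 ⟨hm.1.1, hm.1.2⟩
  have h6 : (X : ℝ) ≤ Real.sqrt ((n : ℝ) + k * d) := by
    have e1 := Real.nat_sqrt_le_real_sqrt (a := n + k * d)
    rw [← hX] at e1
    push_cast at e1
    exact e1
  have h7 : (Real.log 4 + 4) * (X : ℝ) ≤ (Real.log 4 + 4) * Real.sqrt ((n : ℝ) + k * d) :=
    mul_le_mul_of_nonneg_left h6 (by positivity)
  rw [h2] at h1
  linarith

end EAP
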