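import Pool.Agent.EAP.A4

/-!
[EAP-E3] lower bounds for `∑ log (n + i d)`.

`low_gen`: the term `i = 0` is `≥ 0` (`n ≥ 1`); for `i ≥ 1` `log (n + i d) ≥ log i + log d`; so the sum is
`≥ log (k-1)! + (k-1) log d = log k! - log k + k log d - log d ≥ k log k - k + k log d - log k - log d`
(`log_factorial_ge`).
`low_one`: `n ≥ k`: `∑_{i<k} log (k + i) = log (2k-1)! - log (k-1)! = log (2k)! - log (2k) - log k! + log k
= log (2k)! - log k! - log 2 ≥ 2k log (2k) - 2k - (k log k - k + log k + 1) - log 2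
= k log k - k + 2 k log 2 - log k - 1 - log 2` (`log_factorial_ge`, `log_factorial_le`). Or by induction.
-/

set_option autoImplicit false

namespace EAP

open Finset AP4

theorem low_gen {n d k : ℕ} (hn : 0 < n) (hd : 0 < d) (hk : 1 ≤ k) :
    k * Real.log k - k + k * Real.log d - Real.log k - Real.log d ≤
      ∑ i ∈ range k, Real.log ((n : ℝ) + i * d) := by
  obtain ⟨m, rfl⟩ : ∃ m, k = m + 1 := ⟨k - 1, by omega⟩
  have hn1 : (1 : ℝ) ≤ n := by exact_mod_cast hn
  have hd1 : (1 : ℝ) ≤ d := by exact_mod_cast hd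
  rw [Finset.sum_range_succ']
  have h0 : 0 ≤ Real.log ((n : ℝ) + (0 : ℕ) * d) := by
    apply Real.log_nonneg
    push_cast
    linarith
  have h1 : ∀ i ∈ range m, Real.log ((i : ℝ) + 1) + Real.log d ≤ Real.log ((n : ℝ) + ((i + 1 : ℕ) : ℝ) * d) := by
    intro i _
    have hi : (0 : ℝ) ≤ i := Nat.cast_nonneg i
    rw [← Real.log_mul (by positivity) (by positivity)]
    apply Real.log_le_log (by positivity)
    push_cast
    linarith
  have h2 := Finset.sum_le_sum h1
  rw [Finset.sum_add_distrib, Finset.sum_const, card_range, nsmul_eq_mul] at h2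
  have h3 : ∑ i ∈ range m, Real.log ((i : ℝ) + 1) = Real.log (m.factorial : ℝ) := by
    rw [← Finset.prod_range_add_one_eq_factorial]
    push_cast
    rw [Real.log_prod]
    intro i _
    positivity
  have h4 := log_factorial_ge (m + 1)
  rw [Nat.factorial_succ] at h4
  push_cast at h4 ⊢
  have h5 : (m.factorial : ℝ) ≠ 0 := by exact_mod_cast m.factorial_ne_zero
  rw [Real.log_mul (by positivity) h5] at h4
  rw [h3] at h2
  push_cast at h2 h0
  linarith

theorem e3_prod {k : ℕ} (hk : 1 ≤ k) : 2 * (k.factorial * ∏ i ∈ range k, (k + i)) = (2 * k).factorial := by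
  obtain ⟨m, rfl⟩ : ∃ m, k = m + 1 := ⟨k - 1, by omega⟩
  have h1 := Nat.ascFactorial_eq_prod_range (m + 1) (m + 1)
  rw [← h1, Nat.factorial_succ m]
  have h2 := Nat.factorial_mul_ascFactorial m (m + 1)
  have h3 : 2 * (m + 1) = (m + (m + 1)) + 1 := by ring
  rw [h3, Nat.factorial_succ (m + (m + 1)), ← h2]
  ring

theorem low_one {n k : ℕ} (hk : 1 ≤ k) (hn : k ≤ n) :
    k * Real.log k - k + 2 * k * Real.log 2 - Real.log k - 2 ≤
      ∑ i ∈ range k, Real.log ((n : ℝ) + i * (1 : ℕ)) := by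
  have hk1 : (1 : ℝ) ≤ k := by exact_mod_cast hk
  have hn1 : (k : ℝ) ≤ n := by exact_mod_cast hn
  have h1 : ∑ i ∈ range k, Real.log (((k + i : ℕ) : ℕ) : ℝ) ≤ ∑ i ∈ range k, Real.log ((n : ℝ) + i * (1 : ℕ)) := by
    apply Finset.sum_le_sum
    intro i _
    have hi : (0 : ℝ) ≤ i := Nat.cast_nonneg i
    push_cast
    apply Real.log_le_log (by positivity)
    linarith
  refine le_trans ?_ h1
  have hne : ∀ i ∈ range k, (((k + i : ℕ) : ℕ) : ℝ) ≠ 0 := by
    intro i _
    have : k + i ≠ 0 := by omega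
    exact_mod_cast this
  rw [← Real.log_prod hne, ← Nat.cast_prod]
  have h2 := e3_prod hk
  have hP : (∏ i ∈ range k, (k + i) : ℕ) ≠ 0 := by
    apply Finset.prod_ne_zero_iff.2
    intro i _
    omega
  have h3 : Real.log ((2 * k).factorial : ℝ) =
      Real.log 2 + (Real.log (k.factorial : ℝ) + Real.log ((∏ i ∈ range k, (k + i) : ℕ) : ℝ)) := by
    rw [← h2]
    have h4 : (k.factorial : ℝ) ≠ 0 := by exact_mod_cast k.factorial_ne_zero
    have h5 : ((∏ i ∈ range k, (k + i) : ℕ) : ℝ) ≠ 0 := by exact_mod_cast hP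
    rw [Nat.cast_mul, Nat.cast_mul, Real.log_mul (by norm_num) (mul_ne_zero h4 h5), Real.log_mul h4 h5]
    norm_num
  have h6 := log_factorial_ge (2 * k)
  have h7 := log_factorial_le hk
  rw [h3] at h6
  push_cast at h6
  rw [Real.log_mul (by norm_num) (by positivity)] at h6
  have h8 := Real.log_two_lt_d9
  push_cast
  push_cast at h6
  linarith

end EAP
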