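import Pool.Agent.EAP.Defs

/-!
[EAP-E4] `d = 1`, `n < k`: Bertrand's postulate.

Let `m = (n + k - 1) / 2` (nat), `m ≥ 1` as `k ≥ 2`, `m ≥ n` as `n ≤ k - 1`. `Nat.exists_prime_lt_and_le_two_mul`:
a prime `p`, `m < p ≤ 2 m ≤ n + k - 1`. So `p = n + i` with `i < k`, `i = p - n`. All other multiples of `p` are
`≥ 2 p ≥ 2 m + 2 > n + k - 1` or `0 < n`. So `v_p (n + j) = 0` for `j ≠ i` and `v_p (p) = 1`, the sum of the
valuations is `1`, odd, but `p > m ≥ (k-1)/2 ≥ k / 100` gives an even sum (`Eqn.ev2`): contradiction.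
(`p > β`: `p ≥ m + 1`, `2 (m+1) > n + k - 1 ≥ k`, so `2 p > k`, `k / 100 < p`: omega.)
-/

set_option autoImplicit false

namespace EAP

open Finset AP4

theorem d_one {n k : ℕ} (h : Eqn n 1 k (k / 100)) (hk : 2 ≤ k) (hn : n < k) : False := by
  have hn0 : 0 < n := h.n0
  set m := (n + k - 1) / 2 with hm
  have hm1 : m ≠ 0 := by omega
  obtain ⟨p, hp, hmp, hp2⟩ := Nat.exists_prime_lt_and_le_two_mul m hm1
  have hpn : n < p := by omega
  have hpk : p ≤ n + k - 1 := by omega
  have h2p : n + k - 1 < 2 * p := by omega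
  have hev := h.ev2 p hp (by omega)
  have hsum : ∑ i ∈ range k, (n + i * 1).factorization p = 1 := by
    rw [Finset.sum_eq_single (p - n)]
    · have : n + (p - n) * 1 = p := by omega
      rw [this, hp.factorization_self]
    · intro j hj hne
      apply Nat.factorization_eq_zero_of_not_dvd
      rintro ⟨q, hq⟩
      rw [mem_range] at hj
      have hq1 : q ≠ 0 := by
        rintro rfl
        omega
      have hq2 : q ≠ 1 := by
        rintro rfl
        omega
      have hq3 : 2 ≤ q := by omega
      have : p * 2 ≤ p * q := Nat.mul_le_mul_left p hq3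
      omega
    · intro hnot
      exfalso
      apply hnot
      rw [mem_range]
      omega
  rw [hsum] at hev
  exact absurd hev (by decide)

end EAP
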