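import Pool.Agent.EAP.Defs

/-!
[EAP-E6] `2 ∑ Λ(m)/m²` over `m` coprime to `d`.

Split the prime powers `m = p^j`, `j ≥ 1`, `p ∤ d`, `m ≤ X`, according to `p ≤ 200` or `p > 200`.
* `p ≤ 200`: `∑_{j ≥ 1} log p/p^(2j) ≤ log p/(p²-1)` (finite geometric sum `≤` infinite one). So these
  contribute `≤ ∑_{p ≤ 200, p ∤ d} 2 log p/(p²-1)`.
* `p > 200`: then `m > 200`, `Λ(m) ≤ log m ≤ √m`, so the sum is
  `≤ 2 ∑_{200 < m ≤ X} m^(-3/2) ≤ 4/√200 < 0.3`
  (`m^(-3/2) ≤ 2/√(m-1) - 2/√m`, telescoping; `4/√200 = 0.2828…`; `log m ≤ √m`: `log m = 2 log √m`,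
  and `log t ≤ t / 2` for `t > 0` since `log (t/2) ≤ t/2 - 1` and `log 2 ≤ 1`).
Suggestion: bound `Λ(m)` by `(if m.minFac ≤ 200 then Λ m else 0) + (if 200 < m then √m else 0)`, and
the first part by `∑_{p ≤ 200} ∑_{j=1}^{X} (if m = p^j then log p else 0)`
(`ArithmeticFunction.vonMangoldt_apply`, `isPrimePow`).
-/

set_option autoImplicit false

namespace EAP

open Finset AP4

theorem e6_geom {q : ℝ} (hq : 1 < q) (X : ℕ) : ∑ j ∈ Icc 1 X, 1 / q ^ j ≤ 1 / (q - 1) := by
  have h1 : ∑ j ∈ Icc 1 X, 1 / q ^ j = (1 - 1 / q ^ X) / (q - 1) := by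
    induction X with
    | zero => simp
    | succ X ih =>
      rw [sum_Icc_succ_top (by omega), ih]
      have h2 : q - 1 ≠ 0 := by linarith
      have h3 : q ≠ 0 := by linarith
      field_simp
      ring
  rw [h1]
  have h2 : 0 < q - 1 := by linarith
  have h3 : 0 < 1 / q ^ X := by positivity
  exact div_le_div_of_nonneg_right (by linarith) h2.le

theorem e6_log {x : ℝ} (hx : 0 < x) : Real.log x ≤ √x := by
  have hs : 0 < √x := Real.sqrt_pos.2 hx
  have h1 : Real.log x = 2 * Real.log √x := by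
    rw [Real.log_sqrt hx.le]
    ring
  have h2 : Real.log (√x / 2) ≤ √x / 2 - 1 := Real.log_le_sub_one_of_pos (by positivity)
  rw [Real.log_div hs.ne' (by norm_num)] at h2
  have h3 : Real.log 2 ≤ 1 := by
    have := Real.log_le_sub_one_of_pos (x := 2) (by norm_num)
    linarith
  rw [h1]
  linarith

theorem e6_step {m : ℕ} (hm : 2 ≤ m) : √(m : ℝ) / (m : ℝ) ^ 2 ≤
    2 / √((m : ℝ) - 1) - 2 / √(m : ℝ) := by
  have hmr : (2 : ℝ) ≤ m := by exact_mod_cast hm
  set a := √((m : ℝ) - 1) with ha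
  set b := √(m : ℝ) with hb
  have ha0 : 0 < a := Real.sqrt_pos.2 (by linarith)
  have hb0 : 0 < b := Real.sqrt_pos.2 (by linarith)
  have ha2 : a ^ 2 = (m : ℝ) - 1 := Real.sq_sqrt (by linarith)
  have hb2 : b ^ 2 = (m : ℝ) := Real.sq_sqrt (by linarith)
  have hab : a ≤ b := Real.sqrt_le_sqrt (by linarith)
  have e1 : b / (m : ℝ) ^ 2 = 1 / b ^ 3 := by
    rw [← hb2]
    field_simp
  have e2 : 2 / a - 2 / b = 2 / (a * b * (a + b)) := by
    have h3 : (b - a) * (a + b) = 1 := by nlinarith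
    have h4 : a + b ≠ 0 := by positivity
    rw [div_sub_div _ _ ha0.ne' hb0.ne', div_eq_div_iff (by positivity) (by positivity)]
    calc (2 * b - a * 2) * (a * b * (a + b)) = 2 * ((b - a) * (a + b)) * (a * b) := by ring
      _ = 2 * (a * b) := by rw [h3, mul_one]
  rw [e1, e2, div_le_div_iff₀ (by positivity) (by positivity)]
  have h5 : a * b * (a + b) ≤ b * b * (b + b) := by gcongr
  nlinarith

theorem e6_tail (X : ℕ) : ∑ m ∈ (Icc 1 X).filter (fun m => 200 < m), √(m : ℝ) / (m : ℝ) ^ 2 ≤ 0.15 := by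
  have h1 : ∀ X : ℕ, 200 ≤ X → ∑ m ∈ (Icc 1 X).filter (fun m => 200 < m), √(m : ℝ) / (m : ℝ) ^ 2 ≤
      2 / √200 - 2 / √(X : ℝ) := by
    intro X hX
    induction X, hX using Nat.le_induction with
    | base =>
      have : (Icc 1 200).filter (fun m => 200 < m) = ∅ := by
        rw [filter_eq_empty_iff]
        intro m hm
        rw [mem_Icc] at hm
        omega
      rw [this, sum_empty]
      norm_num
    | succ X hX ih =>
      have h2 : (Icc 1 (X + 1)).filter (fun m => 200 < m) =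
          insert (X + 1) ((Icc 1 X).filter (fun m => 200 < m)) := by
        ext m
        simp only [mem_filter, mem_Icc, mem_insert]
        omega
      rw [h2, sum_insert (by simp)]
      have h3 := e6_step (m := X + 1) (by omega)
      have h4 : (((X + 1 : ℕ) : ℝ)) - 1 = X := by push_cast; ring
      rw [h4] at h3
      linarith
  have h200 : 2 / √200 ≤ (0.15 : ℝ) := by
    have h3 : (14 : ℝ) ≤ √200 := Real.le_sqrt_of_sq_le (by norm_num)
    rw [div_le_iff₀ (by linarith)]
    linarith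
  rcases le_or_gt 200 X with hX | hX
  · have h2 := h1 X hX
    have h3 : 0 ≤ 2 / √(X : ℝ) := by positivity
    linarith
  · have : (Icc 1 X).filter (fun m => 200 < m) = ∅ := by
      rw [filter_eq_empty_iff]
      intro m hm
      rw [mem_Icc] at hm
      omega
    rw [this, sum_empty]
    norm_num

theorem e6_pt (d X m : ℕ) (hm : m ∈ (Icc 1 X).filter (fun m => Nat.Coprime m d)) :
    ArithmeticFunction.vonMangoldt m / (m : ℝ) ^ 2 ≤
      ∑ p ∈ Nat.primesLE 200, (if p ∣ d then 0 else ∑ j ∈ Icc 1 X,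
        (if m = p ^ j then Real.log p / (m : ℝ) ^ 2 else 0)) +
      (if 200 < m then √(m : ℝ) / (m : ℝ) ^ 2 else 0) := by
  rw [mem_filter, mem_Icc] at hm
  obtain ⟨⟨hm1, hmX⟩, hcop⟩ := hm
  have hnn : ∀ p ∈ Nat.primesLE 200, (0 : ℝ) ≤ (if p ∣ d then 0 else ∑ j ∈ Icc 1 X,
        (if m = p ^ j then Real.log p / (m : ℝ) ^ 2 else 0)) := by
    intro p hp
    split_ifs
    · exact le_refl _
    · refine sum_nonneg fun j _ => ?_
      split_ifs
      · exact div_nonneg (Real.log_natCast_nonneg _) (by positivity)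
      · exact le_refl _
  have hsum0 := sum_nonneg hnn
  have htail0 : (0 : ℝ) ≤ (if 200 < m then √(m : ℝ) / (m : ℝ) ^ 2 else 0) := by
    split_ifs
    · positivity
    · exact le_refl _
  rw [ArithmeticFunction.vonMangoldt_apply]
  by_cases hpp : IsPrimePow m
  · rw [if_pos hpp]
    obtain ⟨p, j, hp, hj, rfl⟩ := (isPrimePow_nat_iff m).1 hpp
    have hmf : (p ^ j).minFac = p := by
      rw [hp.pow_minFac hj.ne']
    rw [hmf]
    by_cases hp200 : p ≤ 200
    · have hpd : ¬ p ∣ d := by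
        intro hd
        have h2 : p ∣ Nat.gcd (p ^ j) d := Nat.dvd_gcd (dvd_pow_self p hj.ne') hd
        rw [hcop] at h2
        exact hp.one_lt.ne' (Nat.dvd_one.1 h2)
      have hjX : j ≤ X := le_trans (Nat.lt_pow_self hp.one_lt).le hmX
      have hmem : p ∈ Nat.primesLE 200 := by
        rw [Nat.mem_primesLE]
        exact ⟨hp200, hp⟩
      have h3 : Real.log p / ((p ^ j : ℕ) : ℝ) ^ 2 ≤
          (if p ∣ d then 0 else ∑ i ∈ Icc 1 X,
        (if p ^ j = p ^ i then Real.log p / ((p ^ j : ℕ) : ℝ) ^ 2 else 0)) := by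
        rw [if_neg hpd]
        have h4 := single_le_sum (f := fun i =>
          (if p ^ j = p ^ i then Real.log p / ((p ^ j : ℕ) : ℝ) ^ 2 else (0 : ℝ))) (s := Icc 1 X)
          (fun i _ => by
            split_ifs
            · exact div_nonneg (Real.log_natCast_nonneg _) (by positivity)
            · exact le_refl _) (mem_Icc.2 ⟨hj, hjX⟩)
        simpa using h4
      have h5 := single_le_sum (f := fun q => (if q ∣ d then (0 : ℝ) else ∑ i ∈ Icc 1 X,
        (if p ^ j = q ^ i then Real.log q / ((p ^ j : ℕ) : ℝ) ^ 2 else 0))) (s := Nat.primesLE 200)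
        hnn hmem
      linarith
    · have h6 : 200 < p ^ j := by
        have : p ≤ p ^ j := Nat.le_self_pow hj.ne' p
        omega
      rw [if_pos h6]
      have hmpos : (0 : ℝ) < ((p ^ j : ℕ) : ℝ) := by exact_mod_cast hm1
      have h7 : Real.log p ≤ √((p ^ j : ℕ) : ℝ) := by
        refine le_trans ?_ (e6_log hmpos)
        refine Real.log_le_log (by exact_mod_cast hp.pos) ?_
        exact_mod_cast Nat.le_self_pow hj.ne' p
      have h8 : Real.log p / ((p ^ j : ℕ) : ℝ) ^ 2 ≤ √((p ^ j : ℕ) : ℝ) / ((p ^ j : ℕ) : ℝ) ^ 2 :=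
        div_le_div_of_nonneg_right h7 (by positivity)
      linarith
  · rw [if_neg hpp, zero_div]
    linarith

theorem lambda_sum (d X : ℕ) :
    2 * ∑ m ∈ (Icc 1 X).filter (fun m => Nat.Coprime m d),
        ArithmeticFunction.vonMangoldt m / (m : ℝ) ^ 2 ≤
      ∑ p ∈ Nat.primesLE 200, (if p ∣ d then 0 else 2 * Real.log p / ((p : ℝ) ^ 2 - 1)) + 0.3 := by
  have h1 := sum_le_sum (e6_pt d X)
  rw [sum_add_distrib] at h1
  have hA : ∑ m ∈ (Icc 1 X).filter (fun m => Nat.Coprime m d),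
      ∑ p ∈ Nat.primesLE 200, (if p ∣ d then 0 else ∑ j ∈ Icc 1 X,
        (if m = p ^ j then Real.log p / (m : ℝ) ^ 2 else 0)) ≤
      ∑ p ∈ Nat.primesLE 200, (if p ∣ d then 0 else Real.log p / ((p : ℝ) ^ 2 - 1)) := by
    rw [sum_comm]
    refine sum_le_sum fun p hp => ?_
    have hpp : p.Prime := (Nat.mem_primesLE.1 hp).2
    by_cases hd : p ∣ d
    · simp [hd]
    · simp only [if_neg hd]
      rw [sum_comm]
      have hp1 : (1 : ℝ) < p := by exact_mod_cast hpp.one_lt
      have hlog : 0 ≤ Real.log p := Real.log_natCast_nonneg _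
      have h2 : ∀ j ∈ Icc 1 X, ∑ m ∈ (Icc 1 X).filter (fun m => Nat.Coprime m d),
          (if m = p ^ j then Real.log p / (m : ℝ) ^ 2 else 0) ≤ Real.log p * (1 / ((p : ℝ) ^ 2) ^ j) := by
        intro j _
        have h3 : ∀ m ∈ (Icc 1 X).filter (fun m => Nat.Coprime m d),
            (if m = p ^ j then Real.log p / (m : ℝ) ^ 2 else 0) =
            (if m = p ^ j then Real.log p * (1 / ((p : ℝ) ^ 2) ^ j) else 0) := by
          intro m _
          split_ifs with hmj
          · rw [hmj]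
            push_cast
            rw [← pow_mul, ← pow_mul, mul_comm j 2]
            ring
          · rfl
        rw [sum_congr rfl h3, sum_ite_eq']
        split_ifs
        · exact le_refl _
        · positivity
      refine le_trans (sum_le_sum h2) ?_
      rw [← mul_sum]
      have h4 := e6_geom (q := (p : ℝ) ^ 2) (by nlinarith) X
      calc Real.log p * ∑ j ∈ Icc 1 X, 1 / ((p : ℝ) ^ 2) ^ j
          ≤ Real.log p * (1 / ((p : ℝ) ^ 2 - 1)) := mul_le_mul_of_nonneg_left h4 hlog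
        _ = Real.log p / ((p : ℝ) ^ 2 - 1) := by ring
  have hB : ∑ m ∈ (Icc 1 X).filter (fun m => Nat.Coprime m d),
      (if 200 < m then √(m : ℝ) / (m : ℝ) ^ 2 else 0) ≤ 0.15 := by
    refine le_trans ?_ (e6_tail X)
    rw [← sum_filter]
    refine sum_le_sum_of_subset_of_nonneg ?_ fun m _ _ => by positivity
    intro m hm
    simp only [mem_filter] at hm ⊢
    exact ⟨hm.1.1, hm.2⟩
  have hC : ∑ p ∈ Nat.primesLE 200, (if p ∣ d then 0 else 2 * Real.log p / ((p : ℝ) ^ 2 - 1)) =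
      2 * ∑ p ∈ Nat.primesLE 200, (if p ∣ d then 0 else Real.log p / ((p : ℝ) ^ 2 - 1)) := by
    rw [mul_sum]
    refine sum_congr rfl fun p _ => ?_
    split_ifs
    · simp
    · ring
  rw [hC]
  linarith

end EAP
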