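import Pool.Agent.EAP.G1

/-!
[EAP-G2] few classes have four elements.

`few`: for each `c` in the set `Bc` choose `(m1, m2, m3, y)` by `class_pattern`. For fixed `(m1, m2, m3)` the
`y`'s that occur form a finite set all of whose elements satisfy `Pa`, so there are `≤ B(m1, m2, m3)` of them
(`pat`). For fixed `y`: `c y = n + i d` for some `i`, so any two such `c, c'` have
`c y ≡ c' y` mod `d`, hence `c ≡ c'` mod `d` (`gcd (y, d) = 1`), and `1 ≤ c ≤ k`, so there are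
`≤ k / d + 1` of them. Total `≤ (∑_{m1,m2,m3 < U} B(m1,m2,m3)) (k/d + 1)`
(`Finset.card_le_mul_card_image` or `card_biUnion_le`).
-/

set_option autoImplicit false

namespace EAP

open Finset AP4

theorem g2_res {n d k y : ℕ} (hy : Nat.Coprime y d) (s : Finset ℕ)
    (hs : ∀ c ∈ s, c ≤ k ∧ ∃ i : ℕ, c * y = n + i * d) : s.card ≤ k / d + 1 := by
  have h := Finset.card_le_card_of_injOn (s := s) (t := range (k / d + 1)) (fun c => c / d) ?_ ?_
  · rwa [card_range] at h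
  · intro c hc
    rw [mem_coe] at hc
    rw [mem_coe, mem_range]
    exact Nat.lt_succ_of_le (Nat.div_le_div_right (hs c hc).1)
  · intro c hc c' hc' heq
    rw [mem_coe] at hc hc'
    obtain ⟨_, i, hi⟩ := hs c hc
    obtain ⟨_, i', hi'⟩ := hs c' hc'
    simp only at heq
    have h1 : c * y ≡ c' * y [MOD d] := by
      rw [hi, hi']
      have e1 : n + i * d ≡ n [MOD d] := by
        simp [Nat.ModEq]
      have e2 : n + i' * d ≡ n [MOD d] := by
        simp [Nat.ModEq]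
      exact e1.trans e2.symm
    have h2 : c ≡ c' [MOD d] :=
      Nat.ModEq.cancel_right_of_coprime (by rw [Nat.gcd_comm]; exact hy) h1
    have h3 : c % d = c' % d := h2
    rw [← Nat.div_add_mod c d, ← Nat.div_add_mod c' d, heq, h3]

theorem few (U : ℕ) : ∃ B : ℕ, ∀ n d k : ℕ, Sol n d k →
    ((Icc 1 k).filter (fun c => k ≤ c * U ∧ 4 ≤ S n d k c)).card ≤ B * (k / d + 1) := by
  classical
  have hex : ∀ t : ℕ × ℕ × ℕ, ∃ B : ℕ, 0 < t.1 → t.1 < t.2.1 → t.2.1 < t.2.2 →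
      ∀ d : ℕ, 0 < d → ∀ s : Finset ℕ, (∀ y ∈ s, Pa t.1 t.2.1 t.2.2 d y) → s.card ≤ B := by
    intro t
    by_cases h : 0 < t.1 ∧ t.1 < t.2.1 ∧ t.2.1 < t.2.2
    · obtain ⟨B, hB⟩ := pat h.1 h.2.1 h.2.2
      exact ⟨B, fun _ _ _ => hB⟩
    · exact ⟨0, fun h0 h1 h2 => absurd ⟨h0, h1, h2⟩ h⟩
  choose Bf hBf using hex
  refine ⟨∑ t ∈ range U ×ˢ range U ×ˢ range U, Bf t, ?_⟩
  intro n d k h
  set Bc := (Icc 1 k).filter (fun c => k ≤ c * U ∧ 4 ≤ S n d k c) with hBc
  have hcl : ∀ c : ℕ, ∃ z : (ℕ × ℕ × ℕ) × ℕ, c ∈ Bc → (0 < z.1.1 ∧ z.1.1 < z.1.2.1 ∧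
      z.1.2.1 < z.1.2.2 ∧ z.1.2.2 < U ∧ (∃ i, c * z.2 = n + i * d) ∧
      Pa z.1.1 z.1.2.1 z.1.2.2 d z.2) := by
    intro c
    by_cases hc : c ∈ Bc
    · have hc' := hc
      rw [hBc, mem_filter, mem_Icc] at hc'
      obtain ⟨m1, m2, m3, y, i, h1, h2, h3, h4, _, h6, h7⟩ :=
        class_pattern h hc'.1.1 hc'.2.1 hc'.2.2
      exact ⟨((m1, m2, m3), y), fun _ => ⟨h1, h2, h3, h4, ⟨i, h6⟩, h7⟩⟩
    · exact ⟨((0, 0, 0), 0), fun hc1 => absurd hc1 hc⟩
  choose z hz using hcl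
  -- cover
  have hcov : Bc ⊆ (range U ×ˢ range U ×ˢ range U).biUnion (fun t =>
      ((Bc.filter (fun c => (z c).1 = t)).image (fun c => (z c).2)).biUnion
        (fun y => Bc.filter (fun c => (z c).2 = y ∧ (z c).1 = t))) := by
    intro c hc
    have h1 := hz c hc
    rw [mem_biUnion]
    refine ⟨(z c).1, ?_, ?_⟩
    · rw [mem_product, mem_product, mem_range, mem_range, mem_range]
      refine ⟨?_, ?_, h1.2.2.2.1⟩
      · exact lt_trans h1.2.1 (lt_trans h1.2.2.1 h1.2.2.2.1)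
      · exact lt_trans h1.2.2.1 h1.2.2.2.1
    · rw [mem_biUnion]
      refine ⟨(z c).2, ?_, ?_⟩
      · rw [mem_image]
        exact ⟨c, mem_filter.2 ⟨hc, rfl⟩, rfl⟩
      · exact mem_filter.2 ⟨hc, rfl, rfl⟩
  refine (card_le_card hcov).trans ?_
  refine (card_biUnion_le).trans ?_
  rw [Finset.sum_mul]
  apply Finset.sum_le_sum
  intro t ht
  by_cases hne : (Bc.filter (fun c => (z c).1 = t)).Nonempty
  · obtain ⟨c0, hc0⟩ := hne
    rw [mem_filter] at hc0
    have h1 := hz c0 hc0.1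
    rw [hc0.2] at h1
    refine (card_biUnion_le).trans ?_
    have hY : ((Bc.filter (fun c => (z c).1 = t)).image (fun c => (z c).2)).card ≤ Bf t := by
      apply hBf t h1.1 h1.2.1 h1.2.2.1 d h.d0
      intro y hy
      rw [mem_image] at hy
      obtain ⟨c, hc, rfl⟩ := hy
      rw [mem_filter] at hc
      have h2 := (hz c hc.1).2.2.2.2.2
      rwa [hc.2] at h2
    have hC : ∀ y ∈ (Bc.filter (fun c => (z c).1 = t)).image (fun c => (z c).2),
        (Bc.filter (fun c => (z c).2 = y ∧ (z c).1 = t)).card ≤ k / d + 1 := by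
      intro y hy
      rw [mem_image] at hy
      obtain ⟨c, hc, rfl⟩ := hy
      rw [mem_filter] at hc
      have h2 := hz c hc.1
      have hcop : Nat.Coprime (z c).2 d := h2.2.2.2.2.2.2.1
      apply g2_res hcop
      intro c' hc'
      rw [mem_filter] at hc'
      have h3 := hz c' hc'.1
      refine ⟨?_, ?_⟩
      · have h4 := hc'.1
        rw [hBc, mem_filter, mem_Icc] at h4
        exact h4.1.2
      · obtain ⟨i, hi⟩ := h3.2.2.2.2.1
        exact ⟨i, by rw [← hc'.2.1]; exact hi⟩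
    calc _ ≤ ∑ _y ∈ (Bc.filter (fun c => (z c).1 = t)).image (fun c => (z c).2), (k / d + 1) :=
          Finset.sum_le_sum hC
      _ = ((Bc.filter (fun c => (z c).1 = t)).image (fun c => (z c).2)).card * (k / d + 1) := by
          rw [Finset.sum_const, smul_eq_mul]
      _ ≤ Bf t * (k / d + 1) := Nat.mul_le_mul_right _ hY
  · rw [not_nonempty_iff_eq_empty] at hne
    rw [hne]
    simp

end EAP
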