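import Pool.Agent.EAP.B1
import Pool.Agent.EAP.C2
import Pool.Agent.EAP.G2

/-!
[EAP-U0] splitting the main sum.

Let `U` from `tail ε`, `B` from `few U`. Terms of `Lam` with `S = 0` vanish. Split `c ∈ cop d k`
(`1 ≤ c ≤ k`, all terms are nonneg) into
(a) `c U < k`: the sum is `≤ ε k` (`tail`);
(b) `k ≤ c U` and `4 ≤ S`: `S ≤ k / c + 1 ≤ U + 1` (`card_F`; `S = (F ..).card` by `rfl`) and
`log (k/c) ≤ log U ≤ U` (`k/c ≤ U`), number of such `c` `≤ B (k / d + 1)`: sum `≤ B (U+1) U (k / d + 1)`,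
`((k / d : ℕ) : ℝ) ≤ k / d` (`Nat.cast_div_le`), `1 ≤ log k + 1`;
(c) the rest with `1 ≤ S`, so `S ≤ 3`: bounded by the sum over all `c ∈ cop d k` with `1 ≤ S ≤ 3`.
-/

set_option autoImplicit false

namespace EAP

open Finset AP4

theorem u0_nonneg {n d k c : ℕ} (hc : c ∈ Icc 1 k) :
    0 ≤ (S n d k c : ℝ) * Real.log ((k : ℝ) / c) := by
  rw [mem_Icc] at hc
  refine mul_nonneg (Nat.cast_nonneg _) (Real.log_nonneg ?_)
  have h1 : (0 : ℝ) < c := by exact_mod_cast hc.1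
  rw [one_le_div h1]
  exact_mod_cast hc.2

theorem u0_term {n d k c U : ℕ} (h : Sol n d k) (hc : c ∈ Icc 1 k) (hU : k ≤ c * U) :
    (S n d k c : ℝ) * Real.log ((k : ℝ) / c) ≤ ((U : ℝ) + 1) * U := by
  rw [mem_Icc] at hc
  have h1 : (0 : ℝ) < c := by exact_mod_cast hc.1
  have hS : S n d k c ≤ U + 1 := by
    refine (card_F h hc.1).trans ?_
    have : k / c ≤ U := Nat.div_le_of_le_mul hU
    omega
  have hS' : (S n d k c : ℝ) ≤ (U : ℝ) + 1 := by exact_mod_cast hS
  have h2 : (k : ℝ) / c ≤ U := by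
    rw [div_le_iff₀ h1, mul_comm]
    exact_mod_cast hU
  have h3 : (1 : ℝ) ≤ (k : ℝ) / c := by
    rw [one_le_div h1]
    exact_mod_cast hc.2
  have h4 : Real.log ((k : ℝ) / c) ≤ U := by
    have h5 := Real.log_le_sub_one_of_pos (lt_of_lt_of_le one_pos h3)
    linarith
  exact mul_le_mul hS' h4 (Real.log_nonneg h3) (by positivity)

theorem Lam_split {ε : ℝ} (hε : 0 < ε) : ∃ C : ℝ, 0 ≤ C ∧ ∀ n d k : ℕ, Sol n d k → 1 ≤ k →
    Lam n d k ≤ ε * k + C * (Real.log k + 1) + C * ((k : ℝ) / d) +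
      ∑ c ∈ (cop d k).filter (fun c => 1 ≤ S n d k c ∧ S n d k c ≤ 3),
        (S n d k c : ℝ) * Real.log ((k : ℝ) / c) := by
  obtain ⟨U, hU, hta⟩ := tail hε
  obtain ⟨B, hB⟩ := few U
  refine ⟨(B : ℝ) * (((U : ℝ) + 1) * U), by positivity, ?_⟩
  intro n d k h hk
  have hsub : cop d k ⊆ Icc 1 k := filter_subset _ _
  have h1 : Lam n d k ≤
      ∑ c ∈ (cop d k).filter (fun c => c * U < k), (S n d k c : ℝ) * Real.log ((k : ℝ) / c) +
      ∑ c ∈ (cop d k).filter (fun c => k ≤ c * U ∧ 4 ≤ S n d k c),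
        (S n d k c : ℝ) * Real.log ((k : ℝ) / c) +
      ∑ c ∈ (cop d k).filter (fun c => 1 ≤ S n d k c ∧ S n d k c ≤ 3),
        (S n d k c : ℝ) * Real.log ((k : ℝ) / c) := by
    unfold Lam
    rw [Finset.sum_filter, Finset.sum_filter, Finset.sum_filter, ← Finset.sum_add_distrib,
      ← Finset.sum_add_distrib]
    refine Finset.sum_le_sum fun c hc => ?_
    have h0 := u0_nonneg (n := n) (d := d) (hsub hc)
    by_cases hc1 : c * U < k
    · rw [if_pos hc1]
      have h2 : 0 ≤ (if k ≤ c * U ∧ 4 ≤ S n d k c then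
        (S n d k c : ℝ) * Real.log ((k : ℝ) / c) else 0) := by
        split_ifs
        · exact h0
        · exact le_rfl
      have h3 : 0 ≤ (if 1 ≤ S n d k c ∧ S n d k c ≤ 3 then
        (S n d k c : ℝ) * Real.log ((k : ℝ) / c) else 0) := by
        split_ifs
        · exact h0
        · exact le_rfl
      linarith
    · rw [if_neg hc1]
      by_cases hc2 : 4 ≤ S n d k c
      · rw [if_pos ⟨not_lt.1 hc1, hc2⟩, if_neg (by omega)]
        linarith
      · by_cases hc3 : S n d k c = 0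
        · rw [if_neg (by omega), if_neg (by omega), hc3]
          simp
        · rw [if_neg (by omega), if_pos (by omega)]
          linarith
  have h2 : ∑ c ∈ (cop d k).filter (fun c => c * U < k),
      (S n d k c : ℝ) * Real.log ((k : ℝ) / c) ≤ ε * k := by
    refine le_trans (Finset.sum_le_sum_of_subset_of_nonneg (filter_subset_filter _ hsub) ?_)
      (hta n d k h hk)
    intro c hc _
    exact u0_nonneg (mem_filter.1 hc).1
  have h3 : ∑ c ∈ (cop d k).filter (fun c => k ≤ c * U ∧ 4 ≤ S n d k c),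
      (S n d k c : ℝ) * Real.log ((k : ℝ) / c) ≤
        ((B * (k / d + 1) : ℕ) : ℝ) * (((U : ℝ) + 1) * U) := by
    refine le_trans (Finset.sum_le_sum_of_subset_of_nonneg (filter_subset_filter _ hsub) ?_) ?_
    · intro c hc _
      exact u0_nonneg (mem_filter.1 hc).1
    · have h4 : ∀ c ∈ (Icc 1 k).filter (fun c => k ≤ c * U ∧ 4 ≤ S n d k c),
          (S n d k c : ℝ) * Real.log ((k : ℝ) / c) ≤ ((U : ℝ) + 1) * U := fun c hc =>
        u0_term h (mem_filter.1 hc).1 (mem_filter.1 hc).2.1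
      have h5 := Finset.sum_le_card_nsmul _ _ _ h4
      rw [nsmul_eq_mul] at h5
      refine h5.trans (mul_le_mul_of_nonneg_right ?_ (by positivity))
      exact_mod_cast hB n d k h
  have h4 : ((B * (k / d + 1) : ℕ) : ℝ) * (((U : ℝ) + 1) * U) ≤
      (B : ℝ) * (((U : ℝ) + 1) * U) * (Real.log k + 1) +
        (B : ℝ) * (((U : ℝ) + 1) * U) * ((k : ℝ) / d) := by
    have h5 : ((k / d : ℕ) : ℝ) ≤ (k : ℝ) / d := Nat.cast_div_le
    have h6 : 0 ≤ Real.log k := Real.log_natCast_nonneg k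
    have h7 : (0 : ℝ) ≤ (B : ℝ) * (((U : ℝ) + 1) * U) := by positivity
    have h8 : ((B * (k / d + 1) : ℕ) : ℝ) * (((U : ℝ) + 1) * U) =
        (B : ℝ) * (((U : ℝ) + 1) * U) * (((k / d : ℕ) : ℝ) + 1) := by
      push_cast
      ring
    rw [h8, ← mul_add]
    refine mul_le_mul_of_nonneg_left ?_ h7
    linarith
  linarith

end EAP
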