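import Pool.Agent.EAP.B2
import Pool.Agent.EAP.B7
import Pool.Agent.EAP.U0

/-!
[EAP-U1] upper bound for `Lam`, `d` odd.

`Lam_split`; for `c` in the last sum: `c` is squarefree (`F_squarefree`, `F` is nonempty as `S = (F ..).card`),
`class_odd`: `≤ ∑_{c ∈ Icc 1 k, squarefree} fu (k/c) + ∑_{c ∈ Icc 1 k} (Fe ..).card`
(`fu_nonneg` to extend the sum) `≤ 1.1683 k + 768 (log k + 1) + k/4 + 1` (`sqfree_sum`, `card_Fe_sum`,
`((k / 4 : ℕ) : ℝ) ≤ k / 4`); `1/4 + 1.1683 = 1.4183`.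
-/

set_option autoImplicit false

namespace EAP

open Finset AP4

theorem u1_sum {n d k : ℕ} (h : Sol n d k) (hd : Odd d) (hk : 1 ≤ k) :
    ∑ c ∈ (cop d k).filter (fun c => 1 ≤ S n d k c ∧ S n d k c ≤ 3),
        (S n d k c : ℝ) * Real.log ((k : ℝ) / c) ≤
      ∑ c ∈ (Icc 1 k).filter Squarefree, fu ((k : ℝ) / c) +
        ∑ c ∈ Icc 1 k, ((Fe n d k c).card : ℝ) := by
  have hone : ∀ c : ℕ, 1 ≤ c → c ≤ k → 1 ≤ (k : ℝ) / c := by
    intro c hc hck
    have hc0 : (0 : ℝ) < c := by exact_mod_cast hc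
    rw [le_div_iff₀ hc0, one_mul]
    exact_mod_cast hck
  calc ∑ c ∈ (cop d k).filter (fun c => 1 ≤ S n d k c ∧ S n d k c ≤ 3),
        (S n d k c : ℝ) * Real.log ((k : ℝ) / c)
      ≤ ∑ c ∈ (cop d k).filter (fun c => 1 ≤ S n d k c ∧ S n d k c ≤ 3),
        (fu ((k : ℝ) / c) + (Fe n d k c).card) := by
        refine Finset.sum_le_sum (fun c hc => ?_)
        rw [Finset.mem_filter, cop, Finset.mem_filter, Finset.mem_Icc] at hc
        exact class_odd h hd hc.1.1.1 hc.1.1.2 hc.2.2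
    _ = ∑ c ∈ (cop d k).filter (fun c => 1 ≤ S n d k c ∧ S n d k c ≤ 3), fu ((k : ℝ) / c) +
        ∑ c ∈ (cop d k).filter (fun c => 1 ≤ S n d k c ∧ S n d k c ≤ 3),
          ((Fe n d k c).card : ℝ) := Finset.sum_add_distrib
    _ ≤ _ := by
        refine add_le_add ?_ ?_
        · refine Finset.sum_le_sum_of_subset_of_nonneg ?_ ?_
          · intro c hc
            rw [Finset.mem_filter, cop, Finset.mem_filter] at hc
            rw [Finset.mem_filter]
            refine ⟨hc.1.1, F_squarefree (n := n) (d := d) (k := k) ?_⟩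
            rw [← Finset.card_pos]
            exact hc.2.1
          · intro c hc _
            rw [Finset.mem_filter, Finset.mem_Icc] at hc
            exact fu_nonneg (hone c hc.1.1 hc.1.2)
        · refine Finset.sum_le_sum_of_subset_of_nonneg ?_ (fun c _ _ => Nat.cast_nonneg _)
          intro c hc
          rw [Finset.mem_filter, cop, Finset.mem_filter] at hc
          exact hc.1.1

theorem Lam_odd {ε : ℝ} (hε : 0 < ε) : ∃ C : ℝ, 0 ≤ C ∧ ∀ n d k : ℕ, Sol n d k → Odd d → 1 ≤ k →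
    Lam n d k ≤ (1.4183 + ε) * k + C * (Real.log k + 1) + C * ((k : ℝ) / d) := by
  obtain ⟨C, hC, hsplit⟩ := Lam_split hε
  refine ⟨C + 769, by linarith, fun n d k h hd hk => ?_⟩
  have h1 := hsplit n d k h hk
  have h2 := u1_sum h hd hk
  have h3 := sqfree_sum hk
  have h4 : (∑ c ∈ Icc 1 k, ((Fe n d k c).card : ℝ)) ≤ (k : ℝ) / 4 + 1 := by
    have h5 : ((∑ c ∈ Icc 1 k, (Fe n d k c).card : ℕ) : ℝ) ≤ ((k / 4 + 1 : ℕ) : ℝ) := by
      exact_mod_cast card_Fe_sum (n := n) (k := k) hd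
    rw [Nat.cast_sum] at h5
    refine h5.trans ?_
    rw [Nat.cast_add, Nat.cast_one]
    have h6 : ((k / 4 : ℕ) : ℝ) ≤ (k : ℝ) / 4 := by
      exact_mod_cast @Nat.cast_div_le ℝ _ _ _ k 4
    linarith
  have hl : 0 ≤ Real.log k := Real.log_natCast_nonneg k
  have hkd : 0 ≤ (k : ℝ) / d := by positivity
  have e1 : (C + 769) * (Real.log k + 1) = C * (Real.log k + 1) + 769 * (Real.log k + 1) := by
    ring
  have e2 : (C + 769) * ((k : ℝ) / d) = C * ((k : ℝ) / d) + 769 * ((k : ℝ) / d) := by ring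
  rw [e1, e2]
  linarith

end EAP
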