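import Pool.Agent.EAP.B6
import Pool.Agent.EAP.U0

/-!
[EAP-U2] upper bound for `Lam`, `d` even.

`Lam_split`; `c ∈ cop d k` is coprime to `d`, so odd; `S log (k/c) ≤ 3 log (k/c)`. And
`∑_{c odd, 1 ≤ c ≤ k} log (k/c) ≤ log k + (1/2) ∑_{c ≤ k} log (k/c) ≤ log k + k/2`: for odd `c ≥ 3`
`2 log (k/c) ≤ log (k/(c-1)) + log (k/c)` and the pairs `{c-1, c}` are disjoint subsets of `[2, k]`;
`log_sum` with `x = k` (`⌊(k : ℝ)⌋₊ = k`).
So the last sum is `≤ 3 log k + 1.5 k`.
-/

set_option autoImplicit false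

namespace EAP

open Finset AP4

theorem u2_odd_sum {k : ℕ} (hk : 1 ≤ k) :
    ∑ c ∈ (Icc 1 k).filter Odd, Real.log ((k : ℝ) / c) ≤ Real.log k + k / 2 := by
  have hk0 : (0 : ℝ) < k := by exact_mod_cast hk
  have hall := log_sum (x := (k : ℝ)) hk0.le
  rw [Nat.floor_natCast] at hall
  -- compare with the even terms
  have hE : ∑ c ∈ ((Icc 1 k).filter Odd).erase 1, Real.log ((k : ℝ) / c) ≤
      ∑ c ∈ (Icc 1 k).filter (fun c => ¬ Odd c), Real.log ((k : ℝ) / c) := by
    have h1 : ∑ c ∈ ((Icc 1 k).filter Odd).erase 1, Real.log ((k : ℝ) / c) ≤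
        ∑ c ∈ ((Icc 1 k).filter Odd).erase 1, Real.log ((k : ℝ) / ((c - 1 : ℕ) : ℝ)) := by
      apply Finset.sum_le_sum
      intro c hc
      rw [mem_erase, mem_filter, mem_Icc] at hc
      obtain ⟨hc1, ⟨hc2, hc3⟩, hc4⟩ := hc
      have hc5 : 0 < c - 1 := by omega
      have hc6 : (0 : ℝ) < ((c - 1 : ℕ) : ℝ) := by exact_mod_cast hc5
      have hc7 : ((c - 1 : ℕ) : ℝ) ≤ c := by exact_mod_cast Nat.sub_le _ _
      have hc8 : (0 : ℝ) < c := by linarith
      apply Real.log_le_log (by positivity)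
      exact div_le_div_of_nonneg_left hk0.le hc6 hc7
    refine h1.trans ?_
    have h2 : ∑ c ∈ ((Icc 1 k).filter Odd).erase 1, Real.log ((k : ℝ) / ((c - 1 : ℕ) : ℝ)) =
        ∑ e ∈ (((Icc 1 k).filter Odd).erase 1).image (fun c : ℕ => c - 1),
          Real.log ((k : ℝ) / (e : ℝ)) := by
      rw [Finset.sum_image]
      intro a ha b hb hab
      rw [mem_coe, mem_erase, mem_filter, mem_Icc] at ha hb
      simp only at hab
      omega
    rw [h2]
    apply Finset.sum_le_sum_of_subset_of_nonneg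
    · intro e he
      rw [mem_image] at he
      obtain ⟨c, hc, rfl⟩ := he
      rw [mem_erase, mem_filter, mem_Icc] at hc
      obtain ⟨hc1, ⟨hc2, hc3⟩, hc4⟩ := hc
      rw [mem_filter, mem_Icc]
      refine ⟨⟨by omega, by omega⟩, ?_⟩
      rw [Nat.odd_iff] at hc4 ⊢
      omega
    · intro e he _
      rw [mem_filter, mem_Icc] at he
      apply Real.log_nonneg
      have he0 : (0 : ℝ) < e := by exact_mod_cast he.1.1
      rw [le_div_iff₀ he0, one_mul]
      exact_mod_cast he.1.2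
  have hone : (1 : ℕ) ∈ (Icc 1 k).filter Odd := by
    rw [mem_filter, mem_Icc]
    exact ⟨⟨le_rfl, hk⟩, odd_one⟩
  have hsp := Finset.sum_filter_add_sum_filter_not (Icc 1 k) Odd
    (fun c : ℕ => Real.log ((k : ℝ) / c))
  have her := Finset.add_sum_erase ((Icc 1 k).filter Odd)
    (fun c : ℕ => Real.log ((k : ℝ) / c)) hone
  simp only [Nat.cast_one, div_one] at her
  have hlog : 0 ≤ Real.log k := Real.log_natCast_nonneg k
  linarith

theorem Lam_even {ε : ℝ} (hε : 0 < ε) : ∃ C : ℝ, 0 ≤ C ∧ ∀ n d k : ℕ, Sol n d k → Even d → 1 ≤ k →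
    Lam n d k ≤ (1.5 + ε) * k + C * (Real.log k + 1) + C * ((k : ℝ) / d) := by
  obtain ⟨C, hC, hL⟩ := Lam_split hε
  refine ⟨C + 3, by linarith, fun n d k h hd hk => ?_⟩
  have h1 := hL n d k h hk
  have hk0 : (0 : ℝ) < k := by exact_mod_cast hk
  have hd0 : (0 : ℝ) < d := by exact_mod_cast h.d0
  have hlog : 0 ≤ Real.log k := Real.log_natCast_nonneg k
  have hnn : ∀ c : ℕ, 1 ≤ c → c ≤ k → 0 ≤ Real.log ((k : ℝ) / c) := by
    intro c h1 h2
    apply Real.log_nonneg
    have he0 : (0 : ℝ) < c := by exact_mod_cast h1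
    rw [le_div_iff₀ he0, one_mul]
    exact_mod_cast h2
  have h2 : ∑ c ∈ (cop d k).filter (fun c => 1 ≤ S n d k c ∧ S n d k c ≤ 3),
        (S n d k c : ℝ) * Real.log ((k : ℝ) / c) ≤
      ∑ c ∈ (Icc 1 k).filter Odd, 3 * Real.log ((k : ℝ) / c) := by
    calc _ ≤ ∑ c ∈ (cop d k).filter (fun c => 1 ≤ S n d k c ∧ S n d k c ≤ 3),
          3 * Real.log ((k : ℝ) / c) := by
          apply Finset.sum_le_sum
          intro c hc
          rw [mem_filter, cop, mem_filter, mem_Icc] at hc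
          apply mul_le_mul_of_nonneg_right _ (hnn c hc.1.1.1 hc.1.1.2)
          exact_mod_cast hc.2.2
      _ ≤ _ := by
          apply Finset.sum_le_sum_of_subset_of_nonneg
          · intro c hc
            rw [mem_filter, cop, mem_filter, mem_Icc] at hc
            rw [mem_filter, mem_Icc]
            refine ⟨hc.1.1, ?_⟩
            by_contra hodd
            rw [Nat.not_odd_iff_even] at hodd
            have h3 : 2 ∣ Nat.gcd c d := Nat.dvd_gcd hodd.two_dvd hd.two_dvd
            rw [hc.1.2] at h3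
            omega
          · intro c hc _
            rw [mem_filter, mem_Icc] at hc
            exact mul_nonneg (by norm_num) (hnn c hc.1.1 hc.1.2)
  rw [← Finset.mul_sum] at h2
  have h3 := u2_odd_sum hk
  have h4 : 0 ≤ (k : ℝ) / d := by positivity
  have h5 : (C + 3) * (Real.log k + 1) = C * (Real.log k + 1) + 3 * Real.log k + 3 := by ring
  have h6 : (C + 3) * ((k : ℝ) / d) = C * ((k : ℝ) / d) + 3 * ((k : ℝ) / d) := by ring
  have h7 : (1.5 + ε) * k = 1.5 * k + ε * k := by ring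
  rw [h5, h6, h7]
  linarith

end EAP
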