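import Pool.Agent.EAP.A5
import Pool.Agent.EAP.A7
import Pool.Agent.EAP.U1
import Pool.Agent.EAP.U2

/-!
[EAP-U3] no solutions with `d` large.

`log_small`: `Real.isLittleO_log_id_atTop` or `log k ≤ 2 √k`.
`large_d`: `Lam_ge 200` with `β = k / 100` (`((k/100 : ℕ) : ℝ) ≤ k/100`), `sav_ge`, `sav_even`,
`log 2 ≤ 0.6931472`, `log 4 = 2 log 2`: `Lam ≥ (1 - log 2 + 1.13 - 0.013863) k - C (log k + 1)
≥ 1.4229 k - C (log k + 1)`, and for even `d` `≥ 1.65 k - C (log k + 1)`. `Lam_odd`, `Lam_even` with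
`ε = 0.001`. For `d ≥ D` with `C' / D ≤ 0.001` and `k` so large that all `C (log k + 1) ≤ 0.0005 k`:
`1.4229 k ≤ (1.4183 + 0.001 + 0.001) k + 0.001 k`, false; `1.65 ≤ 1.5 + 0.003`, false.
-/

set_option autoImplicit false

namespace EAP

open Finset AP4

theorem log_small (C ε : ℝ) (hε : 0 < ε) : ∃ k₁ : ℕ, ∀ k : ℕ, k₁ ≤ k →
    C * (Real.log k + 1) ≤ ε * k := by
  have h1 : (fun x : ℝ => C * (Real.log x + 1)) =o[Filter.atTop] (id : ℝ → ℝ) :=
    (Real.isLittleO_log_id_atTop.add (Asymptotics.isLittleO_const_id_atTop (1 : ℝ))).const_mul_left C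
  have h2 : ∀ᶠ x : ℝ in Filter.atTop, C * (Real.log x + 1) ≤ ε * x := by
    filter_upwards [h1.bound hε, Filter.eventually_ge_atTop (0 : ℝ)] with x hx hx0
    rw [id, Real.norm_eq_abs, Real.norm_eq_abs, abs_of_nonneg hx0] at hx
    exact (le_abs_self _).trans hx
  have h3 := (tendsto_natCast_atTop_atTop (R := ℝ)).eventually h2
  obtain ⟨k₁, hk₁⟩ := Filter.eventually_atTop.1 h3
  exact ⟨k₁, fun k hk => hk₁ k hk⟩

theorem u3_arith {k : ℝ} (hk : 0 < k) {b lam s u e1 e2 e3 l2 : ℝ} (hl : l2 < 0.6931471808)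
    (hb : b ≤ k / 100 * (2 * l2)) (h1 : k * (1 - l2 + s) - b - e1 ≤ lam)
    (h2 : lam ≤ (u + 0.001) * k + e2 + e3) (he : e1 + e2 ≤ 0.001 * k) (he3 : e3 ≤ 0.001 * k)
    (hs : u - 0.2899 < s) : False := by
  have h3 : l2 * k ≤ 0.6931471808 * k := mul_le_mul_of_nonneg_right hl.le hk.le
  have h4 : (u - 0.2899) * k < s * k := mul_lt_mul_of_pos_right hs hk
  linarith

theorem large_d : ∃ D k₁ : ℕ, ∀ n d k : ℕ, Eqn n d k (k / 100) → k₁ ≤ k → D ≤ d → False := by
  obtain ⟨C1, hC1, hlow⟩ := Lam_ge 200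
  obtain ⟨C2, hC2, hodd⟩ := Lam_odd (ε := 0.001) (by norm_num)
  obtain ⟨C3, hC3, heven⟩ := Lam_even (ε := 0.001) (by norm_num)
  obtain ⟨ka, hka⟩ := log_small (C1 + C2 + C3) 0.001 (by norm_num)
  obtain ⟨D, hD⟩ := exists_nat_ge (1000 * (C2 + C3) + 1)
  refine ⟨D, max 200 ka, fun n d k h hk hd => ?_⟩
  have hk200 : 200 ≤ k := (le_max_left _ _).trans hk
  have hk0 : (0 : ℝ) < k := by
    have : 0 < k := by omega
    exact_mod_cast this
  have hlk : 0 ≤ Real.log k + 1 := by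
    have := Real.log_natCast_nonneg k
    linarith
  have h1 := hka k ((le_max_right _ _).trans hk)
  have h2 := hlow n d k (k / 100) h (by omega) hk200 (Nat.div_le_self _ _)
  have hd' : 1000 * (C2 + C3) + 1 ≤ (d : ℝ) := hD.trans (by exact_mod_cast hd)
  have hd0 : (0 : ℝ) < d := by linarith
  have hb : ((k / 100 : ℕ) : ℝ) * Real.log 4 ≤ k / 100 * (2 * Real.log 2) := by
    have e1 : Real.log 4 = 2 * Real.log 2 := by
      rw [show (4 : ℝ) = 2 ^ 2 by norm_num, Real.log_pow]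
      norm_num
    rw [e1]
    refine mul_le_mul_of_nonneg_right ?_ (by have := Real.log_two_gt_d9; linarith)
    exact_mod_cast @Nat.cast_div_le ℝ _ _ _ k 100
  have hkd : ∀ C : ℝ, 0 ≤ C → C ≤ C2 + C3 → C * ((k : ℝ) / d) ≤ 0.001 * k := by
    intro C hC hC'
    rw [mul_div_assoc', div_le_iff₀ hd0]
    have e1 : C * k ≤ (C2 + C3) * k := mul_le_mul_of_nonneg_right hC' hk0.le
    have e2 : (1000 * (C2 + C3) + 1) * k ≤ d * k := mul_le_mul_of_nonneg_right hd' hk0.le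
    linarith
  have hl2 := Real.log_two_lt_d9
  have hm1 : 0 ≤ C1 * (Real.log k + 1) := mul_nonneg hC1 hlk
  have hm2 : 0 ≤ C2 * (Real.log k + 1) := mul_nonneg hC2 hlk
  have hm3 : 0 ≤ C3 * (Real.log k + 1) := mul_nonneg hC3 hlk
  have h1' : C1 * (Real.log k + 1) + C2 * (Real.log k + 1) + C3 * (Real.log k + 1) ≤
      0.001 * k := by
    linarith
  rcases Nat.even_or_odd d with hde | hdo
  · have h3 := heven n d k h.toSol hde (by omega)
    have h4 := sav_even hde.two_dvd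
    exact u3_arith (u := 1.5) (s := sav 200 d) hk0 hl2 hb
      (lam := Lam n d k) (e1 := C1 * (Real.log k + 1)) (e2 := C3 * (Real.log k + 1)) h2 h3
      (by linarith) (hkd C3 hC3 (by linarith)) (by linarith)
  · have h3 := hodd n d k h.toSol hdo (by omega)
    have h4 := sav_ge d
    exact u3_arith (u := 1.4183) (s := sav 200 d) hk0 hl2 hb
      (lam := Lam n d k) (e1 := C1 * (Real.log k + 1)) (e2 := C2 * (Real.log k + 1)) h2 h3
      (by linarith) (hkd C2 hC2 (by linarith)) (by linarith)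

end EAP
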