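import Pool.Agent.EAP.A5
import Pool.Agent.EAP.A7
import Pool.Agent.EAP.E1
import Pool.Agent.EAP.E2
import Pool.Agent.EAP.E3
import Pool.Agent.EAP.E4
import Pool.Agent.EAP.E6
import Pool.Agent.EAP.U3

/-!
[EAP-E5] no solutions with `d < D` and `k` large.

`U` from `Lam_far (ε = 0.1) D`. Case 1, `n ≥ U D² k`: `Lam ≤ 1.1 k`, but
`Lam_ge 200`, `sav_ge`: `Lam ≥ 1.42 k - C (log k + 1)`; false for large `k`.
Case 2, `n < U D² k`. Then `√(n + k d) ≤ √((U D² + D) k) = O(√k) ≤ 0.001 k / C'` for large `k`.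
Let `s₁ = ∑_{p ≤ 200} [p ∤ d] 2 log p/(p²-1)`, `s₂ = ∑_{p ≤ 200} [p ∣ d] log p/(p-1)`, `sav 200 d = s₁ + s₂`.
`square_part`, `lambda_sum` (so `∑ log (n + i d) - ∑ log sp ≤ k (s₁ + 0.3) + C √(n + k d)`) and
`energy 200` (`β = k/100`, `β log 4 ≤ 0.01387 k`) give
`∑ log (n + i d) ≤ k log k - k + k (log 2 + 0.01387 + 0.3 - s₂) + 0.003 k` for large `k`.
* `d ≥ 2` (`low_gen`, `log d ≤ log D`): `log d ≤ log 2 + 0.318 - s₂`. For `d ≥ 3`: `log 3 - log 2 > 0.405`
  (`s₂ ≥ 0`), false. For `d = 2`: `s₂ ≥ log 2 > 0.69`, false.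
* `d = 1`, `n ≥ k` (`low_one`): `2 log 2 ≤ log 2 + 0.318`, false. `d = 1`, `n < k`: `d_one`.
`d = 0` is excluded by `Sol`.
-/

set_option autoImplicit false

namespace EAP

open Finset AP4

theorem sav_split (d : ℕ) : sav 200 d =
    ∑ p ∈ Nat.primesLE 200, (if p ∣ d then 0 else 2 * Real.log p / ((p : ℝ) ^ 2 - 1)) +
      ∑ p ∈ Nat.primesLE 200, (if p ∣ d then Real.log p / ((p : ℝ) - 1) else 0) := by
  unfold sav
  rw [← Finset.sum_add_distrib]
  apply Finset.sum_congr rfl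
  intro p _
  split_ifs <;> ring

theorem e5_s2_nonneg (d : ℕ) :
    0 ≤ ∑ p ∈ Nat.primesLE 200, (if p ∣ d then Real.log p / ((p : ℝ) - 1) else 0) := by
  apply Finset.sum_nonneg
  intro p hp
  have h2 : 2 ≤ p := (Nat.mem_primesLE.1 hp).2.two_le
  have h3 : (2 : ℝ) ≤ p := by exact_mod_cast h2
  split_ifs
  · exact div_nonneg (Real.log_nonneg (by linarith)) (by linarith)
  · exact le_rfl

theorem e5_s2_two :
    Real.log 2 ≤ ∑ p ∈ Nat.primesLE 200, (if p ∣ 2 then Real.log p / ((p : ℝ) - 1) else 0) := by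
  have hmem : 2 ∈ Nat.primesLE 200 := Nat.mem_primesLE.2 ⟨by norm_num, Nat.prime_two⟩
  have h1 := Finset.single_le_sum (f := fun p : ℕ => (if p ∣ 2 then Real.log p / ((p : ℝ) - 1) else 0))
    (s := Nat.primesLE 200) (fun p hp => by
      have h2 : 2 ≤ p := (Nat.mem_primesLE.1 hp).2.two_le
      have h3 : (2 : ℝ) ≤ p := by exact_mod_cast h2
      beta_reduce
      split_ifs
      · exact div_nonneg (Real.log_nonneg (by linarith)) (by linarith)
      · exact le_rfl) hmem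
  refine le_trans (le_of_eq ?_) h1
  norm_num

theorem e5_beta (k : ℕ) : (((k / 100 : ℕ)) : ℝ) * Real.log 4 ≤ 0.0138630 * k := by
  have h1 : ((k / 100 : ℕ) : ℝ) ≤ (k : ℝ) / (100 : ℕ) := Nat.cast_div_le
  have h2 : Real.log 4 = 2 * Real.log 2 := by
    rw [show (4 : ℝ) = 2 ^ 2 by norm_num, Real.log_pow]
    norm_num
  have h3 := Real.log_two_lt_d9
  have h4 := Real.log_two_gt_d9
  have h5 : (0 : ℝ) ≤ k := Nat.cast_nonneg k
  rw [h2]
  calc ((k / 100 : ℕ) : ℝ) * (2 * Real.log 2) ≤ ((k : ℝ) / (100 : ℕ)) * (2 * Real.log 2) :=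
        mul_le_mul_of_nonneg_right h1 (by linarith)
    _ = k * (Real.log 2 / 50) := by push_cast; ring
    _ ≤ k * 0.0138630 := mul_le_mul_of_nonneg_left (by linarith) h5
    _ = _ := by ring

theorem e5_sqrt (C M : ℝ) (hC : 0 ≤ C) (hM : 0 ≤ M) : ∃ k₁ : ℕ, ∀ k : ℕ, k₁ ≤ k → ∀ x : ℝ,
    x ≤ M * k → C * Real.sqrt x ≤ 0.001 * k := by
  obtain ⟨k₁, hk₁⟩ := exists_nat_ge (1000000 * C ^ 2 * M)
  refine ⟨k₁, ?_⟩
  intro k hk x hx
  have hk0 : (0 : ℝ) ≤ k := Nat.cast_nonneg k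
  have hkk : (k₁ : ℝ) ≤ k := by exact_mod_cast hk
  have h1 : Real.sqrt x ≤ Real.sqrt (M * k) := Real.sqrt_le_sqrt hx
  have h2 : C * Real.sqrt x ≤ C * Real.sqrt (M * k) := mul_le_mul_of_nonneg_left h1 hC
  refine h2.trans ?_
  apply abs_le_of_sq_le_sq' _ (by positivity) |>.2
  rw [mul_pow, Real.sq_sqrt (by positivity), mul_pow]
  have h3 : 1000000 * C ^ 2 * M * k ≤ k * k := mul_le_mul_of_nonneg_right (hk₁.trans hkk) hk0
  linarith

theorem e5_case1 {k : ℕ} {S C : ℝ} (hk : 0 < (k : ℝ)) (hS : (1.13 : ℝ) ≤ S) (hC : C ≤ 0.001 * k)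
    {L : ℝ} (h1 : (k : ℝ) * (1 - Real.log 2 + S) - ((k / 100 : ℕ) : ℝ) * Real.log 4 - C ≤ L)
    (h2 : L ≤ (1 + 0.1) * k) : False := by
  have h3 := e5_beta k
  have h4 := Real.log_two_lt_d9
  have h5 : (k : ℝ) * 1.43 ≤ k * (1 - Real.log 2 + S) := mul_le_mul_of_nonneg_left (by linarith) hk.le
  linarith

theorem small_d (D : ℕ) : ∃ k₁ : ℕ, ∀ n d k : ℕ, Eqn n d k (k / 100) → k₁ ≤ k → d < D → False := by
  obtain ⟨U, hU⟩ := Lam_far (ε := 0.1) (by norm_num) D
  obtain ⟨C1, hC1, hL⟩ := Lam_ge 200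
  obtain ⟨C2, hC2, hE⟩ := energy 200
  obtain ⟨C3, hC3, hQ⟩ := square_part
  obtain ⟨ka, hka⟩ := log_small C1 0.001 (by norm_num)
  obtain ⟨kb, hkb⟩ := log_small C2 0.001 (by norm_num)
  obtain ⟨kc, hkc⟩ := log_small ((D : ℝ) + 2) 0.001 (by norm_num)
  obtain ⟨kd, hkd⟩ := e5_sqrt C3 ((U : ℝ) * D ^ 2 + D) hC3 (by positivity)
  refine ⟨200 + ka + kb + kc + kd, ?_⟩
  intro n d k h hk hd
  have hk200 : 200 ≤ k := by omega
  have hka' := hka k (by omega)
  have hkb' := hkb k (by omega)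
  have hkc' := hkc k (by omega)
  have hkpos : (0 : ℝ) < k := by
    have : 0 < k := by omega
    exact_mod_cast this
  have hb100 : k / 100 ≤ k := Nat.div_le_self k 100
  have hlogk : 0 ≤ Real.log k := Real.log_natCast_nonneg k
  by_cases hn : U * D ^ 2 * k ≤ n
  · exact e5_case1 hkpos (sav_ge d) hka' (hL n d k (k / 100) h (by omega) hk200 hb100)
      (hU n d k h.toSol (by omega) hd.le hn)
  · push Not at hn
    have e1 := hQ n d k h.toSol (by omega)
    have e2 := lambda_sum d (Nat.sqrt (n + k * d))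
    have e3 := hE n d k (k / 100) h (by omega) hk200 hb100
    have e4 : C3 * Real.sqrt ((n : ℝ) + k * d) ≤ 0.001 * k := by
      apply hkd k (by omega)
      have h1 : (n : ℝ) ≤ U * D ^ 2 * k := by exact_mod_cast hn.le
      have h2 : (d : ℝ) ≤ D := by exact_mod_cast hd.le
      have h3 : (k : ℝ) * d ≤ k * D := mul_le_mul_of_nonneg_left h2 hkpos.le
      linarith
    rw [sav_split d] at e3
    have hb := e5_beta k
    have hs0 := e5_s2_nonneg d
    set s1 := ∑ p ∈ Nat.primesLE 200, (if p ∣ d then 0 else 2 * Real.log p / ((p : ℝ) ^ 2 - 1)) with hs1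
    set s2 := ∑ p ∈ Nat.primesLE 200, (if p ∣ d then Real.log p / ((p : ℝ) - 1) else 0) with hs2
    set Q := ∑ m ∈ (Icc 1 (Nat.sqrt (n + k * d))).filter (fun m => Nat.Coprime m d),
        ArithmeticFunction.vonMangoldt m / (m : ℝ) ^ 2 with hQdef
    have e5 : 2 * (k : ℝ) * Q ≤ k * (s1 + 0.3) := by
      have := mul_le_mul_of_nonneg_left e2 hkpos.le
      linarith
    -- the upper bound
    have e6 : ∑ i ∈ range k, Real.log ((n : ℝ) + i * d) ≤
        k * Real.log k - k + k * (Real.log 2 + 0.3159 - s2) := by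
      have e7 : (k : ℝ) * (s1 + s2) = k * s1 + k * s2 := by ring
      have e8 : (k : ℝ) * (s1 + 0.3) = k * s1 + k * 0.3 := by ring
      have e9 : (k : ℝ) * (Real.log 2 + 0.3159 - s2) = k * Real.log 2 + k * 0.3159 - k * s2 := by ring
      rw [e7] at e3
      rw [e8] at e5
      rw [e9]
      linarith
    have hl2 := Real.log_two_gt_d9
    have hd0 := h.d0
    have hkc2 : Real.log k + D + 2 ≤ 0.001 * k := by
      have h1 : 0 ≤ ((D : ℝ) + 1) * Real.log k := by positivity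
      have h2 : ((D : ℝ) + 2) * (Real.log k + 1) = ((D : ℝ) + 1) * Real.log k + (Real.log k + D + 2) := by ring
      rw [h2] at hkc'
      linarith
    rcases Nat.lt_or_ge d 2 with h1 | h1
    · have hd1 : d = 1 := by omega
      subst hd1
      by_cases hnk : n < k
      · exact d_one h (by omega) hnk
      · push Not at hnk
        have e7 := low_one (n := n) (k := k) (by omega) hnk
        have hD0 : (0 : ℝ) ≤ D := Nat.cast_nonneg D
        have e8 : (k : ℝ) * (2 * Real.log 2) ≤ k * (Real.log 2 + 0.3169 - s2) := by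
          have e9 : (k : ℝ) * (Real.log 2 + 0.3169 - s2) =
            k * (Real.log 2 + 0.3159 - s2) + 0.001 * k := by ring
          rw [e9]
          have e10 := e7.trans e6
          linarith
        have e9 := le_of_mul_le_mul_left e8 hkpos
        linarith
    · have e7 := low_gen (n := n) (d := d) (k := k) h.n0 hd0 (by omega)
      have hdD : Real.log d ≤ D := by
        have h2 : Real.log d ≤ d := (Real.log_le_sub_one_of_pos (by exact_mod_cast hd0)).trans (by linarith)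
        have h3 : (d : ℝ) ≤ D := by exact_mod_cast hd.le
        linarith
      have e8 : (k : ℝ) * Real.log d ≤ k * (Real.log 2 + 0.3169 - s2) := by
        have e9 : (k : ℝ) * (Real.log 2 + 0.3169 - s2) =
          k * (Real.log 2 + 0.3159 - s2) + 0.001 * k := by ring
        rw [e9]
        linarith
      have e9 := le_of_mul_le_mul_left e8 hkpos
      rcases Nat.lt_or_ge d 3 with h2 | h2
      · have hd2 : d = 2 := by omega
        subst hd2
        have e10 := e5_s2_two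
        push_cast at e9
        linarith
      · have h3 : (3 : ℝ) ≤ d := by exact_mod_cast h2
        have h4 : Real.log 3 ≤ Real.log d := Real.log_le_log (by norm_num) h3
        have h5 : Real.log (3 / 2) = Real.log 3 - Real.log 2 := Real.log_div (by norm_num) (by norm_num)
        have h6 := Real.one_sub_inv_le_log_of_pos (show (0 : ℝ) < 3 / 2 by norm_num)
        have h7 : (1 : ℝ) - (3 / 2)⁻¹ = 1 / 3 := by norm_num
        linarith

end EAP
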