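import Pool.Agent.EAP.E5

/-!
[EAP-Final] the theorem.

`eqn_of_eq`: `Sol` from `AP4.sol_of_eq` (`p ∣ b` implies `100 p ≤ k`, so `p ≤ k`). `ev2`: let `p > k / 100` be
prime, so `p ∤ b` (else `100 p ≤ k`, `p ≤ k / 100`). `∑_i v_p (n + i d) = v_p (∏) = v_p (b) + l v_p (y) = l v_p (y)`
is even (`Nat.factorization_prod`, `Nat.factorization_mul`, `Nat.factorization_pow`).
`main`: `large_d` gives `D`, `k₁`; `small_d D` gives `k₂`; `k₀ = max k₁ k₂`.
-/

set_option autoImplicit false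

namespace EAP

open Finset AP4

theorem eqn_of_eq {n d k b y l : ℕ} (hn : 0 < n) (hd : 0 < d) (hb : 0 < b) (hy : 0 < y)
    (hc : Nat.Coprime n d) (hl : Even l) (hP : ∀ p : ℕ, p.Prime → p ∣ b → 100 * p ≤ k)
    (h : ∏ i ∈ range k, (n + i * d) = b * y ^ l) : Eqn n d k (k / 100) := by
  have hS : Sol n d k := sol_of_eq hn hd hb hy hc hl
    (fun p hp hpb => le_trans (by omega) (hP p hp hpb)) h
  refine ⟨hS, ?_⟩
  intro p hp hkp
  have hpb : ¬ p ∣ b := by
    intro hpb
    have := hP p hp hpb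
    omega
  have h1 : (∏ i ∈ range k, (n + i * d)).factorization p =
      ∑ i ∈ range k, (n + i * d).factorization p := by
    rw [Nat.factorization_prod]
    · rw [Finsupp.finsetSum_apply]
    · intro i _
      omega
  rw [← h1, h, Nat.factorization_mul hb.ne' (pow_pos hy l).ne', Nat.factorization_pow]
  simp only [Finsupp.coe_add, Finsupp.coe_smul, Pi.add_apply, Pi.smul_apply, smul_eq_mul]
  rw [Nat.factorization_eq_zero_of_not_dvd hpb, zero_add]
  exact hl.mul_right _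

theorem main : ∃ k₀ : ℕ, ∀ n d k b y l : ℕ, 0 < n → 0 < d → 0 < b → 0 < y → Nat.Coprime n d →
    k₀ ≤ k → Even l → (∀ p : ℕ, p.Prime → p ∣ b → 100 * p ≤ k) →
    ∏ i ∈ range k, (n + i * d) ≠ b * y ^ l := by
  obtain ⟨D, k₁, h1⟩ := large_d
  obtain ⟨k₂, h2⟩ := small_d D
  refine ⟨max k₁ k₂, ?_⟩
  intro n d k b y l hn hd hb hy hc hk hl hP heq
  have hE := eqn_of_eq hn hd hb hy hc hl hP heq
  rcases le_or_gt D d with hD | hD
  · exact h1 n d k hE ((le_max_left _ _).trans hk) hD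
  · exact h2 n d k hE ((le_max_right _ _).trans hk) hD

end EAP
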