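import Mathlib

/-!
[EAP-P4] divisors.

`three_div`: `lcm (u1, u2, u3) ∣ d`. `lcm (u1, u2) = u1 u2 / g12`;
`lcm (L, u3) = L u3 / gcd (L, u3)` with `L = lcm (u1, u2)`, and `gcd (L, u3) ∣ g13 g23`
(`Nat.gcd_lcm…`: `gcd (lcm (u1,u2), u3) = lcm (gcd (u1,u3), gcd (u2,u3)) ∣ g13 g23`, or
`gcd (L, u3) ∣ gcd (u1 u2, u3) ∣ gcd (u1, u3) gcd (u2, u3)`). Hence `u1 u2 u3 ≤ d g12 g13 g23`. Square:
`d³ ≤ (u1 u2 u3)² ≤ d² (g12 g13 g23)²`, so `d ≤ (g12 g13 g23)² ≤ (max)^6`.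
`five`: for each `x ∈ t` `d² ≤ (u x)² (v x)²`, so `d ≤ (u x)²` or `d ≤ (v x)²`. One of the two
alternatives holds for three of the five elements; `three_div`.
-/

set_option autoImplicit false

namespace EAP

theorem three_div {d u1 u2 u3 : ℕ} (hd : 0 < d) (h1 : u1 ∣ d) (h2 : u2 ∣ d) (h3 : u3 ∣ d)
    (k1 : d ≤ u1 ^ 2) (k2 : d ≤ u2 ^ 2) (k3 : d ≤ u3 ^ 2) :
    d ≤ Nat.gcd u1 u2 ^ 6 ∨ d ≤ Nat.gcd u1 u3 ^ 6 ∨ d ≤ Nat.gcd u2 u3 ^ 6 := by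
  set g12 := Nat.gcd u1 u2 with e12
  set g13 := Nat.gcd u1 u3 with e13
  set g23 := Nat.gcd u2 u3 with e23
  set L := Nat.lcm u1 u2 with hL
  have hLd : L ∣ d := Nat.lcm_dvd h1 h2
  have hLLd : Nat.lcm L u3 ∣ d := Nat.lcm_dvd hLd h3
  have hgL : Nat.gcd L u3 ∣ g13 * g23 := by
    have ha : L ∣ u1 * u2 := Nat.lcm_dvd (Dvd.intro _ rfl) (Dvd.intro_left _ rfl)
    have hb : Nat.gcd L u3 ∣ Nat.gcd (u1 * u2) u3 := Nat.gcd_dvd_gcd_of_dvd_left _ ha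
    refine hb.trans ?_
    rw [Nat.gcd_comm, e13, e23, Nat.gcd_comm u1 u3, Nat.gcd_comm u2 u3]
    exact Nat.gcd_mul_right_dvd_mul_gcd u3 u1 u2
  have hpos1 : 0 < u1 := Nat.pos_of_dvd_of_pos h1 hd
  have hpos2 : 0 < u2 := Nat.pos_of_dvd_of_pos h2 hd
  have hpos3 : 0 < u3 := Nat.pos_of_dvd_of_pos h3 hd
  have h13 : 0 < g13 := Nat.gcd_pos_of_pos_left _ hpos1
  have h23 : 0 < g23 := Nat.gcd_pos_of_pos_left _ hpos2
  have h12 : 0 < g12 := Nat.gcd_pos_of_pos_left _ hpos1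
  have hle : u1 * u2 * u3 ≤ d * (g12 * (g13 * g23)) := by
    have q1 : g12 * L = u1 * u2 := Nat.gcd_mul_lcm u1 u2
    have q2 : Nat.gcd L u3 * Nat.lcm L u3 = L * u3 := Nat.gcd_mul_lcm L u3
    calc u1 * u2 * u3 = g12 * (L * u3) := by rw [← q1]; ring
      _ = g12 * (Nat.gcd L u3 * Nat.lcm L u3) := by rw [q2]
      _ ≤ g12 * ((g13 * g23) * d) :=
          Nat.mul_le_mul_left _ (Nat.mul_le_mul
            (Nat.le_of_dvd (Nat.mul_pos h13 h23) hgL) (Nat.le_of_dvd hd hLLd))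
      _ = d * (g12 * (g13 * g23)) := by ring
  have hsq : d * d * d ≤ (d * (g12 * (g13 * g23))) ^ 2 := by
    calc d * d * d ≤ u1 ^ 2 * u2 ^ 2 * u3 ^ 2 :=
          Nat.mul_le_mul (Nat.mul_le_mul k1 k2) k3
      _ = (u1 * u2 * u3) ^ 2 := by ring
      _ ≤ _ := Nat.pow_le_pow_left hle 2
  have hfin : d ≤ (g12 * (g13 * g23)) ^ 2 := by
    have : (d * d) * d ≤ (d * d) * (g12 * (g13 * g23)) ^ 2 := by
      calc (d * d) * d ≤ (d * (g12 * (g13 * g23))) ^ 2 := hsq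
        _ = (d * d) * (g12 * (g13 * g23)) ^ 2 := by ring
    exact Nat.le_of_mul_le_mul_left this (Nat.mul_pos hd hd)
  -- the largest of the three
  by_contra hcon
  push Not at hcon
  obtain ⟨c1, c2, c3⟩ := hcon
  have hprod : g12 ^ 6 * g13 ^ 6 * g23 ^ 6 < d * d * d :=
    Nat.mul_lt_mul'' (Nat.mul_lt_mul'' c1 c2) c3
  have h6 : d * d * d ≤ g12 ^ 6 * g13 ^ 6 * g23 ^ 6 := by
    calc d * d * d ≤ (g12 * (g13 * g23)) ^ 2 * (g12 * (g13 * g23)) ^ 2 * (g12 * (g13 * g23)) ^ 2 :=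
          Nat.mul_le_mul (Nat.mul_le_mul hfin hfin) hfin
      _ = _ := by ring
  omega

theorem five {α : Type} (t : Finset α) (ht : t.card = 5) {d : ℕ} (hd : 0 < d) (u v : α → ℕ)
    (hu : ∀ x ∈ t, u x ∣ d) (hv : ∀ x ∈ t, v x ∣ d) (h : ∀ x ∈ t, d ≤ u x * v x) :
    ∃ x ∈ t, ∃ y ∈ t, x ≠ y ∧ (d ≤ Nat.gcd (u x) (u y) ^ 6 ∨ d ≤ Nat.gcd (v x) (v y) ^ 6) := by
  classical
  have halt : ∀ x ∈ t, ¬ d ≤ u x ^ 2 → d ≤ v x ^ 2 := by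
    intro x hx hn
    push Not at hn
    have h1 := h x hx
    by_contra hc
    push Not at hc
    have h2 : u x ^ 2 * v x ^ 2 < d * d := Nat.mul_lt_mul'' hn hc
    have h3 : d * d ≤ (u x * v x) * (u x * v x) := Nat.mul_le_mul h1 h1
    have h4 : (u x * v x) * (u x * v x) = u x ^ 2 * v x ^ 2 := by ring
    omega
  have hsplit := Finset.card_filter_add_card_filter_not (s := t) (fun x => d ≤ u x ^ 2)
  rcases le_or_gt 3 (t.filter (fun x => d ≤ u x ^ 2)).card with hA | hB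
  · obtain ⟨a, ha, b, hb, c, hc, hab, hac, hbc⟩ := Finset.two_lt_card.1 hA
    rw [Finset.mem_filter] at ha hb hc
    rcases three_div hd (hu a ha.1) (hu b hb.1) (hu c hc.1) ha.2 hb.2 hc.2 with h1 | h1 | h1
    · exact ⟨a, ha.1, b, hb.1, hab, Or.inl h1⟩
    · exact ⟨a, ha.1, c, hc.1, hac, Or.inl h1⟩
    · exact ⟨b, hb.1, c, hc.1, hbc, Or.inl h1⟩
  · have hC : 2 < (t.filter (fun x => ¬ d ≤ u x ^ 2)).card := by omega
    obtain ⟨a, ha, b, hb, c, hc, hab, hac, hbc⟩ := Finset.two_lt_card.1 hC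
    rw [Finset.mem_filter] at ha hb hc
    rcases three_div hd (hv a ha.1) (hv b hb.1) (hv c hc.1) (halt a ha.1 ha.2) (halt b hb.1 hb.2)
      (halt c hc.1 hc.2) with h1 | h1 | h1
    · exact ⟨a, ha.1, b, hb.1, hab, Or.inr h1⟩
    · exact ⟨a, ha.1, c, hc.1, hac, Or.inr h1⟩
    · exact ⟨b, hb.1, c, hc.1, hbc, Or.inr h1⟩

end EAP
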