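import Mathlib

/-!
[EAP-P3] a large denominator.

Let `Δ = x0'² - x0² ≠ 0` and `X = (W/(x0 x0' d Δ))² + s - m d/x0² - m d/x0'²`. Multiply by
`(x0 x0')² (d Δ)²`: `X (x0 x0')² (d Δ)² = W² - (d Δ)² Z` with the integer
`Z = m d x0'² + m d x0² - s x0² x0'²`. Write `X = a/b`, `b = X.den`:
`a (x0 x0')² (d Δ)² = b (W² - (d Δ)² Z)` in `ℤ`. As `D ∣ d`, `D² ∣ (d Δ)²`, so `D² ∣ b W²`. With
`g = gcd (D, W)`, `g ∣ 2`: `(D/g)² ∣ b (W/g)²` and `D/g`, `W/g` are coprime, so `(D/g)² ∣ b`,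
`(D/g)² ≤ b`, `D² ≤ 4 b`.
(`D > 0` since `D ∣ d`, `d > 0`.)
-/

set_option autoImplicit false

namespace EAP

theorem den_large (m s W : ℤ) (d D x z : ℕ) (hd : 0 < d) (hx : 0 < x) (hz : 0 < z) (hxz : x ≠ z)
    (hD : D ∣ d) (hW : Int.gcd (D : ℤ) W ∣ 2) :
    D ^ 2 ≤ 4 * (((W : ℚ) / (x * z * d * ((z : ℚ) ^ 2 - (x : ℚ) ^ 2))) ^ 2 + s
      - m * d / (x : ℚ) ^ 2 - m * d / (z : ℚ) ^ 2).den := by
  set X : ℚ := ((W : ℚ) / (x * z * d * ((z : ℚ) ^ 2 - (x : ℚ) ^ 2))) ^ 2 + s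
      - m * d / (x : ℚ) ^ 2 - m * d / (z : ℚ) ^ 2 with hX
  have hx0 : (x : ℚ) ≠ 0 := by exact_mod_cast hx.ne'
  have hz0 : (z : ℚ) ≠ 0 := by exact_mod_cast hz.ne'
  have hd0 : (d : ℚ) ≠ 0 := by exact_mod_cast hd.ne'
  have hΔ : (z : ℚ) ^ 2 - (x : ℚ) ^ 2 ≠ 0 := by
    intro h
    have h1 : ((z ^ 2 : ℕ) : ℚ) = ((x ^ 2 : ℕ) : ℚ) := by push_cast; linarith
    have h2 : z ^ 2 = x ^ 2 := by exact_mod_cast h1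
    exact hxz (Nat.pow_left_injective (by norm_num : 2 ≠ 0) h2).symm
  -- the integer identity
  have key : X * (((x : ℚ) * z) ^ 2 * (d * ((z : ℚ) ^ 2 - (x : ℚ) ^ 2)) ^ 2) =
      (W : ℚ) ^ 2 - (d * ((z : ℚ) ^ 2 - (x : ℚ) ^ 2)) ^ 2 *
        (m * d * (z : ℚ) ^ 2 + m * d * (x : ℚ) ^ 2 - s * (x : ℚ) ^ 2 * (z : ℚ) ^ 2) := by
    rw [hX]
    field_simp
    ring
  have hden : (X.den : ℚ) ≠ 0 := by exact_mod_cast X.den_nz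
  have hXe : X * X.den = X.num := Rat.mul_den_eq_num X
  have key2 : (X.num : ℚ) * (((x : ℚ) * z) ^ 2 * (d * ((z : ℚ) ^ 2 - (x : ℚ) ^ 2)) ^ 2) =
      X.den * ((W : ℚ) ^ 2 - (d * ((z : ℚ) ^ 2 - (x : ℚ) ^ 2)) ^ 2 *
        (m * d * (z : ℚ) ^ 2 + m * d * (x : ℚ) ^ 2 - s * (x : ℚ) ^ 2 * (z : ℚ) ^ 2)) := by
    rw [← key, ← hXe]
    ring
  have key3 : X.num * (((x : ℤ) * z) ^ 2 * (d * ((z : ℤ) ^ 2 - (x : ℤ) ^ 2)) ^ 2) =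
      X.den * ((W : ℤ) ^ 2 - (d * ((z : ℤ) ^ 2 - (x : ℤ) ^ 2)) ^ 2 *
        (m * d * (z : ℤ) ^ 2 + m * d * (x : ℤ) ^ 2 - s * (x : ℤ) ^ 2 * (z : ℤ) ^ 2)) := by
    exact_mod_cast key2
  have hDz : (D : ℤ) ∣ d := by exact_mod_cast hD
  have hD2 : (D : ℤ) ^ 2 ∣ (d * ((z : ℤ) ^ 2 - (x : ℤ) ^ 2)) ^ 2 :=
    pow_dvd_pow_of_dvd (hDz.mul_right _) 2
  have hdvd : (D : ℤ) ^ 2 ∣ X.den * W ^ 2 := by
    have h1 : (X.den : ℤ) * W ^ 2 = X.num * (((x : ℤ) * z) ^ 2 *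
        (d * ((z : ℤ) ^ 2 - (x : ℤ) ^ 2)) ^ 2) + X.den *
        ((d * ((z : ℤ) ^ 2 - (x : ℤ) ^ 2)) ^ 2 *
        (m * d * (z : ℤ) ^ 2 + m * d * (x : ℤ) ^ 2 - s * (x : ℤ) ^ 2 * (z : ℤ) ^ 2)) := by
      rw [key3]; ring
    rw [h1]
    refine dvd_add ?_ ?_
    · exact Dvd.dvd.mul_left (Dvd.dvd.mul_left hD2 _) _
    · exact Dvd.dvd.mul_left (Dvd.dvd.mul_right hD2 _) _
  -- divide by the gcd
  have hDpos : 0 < D := Nat.pos_of_dvd_of_pos hD hd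
  set g : ℕ := Int.gcd (D : ℤ) W with hg
  have hgpos : 0 < g := by
    rw [hg]; exact Int.gcd_pos_of_ne_zero_left _ (by exact_mod_cast hDpos.ne')
  have hg2 : g ≤ 2 := Nat.le_of_dvd (by norm_num) hW
  obtain ⟨D', hD'⟩ : (g : ℤ) ∣ D := Int.gcd_dvd_left ..
  obtain ⟨W', hW'⟩ : (g : ℤ) ∣ W := Int.gcd_dvd_right ..
  have hgz : (g : ℤ) ≠ 0 := by exact_mod_cast hgpos.ne'
  have hcop : IsCoprime D' W' := by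
    rw [Int.isCoprime_iff_gcd_eq_one]
    have h1 : g = g * Int.gcd D' W' := by
      conv_lhs => rw [hg, hD', hW']
      rw [Int.gcd_mul_left]
      simp
    have h2 : g * 1 = g * Int.gcd D' W' := by rw [mul_one]; exact h1
    exact (Nat.eq_of_mul_eq_mul_left hgpos h2).symm
  have h3 : (g : ℤ) ^ 2 * D' ^ 2 ∣ (g : ℤ) ^ 2 * (X.den * W' ^ 2) := by
    have h4 : (g : ℤ) ^ 2 * D' ^ 2 = (D : ℤ) ^ 2 := by rw [hD']; ring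
    have h5 : (g : ℤ) ^ 2 * (X.den * W' ^ 2) = X.den * W ^ 2 := by rw [hW']; ring
    rw [h4, h5]; exact hdvd
  have h6 : D' ^ 2 ∣ X.den * W' ^ 2 :=
    (mul_dvd_mul_iff_left (pow_ne_zero 2 hgz)).1 h3
  have h7 : D' ^ 2 ∣ (X.den : ℤ) := (hcop.pow (m := 2) (n := 2)).dvd_of_dvd_mul_right h6
  have hdenpos : (0 : ℤ) < X.den := by exact_mod_cast X.den_pos
  have h8 : D' ^ 2 ≤ (X.den : ℤ) := Int.le_of_dvd hdenpos h7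
  have h9 : (D : ℤ) ^ 2 ≤ 4 * X.den := by
    have h10 : (D : ℤ) ^ 2 = (g : ℤ) ^ 2 * D' ^ 2 := by rw [hD']; ring
    have h11 : (g : ℤ) ^ 2 ≤ 4 := by
      have : (g : ℤ) ≤ 2 := by exact_mod_cast hg2
      nlinarith
    rw [h10]
    calc (g : ℤ) ^ 2 * D' ^ 2 ≤ 4 * D' ^ 2 := mul_le_mul_of_nonneg_right h11 (sq_nonneg _)
      _ ≤ 4 * X.den := by linarith
  exact_mod_cast h9

end EAP
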