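import Pool.Agent.EAP.P1
import Pool.Agent.EAP.P3

/-!
[EAP-P5] repulsion: two points with the same `d` whose sign patterns agree on `D ∣ d` have a difference of
height `≥ log (D²/4)`.

Let `P = aff X Y`, `P' = aff X' Y'` be the points of `dat_onC` (`x0 ≠ z0`, so `X ≠ X'` as `m d > 0`).
`-P' = aff X' (-Y')` (`neg_aff`), and `add_aff_of_ne` with
`l = (Y + Y')/(X - X')` gives `P - P' = aff x₃ y₃`, `x₃ = l² + Σ ee - X - X'`, so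
`hgt (P - P') = logHeight₁ x₃ ≥ log x₃.den` (`hgt_aff`, `logHeight₁_eq_log_max`).
With `W = x1 x2 x3 z0³ + z1 z2 z3 x0³` (integer): `Y + Y' = m W/(x0³ z0³)`,
`X - X' = m d (z0² - x0²)/(x0² z0²)`, so `l = W/(x0 z0 d (z0² - x0²))`.
`gcd (D, W) ∣ 2`: `W ≡ 2 ε x0³ z0³` mod `D` (`ε = ±1`), and `D` is coprime to `x0`, `z0` (`D ∣ d`).
`den_large` with this `W`, `m = m1 m2 m3`, `s = Σ ee` gives `D² ≤ 4 x₃.den`.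
-/

set_option autoImplicit false

namespace EAP

open SC2

theorem p5_gcd {x0 z0 d D : ℕ} (hx : Nat.Coprime x0 d) (hz : Nat.Coprime z0 d) (hD : D ∣ d)
    (ε P R : ℤ) (hε : ε = 1 ∨ ε = -1) (hP : (D : ℤ) ∣ P - ε * (x0 : ℤ) ^ 3)
    (hR : (D : ℤ) ∣ R - ε * (z0 : ℤ) ^ 3) :
    Int.gcd (D : ℤ) (P * (z0 : ℤ) ^ 3 + R * (x0 : ℤ) ^ 3) ∣ 2 := by
  set W := P * (z0 : ℤ) ^ 3 + R * (x0 : ℤ) ^ 3 with hW
  have h1 : (D : ℤ) ∣ W - ε * 2 * ((x0 : ℤ) ^ 3 * (z0 : ℤ) ^ 3) := by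
    have e : W - ε * 2 * ((x0 : ℤ) ^ 3 * (z0 : ℤ) ^ 3) =
        (P - ε * (x0 : ℤ) ^ 3) * (z0 : ℤ) ^ 3 + (R - ε * (z0 : ℤ) ^ 3) * (x0 : ℤ) ^ 3 := by
      rw [hW]; ring
    rw [e]
    exact dvd_add (hP.mul_right _) (hR.mul_right _)
  set g : ℕ := Int.gcd (D : ℤ) W with hg
  have hgD : (g : ℤ) ∣ D := Int.gcd_dvd_left ..
  have hgW : (g : ℤ) ∣ W := Int.gcd_dvd_right ..
  have h2 : (g : ℤ) ∣ ε * 2 * ((x0 : ℤ) ^ 3 * (z0 : ℤ) ^ 3) := by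
    have h3 : (g : ℤ) ∣ W - ε * 2 * ((x0 : ℤ) ^ 3 * (z0 : ℤ) ^ 3) := hgD.trans h1
    have h4 := dvd_sub hgW h3
    rwa [sub_sub_cancel] at h4
  have h5 : (g : ℤ) ∣ 2 * ((x0 : ℤ) ^ 3 * (z0 : ℤ) ^ 3) := by
    rcases hε with rfl | rfl
    · simpa using h2
    · have h6 := dvd_neg.2 h2
      have e : -(-1 * 2 * ((x0 : ℤ) ^ 3 * (z0 : ℤ) ^ 3)) =
        2 * ((x0 : ℤ) ^ 3 * (z0 : ℤ) ^ 3) := by ring
      rwa [e] at h6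
  have hgDn : g ∣ D := by exact_mod_cast hgD
  have h7 : g ∣ 2 * (x0 ^ 3 * z0 ^ 3) := by exact_mod_cast h5
  have hgd : g ∣ d := hgDn.trans hD
  have hc1 : Nat.Coprime g (x0 ^ 3) :=
    Nat.Coprime.pow_right 3 (Nat.Coprime.coprime_dvd_left hgd hx.symm)
  have hc2 : Nat.Coprime g (z0 ^ 3) :=
    Nat.Coprime.pow_right 3 (Nat.Coprime.coprime_dvd_left hgd hz.symm)
  exact (Nat.Coprime.mul_right hc1 hc2).dvd_of_dvd_mul_right h7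

theorem repulsion {m1 m2 m3 d x0 x1 x2 x3 z0 z1 z2 z3 : ℕ} (hc : Cv (fun i => (ee m1 m2 m3 i : ℚ)))
    (h : Dat m1 m2 m3 d x0 x1 x2 x3) (h' : Dat m1 m2 m3 d z0 z1 z2 z3) (hne : x0 ≠ z0)
    (D : ℕ) (hD : D ∣ d) (ε : ℤ) (hε : ε = 1 ∨ ε = -1)
    (hx : (D : ℤ) ∣ (x1 * x2 * x3 : ℤ) - ε * (x0 : ℤ) ^ 3)
    (hz : (D : ℤ) ∣ (z1 * z2 * z3 : ℤ) - ε * (z0 : ℤ) ^ 3) :
    Real.log ((D : ℝ) ^ 2 / 4) ≤
      hgt (aff hc _ _ (dat_onC h) - aff hc _ _ (dat_onC h')) := by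
  have hx00 : (x0 : ℚ) ≠ 0 := by exact_mod_cast h.x00.ne'
  have hz00 : (z0 : ℚ) ≠ 0 := by exact_mod_cast h'.x00.ne'
  have hd0 : (d : ℚ) ≠ 0 := by exact_mod_cast h.d0.ne'
  have hm1 : 0 < m1 := h.m10
  have hm2 : 0 < m2 := lt_trans hm1 h.m12
  have hm3 : 0 < m3 := lt_trans hm2 h.m23
  have hm0 : (m1 * m2 * m3 : ℚ) ≠ 0 := by
    have : 0 < m1 * m2 * m3 := Nat.mul_pos (Nat.mul_pos hm1 hm2) hm3
    exact_mod_cast this.ne'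
  have hΔ : (z0 : ℚ) ^ 2 - (x0 : ℚ) ^ 2 ≠ 0 := by
    intro h0
    have h1 : ((z0 ^ 2 : ℕ) : ℚ) = ((x0 ^ 2 : ℕ) : ℚ) := by push_cast; linarith
    have h2 : z0 ^ 2 = x0 ^ 2 := by exact_mod_cast h1
    exact hne (Nat.pow_left_injective (by norm_num : 2 ≠ 0) h2).symm
  set m : ℤ := m1 * m2 * m3 with hm
  set s : ℤ := ee m1 m2 m3 0 + ee m1 m2 m3 1 + ee m1 m2 m3 2 with hs
  set W : ℤ := (x1 * x2 * x3 : ℤ) * (z0 : ℤ) ^ 3 + (z1 * z2 * z3 : ℤ) * (x0 : ℤ) ^ 3 with hW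
  have hgcd : Int.gcd (D : ℤ) W ∣ 2 := p5_gcd h.cop h'.cop hD ε _ _ hε hx hz
  have hden := den_large m s W d D x0 z0 h.d0 h.x00 h'.x00 hne hD hgcd
  set X3 : ℚ := ((W : ℚ) / (x0 * z0 * d * ((z0 : ℚ) ^ 2 - (x0 : ℚ) ^ 2))) ^ 2 + s
      - m * d / (x0 : ℚ) ^ 2 - m * d / (z0 : ℚ) ^ 2 with hX3
  have hmq : (m : ℚ) = m1 * m2 * m3 := by rw [hm]; push_cast; ring
  -- the abscissae are different
  have hXne : (m1 * m2 * m3 : ℚ) * d / (x0 : ℚ) ^ 2 ≠ (m1 * m2 * m3 : ℚ) * d / (z0 : ℚ) ^ 2 := by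
    intro heq
    rw [div_eq_div_iff (pow_ne_zero 2 hx00) (pow_ne_zero 2 hz00)] at heq
    have h1 : (z0 : ℚ) ^ 2 = (x0 : ℚ) ^ 2 :=
      mul_left_cancel₀ (mul_ne_zero hm0 hd0) heq
    exact hΔ (by rw [h1]; ring)
  have hl : (W : ℚ) / (x0 * z0 * d * ((z0 : ℚ) ^ 2 - (x0 : ℚ) ^ 2)) *
      ((m1 * m2 * m3 : ℚ) * d / (x0 : ℚ) ^ 2 - (m1 * m2 * m3 : ℚ) * d / (z0 : ℚ) ^ 2) =
      (m1 * m2 * m3 : ℚ) * (x1 * x2 * x3) / (x0 : ℚ) ^ 3 -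
        -((m1 * m2 * m3 : ℚ) * (z1 * z2 * z3) / (z0 : ℚ) ^ 3) := by
    rw [hW]
    push_cast
    field_simp
    ring
  obtain ⟨h3, hadd⟩ := add_aff_of_ne hc _ _ (dat_onC h) _ _ (onC_neg (dat_onC h')) hXne
    ((W : ℚ) / (x0 * z0 * d * ((z0 : ℚ) ^ 2 - (x0 : ℚ) ^ 2))) _ _ hl rfl rfl
  have hsub : aff hc _ _ (dat_onC h) - aff hc _ _ (dat_onC h') =
      aff hc _ _ (dat_onC h) + aff hc _ _ (onC_neg (dat_onC h')) := by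
    rw [sub_eq_add_neg, neg_aff]
  rw [hsub, hadd, hgt_aff, Rat.logHeight₁_eq_log_max]
  have hX3e : (((W : ℚ) / (x0 * z0 * d * ((z0 : ℚ) ^ 2 - (x0 : ℚ) ^ 2))) ^ 2 +
      (((ee m1 m2 m3 0 : ℤ) : ℚ) + ((ee m1 m2 m3 1 : ℤ) : ℚ) + ((ee m1 m2 m3 2 : ℤ) : ℚ)) -
      (m1 * m2 * m3 : ℚ) * d / (x0 : ℚ) ^ 2 - (m1 * m2 * m3 : ℚ) * d / (z0 : ℚ) ^ 2) = X3 := by
    rw [hX3, hmq, hs]
    push_cast
    ring
  rw [hX3e]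
  have hDpos : 0 < D := Nat.pos_of_dvd_of_pos hD h.d0
  have hDr : (0 : ℝ) < D := by exact_mod_cast hDpos
  apply Real.log_le_log
  · positivity
  · have h1 : ((D ^ 2 : ℕ) : ℝ) ≤ ((4 * X3.den : ℕ) : ℝ) := by exact_mod_cast hden
    push_cast at h1
    have h2 : (X3.den : ℝ) ≤ ((max X3.num.natAbs X3.den : ℕ) : ℝ) := by
      exact_mod_cast le_max_right _ _
    linarith

end EAP
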