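import Mathlib

/-!
[EAP-Q3] a form which is nonnegative at integer vectors is a sum of squares of linear forms.

Nonnegativity at real vectors `x`: for `k ≥ 1` let `n i = ⌊k x i⌋`; `n i / k → x i` as `k → ∞`
(`tendsto_int_floor_mul_div_atTop` or a direct squeeze), the form is continuous and homogeneous of degree
`2`, so its value at `x` is a limit of nonnegative numbers. So `A` is `Matrix.PosSemidef` (real:
`IsHermitian` is `IsSymm` up to `conj = id`), and `Matrix.posSemidef_iff_eq_conjTranspose_mul_self`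
(or the name in this Mathlib) gives `B` with `A = Bᴴ * B`; then `x ⬝ᵥ A *ᵥ x = (B *ᵥ x) ⬝ᵥ (B *ᵥ x)`.
-/

set_option autoImplicit false

namespace EAP

open Filter Topology Matrix

theorem q3_floor (a : ℝ) : Tendsto (fun x : ℝ => ((⌊a * x⌋ : ℤ) : ℝ) / x) atTop (𝓝 a) := by
  have A : Tendsto (fun x : ℝ ↦ a - x⁻¹) atTop (𝓝 (a - 0)) :=
    tendsto_const_nhds.sub tendsto_inv_atTop_zero
  rw [sub_zero] at A
  apply tendsto_of_tendsto_of_tendsto_of_le_of_le' A tendsto_const_nhds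
  · refine eventually_atTop.2 ⟨1, fun x hx ↦ ?_⟩
    have hx0 : 0 < x := zero_lt_one.trans_le hx
    rw [le_div_iff₀ hx0, sub_mul, inv_mul_cancel₀ hx0.ne']
    have := Int.lt_floor_add_one (a * x)
    linarith
  · refine eventually_atTop.2 ⟨1, fun x hx ↦ ?_⟩
    rw [div_le_iff₀ (zero_lt_one.trans_le hx)]
    exact Int.floor_le (a * x)

theorem q3_nonneg {r : ℕ} (A : Matrix (Fin r) (Fin r) ℝ)
    (h : ∀ n : Fin r → ℤ, 0 ≤ ∑ i, ∑ j, (n i : ℝ) * A i j * (n j : ℝ)) (x : Fin r → ℝ) :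
    0 ≤ ∑ i, ∑ j, x i * A i j * x j := by
  have h1 : Tendsto (fun t : ℝ => ∑ i, ∑ j, (((⌊x i * t⌋ : ℤ) : ℝ) / t) * A i j *
      (((⌊x j * t⌋ : ℤ) : ℝ) / t)) atTop (𝓝 (∑ i, ∑ j, x i * A i j * x j)) := by
    refine tendsto_finsetSum _ fun i _ => tendsto_finsetSum _ fun j _ => ?_
    exact ((q3_floor (x i)).mul_const _).mul (q3_floor (x j))
  refine ge_of_tendsto h1 (eventually_atTop.2 ⟨1, fun t ht => ?_⟩)
  have h2 := h fun i => ⌊x i * t⌋
  have h3 : (∑ i, ∑ j, (((⌊x i * t⌋ : ℤ) : ℝ) / t) * A i j * (((⌊x j * t⌋ : ℤ) : ℝ) / t)) =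
      (∑ i, ∑ j, ((⌊x i * t⌋ : ℤ) : ℝ) * A i j * ((⌊x j * t⌋ : ℤ) : ℝ)) * (t⁻¹ * t⁻¹) := by
    rw [Finset.sum_mul]
    refine Finset.sum_congr rfl fun i _ => ?_
    rw [Finset.sum_mul]
    refine Finset.sum_congr rfl fun j _ => ?_
    rw [div_eq_mul_inv, div_eq_mul_inv]
    ring
  rw [h3]
  exact mul_nonneg h2 (mul_self_nonneg _)

theorem sum_squares {r : ℕ} (A : Matrix (Fin r) (Fin r) ℝ) (hA : A.IsSymm)
    (h : ∀ n : Fin r → ℤ, 0 ≤ ∑ i, ∑ j, (n i : ℝ) * A i j * (n j : ℝ)) :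
    ∃ B : Matrix (Fin r) (Fin r) ℝ, ∀ x : Fin r → ℝ,
      ∑ i, ∑ j, x i * A i j * x j = ∑ j, (B.mulVec x j) ^ 2 := by
  have hsum : ∀ x : Fin r → ℝ, x ⬝ᵥ (A *ᵥ x) = ∑ i, ∑ j, x i * A i j * x j := by
    intro x
    simp only [dotProduct, mulVec, Finset.mul_sum, mul_assoc]
  have hpsd : A.PosSemidef := by
    refine PosSemidef.of_dotProduct_mulVec_nonneg ?_ ?_
    · rw [IsHermitian, conjTranspose_eq_transpose_of_trivial]
      exact hA
    · intro x
      rw [star_trivial, hsum]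
      exact q3_nonneg A h x
  open scoped MatrixOrder in
  obtain ⟨B, hB⟩ := CStarAlgebra.nonneg_iff_eq_star_mul_self.mp hpsd.nonneg
  refine ⟨B, fun x => ?_⟩
  rw [← hsum, hB, star_eq_conjTranspose, conjTranspose_eq_transpose_of_trivial, ← mulVec_mulVec,
    dotProduct_mulVec, vecMul_transpose, dotProduct]
  exact Finset.sum_congr rfl fun j _ => by rw [sq]

end EAP
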