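import Pool.Agent.EAP.Q2
import Pool.Agent.EAP.Q3

/-!
[EAP-Q4] a nonnegative quadratic form on a finitely generated group comes from a Euclidean space.

`embed`: let `g : Fin r → G` generate `G` (`AddGroup.FG`; there is a finite set with closure `⊤`; every
element is an integer combination: `AddSubgroup.mem_closure…`, or `Module.Finite ℤ G` and
`Submodule.span` with `Finsupp`/`Fintype.range_linearCombination`). Choose for each `x` an integer vector
`n x` with `x = ∑ (n x i) • g i`. `quad_form`, `sum_squares` (`q ≥ 0`): with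
`v x = B.mulVec (fun i => (n x i : ℝ))`, `x - y = ∑ (n x i - n y i) • g i` and
`q (x - y) = ∑_j (B.mulVec (n x - n y) j)² = ∑_j (v x j - v y j)²`.
-/

set_option autoImplicit false

namespace EAP

open Finset

theorem embed {G : Type} [AddCommGroup G] (hfg : AddGroup.FG G) (q : G → ℝ)
    (hq : ∀ x y, q (x + y) + q (x - y) = 2 * (q x + q y)) (h0 : ∀ x, 0 ≤ q x) :
    ∃ (r : ℕ) (v : G → Fin r → ℝ), ∀ x y, q (x - y) = ∑ j, (v x j - v y j) ^ 2 := by
  have hfin : Module.Finite ℤ G := Module.Finite.iff_addGroup_fg.2 hfg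
  obtain ⟨r, g, hg⟩ := Module.Finite.exists_fin (R := ℤ) (M := G)
  have hrep : ∀ x : G, ∃ n : Fin r → ℤ, ∑ i, n i • g i = x := by
    intro x
    have hx : x ∈ Submodule.span ℤ (Set.range g) := by rw [hg]; exact Submodule.mem_top
    exact (Submodule.mem_span_range_iff_exists_fun ℤ).1 hx
  choose n hn using hrep
  obtain ⟨A, hA, hAq⟩ := quad_form q hq g
  obtain ⟨B, hB⟩ := sum_squares A hA (fun m => by rw [← hAq]; exact h0 _)
  refine ⟨r, fun x => B.mulVec (fun i => (n x i : ℝ)), fun x y => ?_⟩
  have h1 : x - y = ∑ i, (n x i - n y i) • g i := by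
    conv_lhs => rw [← hn x, ← hn y]
    rw [← Finset.sum_sub_distrib]
    exact Finset.sum_congr rfl fun i _ => (sub_smul _ _ _).symm
  rw [h1, hAq (fun i => n x i - n y i)]
  have h2 := hB (fun i => ((n x i - n y i : ℤ) : ℝ))
  rw [h2]
  apply Finset.sum_congr rfl
  intro j _
  congr 1
  have h3 : (fun i => ((n x i - n y i : ℤ) : ℝ)) =
      (fun i => (n x i : ℝ)) - (fun i => (n y i : ℝ)) := by
    ext i
    simp
  rw [h3, Matrix.mulVec_sub]
  rfl

end EAP
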