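import Pool.Agent.EAP.Q1
import Pool.Agent.EAP.Q4

/-!
[EAP-Q5] packing in a finitely generated group with a height.

`pack`: take `q` from `tate`, `r, v` from `embed`. Let `R ≥ R0 > 0` with `C ≤ (B/2) R0`, `C ≤ A R0`. For
`x ∈ s`: `∑_j (v x j - v 0 j)² = q x ≤ h x + C ≤ 2 A R`. Let `ρ = √(B R / (2 (r+1))) > 0`; the integers
`c_j(x) = ⌊(v x j - v 0 j)/ρ⌋` lie in `[-K-1, K]`, where `K = ⌈√(4 A (r+1)/B)⌉` (as
`|v x j - v 0 j| ≤ √(2 A R) = ρ √(4 A (r+1)/B)`), which does not depend on `R`. Let `N = 4 (2K+2)^r`.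
By pigeonhole (`Finset.exists_lt_card_fiber_of_mul_lt_card_of_maps_to`, target
`Fintype.piFinset fun _ => Icc (-K-1) K`) five points of `s` have the same vector `c`; for two of them
`|v x j - v y j| ≤ ρ`, so `q (x - y) ≤ r ρ² ≤ (B/2) R` and `h (x - y) ≤ q (x - y) + C ≤ B R`.
-/

set_option autoImplicit false

namespace EAP

open Finset

theorem q5_floor {a κ : ℝ} {K : ℕ} (h : |a| ≤ κ) (hK : κ ≤ K) :
    ⌊a⌋ ∈ Icc (-(K : ℤ)) (K : ℤ) := by
  obtain ⟨h1, h2⟩ := abs_le.1 h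
  rw [Finset.mem_Icc]
  constructor
  · rw [Int.le_floor]
    push_cast
    linarith
  · have h3 : (⌊a⌋ : ℝ) ≤ (K : ℤ) := (Int.floor_le a).trans (by push_cast; linarith)
    exact_mod_cast h3


theorem pack {G : Type} [AddCommGroup G] (hfg : AddGroup.FG G) (h : G → ℝ) (h0 : ∀ x, 0 ≤ h x)
    (C : ℝ) (hC : ∀ x y, |h (x + y) + h (x - y) - 2 * (h x + h y)| ≤ C) {A B : ℝ} (hA : 0 < A)
    (hB : 0 < B) : ∃ (N : ℕ) (R0 : ℝ), ∀ R : ℝ, R0 ≤ R → ∀ s : Finset G, (∀ x ∈ s, h x ≤ A * R) →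
      N < s.card → ∃ t ⊆ s, t.card = 5 ∧ ∀ x ∈ t, ∀ y ∈ t, h (x - y) ≤ B * R := by
  obtain ⟨q, hq, hq0, hqh⟩ := tate h h0 C hC
  obtain ⟨r, v, hv⟩ := embed hfg q hq hq0
  have hC0 : 0 ≤ C := (abs_nonneg _).trans (hC 0 0)
  set κ : ℝ := Real.sqrt (4 * A * (r + 1) / B) with hκ
  set K : ℕ := ⌈κ⌉₊ with hK
  have hκK : κ ≤ K := Nat.le_ceil κ
  refine ⟨(2 * K + 1) ^ r * 4, max 1 (max (2 * C / B) (C / A)), ?_⟩
  intro R hR s hs hN
  have hR1 : 1 ≤ R := (le_max_left _ _).trans hR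
  have hR0 : 0 < R := by linarith
  have hCB : C ≤ B / 2 * R := by
    have h1 : 2 * C / B ≤ R := ((le_max_left _ _).trans (le_max_right _ _)).trans hR
    rw [div_le_iff₀ hB] at h1
    linarith
  have hCA : C ≤ A * R := by
    have h1 : C / A ≤ R := ((le_max_right _ _).trans (le_max_right _ _)).trans hR
    rw [div_le_iff₀ hA] at h1
    linarith
  have hr0 : (0 : ℝ) < (r : ℝ) + 1 := by positivity
  set ρ : ℝ := Real.sqrt (B * R / (2 * (r + 1))) with hρ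
  have hρ0 : 0 < ρ := Real.sqrt_pos.2 (by positivity)
  have hρ2 : ρ ^ 2 = B * R / (2 * (r + 1)) := Real.sq_sqrt (by positivity)
  have hκρ : κ * ρ = Real.sqrt (2 * A * R) := by
    rw [hκ, hρ, ← Real.sqrt_mul (by positivity)]
    congr 1
    field_simp
    ring
  -- the coordinates are bounded
  have hcoord : ∀ x ∈ s, ∀ j, |(v x j - v 0 j) / ρ| ≤ κ := by
    intro x hx j
    rw [abs_div, abs_of_pos hρ0, div_le_iff₀ hρ0, hκρ]
    refine Real.abs_le_sqrt ?_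
    have h1 : q x = ∑ j, (v x j - v 0 j) ^ 2 := by
      have h2 := hv x 0
      rwa [sub_zero] at h2
    have h2 : (v x j - v 0 j) ^ 2 ≤ ∑ j, (v x j - v 0 j) ^ 2 :=
      Finset.single_le_sum (f := fun j => (v x j - v 0 j) ^ 2) (fun i _ => sq_nonneg _)
        (Finset.mem_univ j)
    have h3 := (abs_le.1 (hqh x)).2
    have h4 := hs x hx
    rw [← h1] at h2
    linarith
  -- pigeonhole
  have hmaps : ∀ x ∈ s, (fun j => ⌊(v x j - v 0 j) / ρ⌋ : Fin r → ℤ) ∈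
      Fintype.piFinset fun _ : Fin r => Icc (-(K : ℤ)) (K : ℤ) := by
    intro x hx
    rw [Fintype.mem_piFinset]
    exact fun j => q5_floor (hcoord x hx j) hκK
  have hcard : (Fintype.piFinset fun _ : Fin r => Icc (-(K : ℤ)) (K : ℤ)).card =
      (2 * K + 1) ^ r := by
    rw [Fintype.card_piFinset_const, Int.card_Icc]
    congr 1
    omega
  obtain ⟨c, -, hc⟩ := Finset.exists_lt_card_fiber_of_mul_lt_card_of_maps_to hmaps
    (n := 4) (by rw [hcard]; exact hN)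
  obtain ⟨t, ht, ht5⟩ := Finset.exists_subset_card_eq (Nat.succ_le_of_lt hc)
  refine ⟨t, fun x hx => (Finset.mem_filter.1 (ht hx)).1, ht5, ?_⟩
  intro x hx y hy
  have hx' := (Finset.mem_filter.1 (ht hx)).2
  have hy' := (Finset.mem_filter.1 (ht hy)).2
  have h1 : ∀ j, (v x j - v y j) ^ 2 ≤ ρ ^ 2 := by
    intro j
    have h2 : ⌊(v x j - v 0 j) / ρ⌋ = ⌊(v y j - v 0 j) / ρ⌋ :=
      (congrFun hx' j).trans (congrFun hy' j).symm
    have h3 := Int.abs_sub_lt_one_of_floor_eq_floor h2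
    have h4 : (v x j - v 0 j) / ρ - (v y j - v 0 j) / ρ = (v x j - v y j) / ρ := by ring
    rw [h4, abs_div, abs_of_pos hρ0, div_lt_one hρ0] at h3
    rw [← sq_abs]
    exact pow_le_pow_left₀ (abs_nonneg _) h3.le 2
  have h2 : q (x - y) ≤ B / 2 * R := by
    rw [hv]
    calc ∑ j, (v x j - v y j) ^ 2 ≤ ∑ _j : Fin r, ρ ^ 2 := Finset.sum_le_sum fun j _ => h1 j
      _ = r * (B * R / (2 * (r + 1))) := by
          rw [Finset.sum_const, Finset.card_univ, Fintype.card_fin, nsmul_eq_mul, hρ2]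
      _ ≤ B / 2 * R := by
          rw [← mul_div_assoc, div_le_iff₀ (by positivity)]
          have h5 : 0 ≤ B * R := by positivity
          nlinarith
  have h3 := (abs_le.1 (hqh (x - y))).1
  linarith

end EAP
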