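import Pool.Agent.EAP.D5
import Pool.Agent.EAP.Q5
import Pool.Agent.EAP.P4
import Pool.Agent.EAP.P5

/-!
[EAP-P6] for a fixed pattern and any `d` there are `O(1)` four-term patterns of squares.

`E = Pt (ee m1 m2 m3)` is finitely generated (`fg_pt`, `ee_inj`), `cv_int`. `pack` with `h = hgt`, the constant of
`hgt_par`, `A = 3`, `B = 1/4` gives `N`, `R0`.
* `d < d0`: each `y ∈ s` is `x0²` with `x0 ≤ m1 d`, so `s ⊆ range ((m1 d0)² + 1)`.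
* `d ≥ d0`: suppose `N < s.card`. `pack` gives five points with pairwise differences of height
  `≤ (1/4) log d`; `five` gives two of the five with `d ≤ D^6`, and `repulsion` is a contradiction.
-/

set_option autoImplicit false

namespace EAP

open SC2

/-- `y` starts a four-term pattern of squares, coprime to `d` -/
def Pa (m1 m2 m3 d y : ℕ) : Prop :=
  0 < y ∧ Nat.Coprime y d ∧ IsSquare y ∧ IsSquare (y + m1 * d) ∧ IsSquare (y + m2 * d) ∧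
    IsSquare (y + m3 * d)

theorem p6_sq {y : ℕ} (h : IsSquare y) : Nat.sqrt y ^ 2 = y := by
  obtain ⟨r, rfl⟩ := h
  rw [Nat.sqrt_eq]
  ring

theorem p6_dat {m1 m2 m3 d y : ℕ} (h0 : 0 < m1) (h1 : m1 < m2) (h2 : m2 < m3) (hd : 0 < d)
    (h : Pa m1 m2 m3 d y) :
    Dat m1 m2 m3 d (Nat.sqrt y) (Nat.sqrt (y + m1 * d)) (Nat.sqrt (y + m2 * d))
      (Nat.sqrt (y + m3 * d)) := by
  obtain ⟨hy, hco, s0, s1, s2, s3⟩ := h
  refine ⟨h0, h1, h2, hd, Nat.sqrt_pos.mpr hy, ?_, ?_, ?_, ?_⟩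
  · have h5 : Nat.Coprime (Nat.sqrt y ^ 2) d := by rw [p6_sq s0]; exact hco
    exact Nat.Coprime.coprime_dvd_left (dvd_pow_self _ (by norm_num)) h5
  · rw [p6_sq s0, p6_sq s1]
  · rw [p6_sq s0, p6_sq s2]
  · rw [p6_sq s0, p6_sq s3]

theorem p6_small {m1 m2 m3 d y : ℕ} (h0 : 0 < m1) (hd : 0 < d) (h : Pa m1 m2 m3 d y) :
    y ≤ (m1 * d) ^ 2 := by
  obtain ⟨hy, hco, s0, s1, s2, s3⟩ := h
  have e0 := p6_sq s0
  have e1 := p6_sq s1
  set a := Nat.sqrt y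
  set b := Nat.sqrt (y + m1 * d)
  have hmd : 0 < m1 * d := Nat.mul_pos h0 hd
  have hab : a < b := by
    by_contra hc
    push Not at hc
    have := Nat.pow_le_pow_left hc 2
    omega
  have h3 : (a + 1) ^ 2 ≤ b ^ 2 := Nat.pow_le_pow_left hab 2
  have h4 : a ≤ m1 * d := by
    have : (a + 1) ^ 2 = a ^ 2 + 2 * a + 1 := by ring
    omega
  calc y = a ^ 2 := e0.symm
    _ ≤ (m1 * d) ^ 2 := Nat.pow_le_pow_left h4 2

theorem p6_dvd {m1 m2 m3 d x0 x1 x2 x3 : ℕ} (h : Dat m1 m2 m3 d x0 x1 x2 x3) :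
    (d : ℤ) ∣ ((x1 * x2 * x3 : ℤ) - (x0 : ℤ) ^ 3) * ((x1 * x2 * x3 : ℤ) + (x0 : ℤ) ^ 3) := by
  have e1 : (x1 : ℤ) ^ 2 = (x0 : ℤ) ^ 2 + m1 * d := by exact_mod_cast h.h1
  have e2 : (x2 : ℤ) ^ 2 = (x0 : ℤ) ^ 2 + m2 * d := by exact_mod_cast h.h2
  have e3 : (x3 : ℤ) ^ 2 = (x0 : ℤ) ^ 2 + m3 * d := by exact_mod_cast h.h3
  have e : ((x1 * x2 * x3 : ℤ) - (x0 : ℤ) ^ 3) * ((x1 * x2 * x3 : ℤ) + (x0 : ℤ) ^ 3) =
      ((x0 : ℤ) ^ 2 + m1 * d) * ((x0 : ℤ) ^ 2 + m2 * d) * ((x0 : ℤ) ^ 2 + m3 * d) - (x0 : ℤ) ^ 6 := by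
    rw [← e1, ← e2, ← e3]
    ring
  rw [e]
  exact ⟨(m1 : ℤ) * ((x0 : ℤ) ^ 2 + m2 * d) * ((x0 : ℤ) ^ 2 + m3 * d) +
    (x0 : ℤ) ^ 2 * m2 * ((x0 : ℤ) ^ 2 + m3 * d) + (x0 : ℤ) ^ 4 * m3, by ring⟩

theorem p6_le {d : ℕ} (hd : 0 < d) {a b : ℤ} (h : (d : ℤ) ∣ a * b) :
    d ≤ Int.gcd (d : ℤ) a * Int.gcd (d : ℤ) b := by
  have h1 : d ∣ a.natAbs * b.natAbs := by
    rw [← Int.natAbs_mul]
    exact Int.natCast_dvd.mp h
  have h2 : d ∣ Int.gcd (d : ℤ) a * Int.gcd (d : ℤ) b := by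
    have h3 : Nat.gcd d (a.natAbs * b.natAbs) ∣ Nat.gcd d a.natAbs * Nat.gcd d b.natAbs :=
      Nat.gcd_mul_right_dvd_mul_gcd _ _ _
    rw [Nat.gcd_eq_left h1] at h3
    exact h3
  refine Nat.le_of_dvd ?_ h2
  have hd' : (d : ℤ) ≠ 0 := by exact_mod_cast hd.ne'
  exact Nat.mul_pos (Int.gcd_pos_of_ne_zero_left _ hd') (Int.gcd_pos_of_ne_zero_left _ hd')

theorem p6_gcd_dvd_d (d : ℕ) (a : ℤ) : Int.gcd (d : ℤ) a ∣ d := by
  have h : ((Int.gcd (d : ℤ) a : ℕ) : ℤ) ∣ (d : ℤ) := Int.gcd_dvd_left _ _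
  exact_mod_cast h

theorem p6_case {m1 m2 m3 d x0 x1 x2 x3 z0 z1 z2 z3 : ℕ}
    (hc : Cv (fun i => (ee m1 m2 m3 i : ℚ)))
    (h : Dat m1 m2 m3 d x0 x1 x2 x3) (h' : Dat m1 m2 m3 d z0 z1 z2 z3) (hne : x0 ≠ z0)
    (D : ℕ) (hD : D ∣ d) (ε : ℤ) (hε : ε = 1 ∨ ε = -1)
    (hx : (D : ℤ) ∣ (x1 * x2 * x3 : ℤ) - ε * (x0 : ℤ) ^ 3)
    (hz : (D : ℤ) ∣ (z1 * z2 * z3 : ℤ) - ε * (z0 : ℤ) ^ 3) (hDd : d ≤ D ^ 6)
    (hlog : 12 * Real.log 4 < Real.log d)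
    (hb : hgt (aff hc _ _ (dat_onC h) - aff hc _ _ (dat_onC h')) ≤ 1 / 4 * Real.log d) :
    False := by
  have hd : 0 < d := h.d0
  have hDpos : 0 < D := Nat.pos_of_dvd_of_pos hD hd
  have h1 := repulsion hc h h' hne D hD ε hε hx hz
  have hD' : (0 : ℝ) < D := by exact_mod_cast hDpos
  have h2 : Real.log ((D : ℝ) ^ 2 / 4) = 2 * Real.log D - Real.log 4 := by
    rw [Real.log_div (by positivity) (by norm_num), Real.log_pow]
    norm_num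
  have h3 : Real.log d ≤ 6 * Real.log D := by
    have h4 : (d : ℝ) ≤ (D : ℝ) ^ 6 := by exact_mod_cast hDd
    have h5 := Real.log_le_log (by exact_mod_cast hd) h4
    rw [Real.log_pow] at h5
    exact_mod_cast h5
  rw [h2] at h1
  linarith

/-- the point attached to `y` -/
noncomputable def p6_P {m1 m2 m3 d : ℕ} (h0 : 0 < m1) (h1 : m1 < m2) (h2 : m2 < m3) (hd : 0 < d)
    (hc : Cv (fun i => (ee m1 m2 m3 i : ℚ))) (y : ℕ) : Pt (fun i => (ee m1 m2 m3 i : ℚ)) :=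
  open Classical in
  if h : Pa m1 m2 m3 d y then aff hc _ _ (dat_onC (p6_dat h0 h1 h2 hd h)) else 0

theorem p6_P_eq {m1 m2 m3 d : ℕ} (h0 : 0 < m1) (h1 : m1 < m2) (h2 : m2 < m3) (hd : 0 < d)
    (hc : Cv (fun i => (ee m1 m2 m3 i : ℚ))) {y : ℕ} (h : Pa m1 m2 m3 d y) :
    p6_P h0 h1 h2 hd hc y = aff hc _ _ (dat_onC (p6_dat h0 h1 h2 hd h)) := by
  unfold p6_P
  rw [dif_pos h]

theorem p6_inj {m1 m2 m3 d : ℕ} (h0 : 0 < m1) (h1 : m1 < m2) (h2 : m2 < m3) (hd : 0 < d)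
    (hc : Cv (fun i => (ee m1 m2 m3 i : ℚ))) {y y' : ℕ} (h : Pa m1 m2 m3 d y)
    (h' : Pa m1 m2 m3 d y') (he : p6_P h0 h1 h2 hd hc y = p6_P h0 h1 h2 hd hc y') : y = y' := by
  rw [p6_P_eq h0 h1 h2 hd hc h, p6_P_eq h0 h1 h2 hd hc h', aff_inj] at he
  have h3 := he.1
  have hq : ∀ {w : ℕ}, Pa m1 m2 m3 d w → ((Nat.sqrt w : ℕ) : ℚ) ^ 2 = w := by
    intro w hw
    have := p6_sq hw.2.2.1
    exact_mod_cast this
  rw [hq h, hq h'] at h3
  have hy : (0 : ℚ) < y := by exact_mod_cast h.1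
  have hy' : (0 : ℚ) < y' := by exact_mod_cast h'.1
  have hM : (0 : ℚ) < (m1 * m2 * m3 : ℚ) * d := by
    have a1 : (0 : ℚ) < m1 := by exact_mod_cast h0
    have a2 : (0 : ℚ) < m2 := by exact_mod_cast (h0.trans h1)
    have a3 : (0 : ℚ) < m3 := by exact_mod_cast (h0.trans (h1.trans h2))
    have a4 : (0 : ℚ) < d := by exact_mod_cast hd
    positivity
  rw [div_eq_div_iff hy.ne' hy'.ne'] at h3
  have h4 : (y' : ℚ) = y := mul_left_cancel₀ hM.ne' h3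
  exact_mod_cast h4.symm

theorem pat {m1 m2 m3 : ℕ} (h0 : 0 < m1) (h1 : m1 < m2) (h2 : m2 < m3) :
    ∃ B : ℕ, ∀ d : ℕ, 0 < d → ∀ s : Finset ℕ, (∀ y ∈ s, Pa m1 m2 m3 d y) → s.card ≤ B := by
  classical
  have hinj := ee_inj h0 h1 h2
  have hc := cv_int hinj
  have hfg := fg_pt hinj
  obtain ⟨C, hC⟩ := hgt_par hc
  obtain ⟨N, R0, hN⟩ := pack hfg hgt hgt_nonneg C hC (A := 3) (B := 1 / 4) (by norm_num)
    (by norm_num)
  set K : ℝ := max R0 (max (2 * Real.log ((m1 : ℝ) * m2 * m3)) (12 * Real.log 4 + 1)) with hK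
  obtain ⟨d0, hd0⟩ : ∃ d0 : ℕ, ∀ d : ℕ, d0 ≤ d → K ≤ Real.log d := by
    have ht : Filter.Tendsto (fun n : ℕ => Real.log (n : ℝ)) Filter.atTop Filter.atTop :=
      Real.tendsto_log_atTop.comp tendsto_natCast_atTop_atTop
    exact Filter.eventually_atTop.mp (ht.eventually_ge_atTop K)
  refine ⟨max N ((m1 * d0) ^ 2 + 1), fun d hd s hs => ?_⟩
  by_cases hdd : d < d0
  · refine le_trans ?_ (le_max_right _ _)
    have hsub : s ⊆ Finset.range ((m1 * d0) ^ 2 + 1) := by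
      intro y hy
      rw [Finset.mem_range]
      have h3 := p6_small h0 hd (hs y hy)
      have h4 : (m1 * d) ^ 2 ≤ (m1 * d0) ^ 2 :=
        Nat.pow_le_pow_left (Nat.mul_le_mul_left _ hdd.le) 2
      omega
    have := Finset.card_le_card hsub
    rwa [Finset.card_range] at this
  · push Not at hdd
    refine le_trans ?_ (le_max_left _ _)
    by_contra hcard
    push Not at hcard
    have hKd := hd0 d hdd
    have k1 : R0 ≤ Real.log d := (le_max_left _ _).trans hKd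
    have k2 : 2 * Real.log ((m1 : ℝ) * m2 * m3) ≤ Real.log d :=
      ((le_max_left _ _).trans (le_max_right _ _)).trans hKd
    have k3 : 12 * Real.log 4 < Real.log d := by
      have : 12 * Real.log 4 + 1 ≤ Real.log d :=
        ((le_max_right _ _).trans (le_max_right _ _)).trans hKd
      linarith
    set P := p6_P h0 h1 h2 hd hc with hP
    have hPinj : Set.InjOn P s := fun y hy y' hy' he =>
      p6_inj h0 h1 h2 hd hc (hs y (Finset.mem_coe.mp hy)) (hs y' (Finset.mem_coe.mp hy')) he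
    have hhgt : ∀ x ∈ s.image P, hgt x ≤ 3 * Real.log d := by
      intro x hx
      obtain ⟨y, hy, rfl⟩ := Finset.mem_image.mp hx
      rw [hP, p6_P_eq h0 h1 h2 hd hc (hs y hy), hgt_aff]
      have := dat_height (p6_dat h0 h1 h2 hd (hs y hy))
      linarith
    have hcard' : N < (s.image P).card := by
      rw [Finset.card_image_of_injOn hPinj]
      exact hcard
    obtain ⟨t, ht, ht5, htd⟩ := hN (Real.log d) k1 (s.image P) hhgt hcard'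
    obtain ⟨s', hs', hst⟩ := Finset.subset_image_iff.mp ht
    have hs'' : ∀ y ∈ s', y ∈ s := fun y hy => hs' hy
    have hcard5 : s'.card = 5 := by
      rw [← ht5, ← hst, Finset.card_image_of_injOn (hPinj.mono hs')]
    have hdat : ∀ y ∈ s', Dat m1 m2 m3 d (Nat.sqrt y) (Nat.sqrt (y + m1 * d))
        (Nat.sqrt (y + m2 * d)) (Nat.sqrt (y + m3 * d)) :=
      fun y hy => p6_dat h0 h1 h2 hd (hs y (hs'' y hy))
    obtain ⟨y, hy, y', hy', hne, hor⟩ := five s' hcard5 hd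
      (fun y => Int.gcd (d : ℤ) (((Nat.sqrt (y + m1 * d) : ℤ) * (Nat.sqrt (y + m2 * d) : ℤ) *
        (Nat.sqrt (y + m3 * d) : ℤ)) - (Nat.sqrt y : ℤ) ^ 3))
      (fun y => Int.gcd (d : ℤ) (((Nat.sqrt (y + m1 * d) : ℤ) * (Nat.sqrt (y + m2 * d) : ℤ) *
        (Nat.sqrt (y + m3 * d) : ℤ)) + (Nat.sqrt y : ℤ) ^ 3))
      (fun y _ => p6_gcd_dvd_d _ _) (fun y _ => p6_gcd_dvd_d _ _)
      (fun y hy => p6_le hd (p6_dvd (hdat y hy)))
    have hPa := hs y (hs'' y hy)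
    have hPa' := hs y' (hs'' y' hy')
    have hne0 : Nat.sqrt y ≠ Nat.sqrt y' := by
      intro he
      apply hne
      rw [← p6_sq hPa.2.2.1, ← p6_sq hPa'.2.2.1, he]
    have hbound := htd (P y) (by rw [← hst]; exact Finset.mem_image_of_mem _ hy) (P y')
      (by rw [← hst]; exact Finset.mem_image_of_mem _ hy')
    rw [hP, p6_P_eq h0 h1 h2 hd hc hPa, p6_P_eq h0 h1 h2 hd hc hPa'] at hbound
    have hg1 : ∀ a b : ℕ, ((Nat.gcd a b : ℕ) : ℤ) ∣ (a : ℤ) := fun a b => by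
      exact_mod_cast Nat.gcd_dvd_left a b
    have hg2 : ∀ a b : ℕ, ((Nat.gcd a b : ℕ) : ℤ) ∣ (b : ℤ) := fun a b => by
      exact_mod_cast Nat.gcd_dvd_right a b
    rcases hor with hor | hor
    · refine p6_case hc (p6_dat h0 h1 h2 hd hPa) (p6_dat h0 h1 h2 hd hPa') hne0 _
        ((Nat.gcd_dvd_left _ _).trans (p6_gcd_dvd_d _ _)) 1 (Or.inl rfl) ?_ ?_ hor k3 hbound
      · rw [one_mul]
        exact (hg1 _ _).trans (Int.gcd_dvd_right _ _)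
      · rw [one_mul]
        exact (hg2 _ _).trans (Int.gcd_dvd_right _ _)
    · refine p6_case hc (p6_dat h0 h1 h2 hd hPa) (p6_dat h0 h1 h2 hd hPa') hne0 _
        ((Nat.gcd_dvd_left _ _).trans (p6_gcd_dvd_d _ _)) (-1) (Or.inr rfl) ?_ ?_ hor k3 hbound
      · rw [neg_one_mul, sub_neg_eq_add]
        exact (hg1 _ _).trans (Int.gcd_dvd_right _ _)
      · rw [neg_one_mul, sub_neg_eq_add]
        exact (hg2 _ _).trans (Int.gcd_dvd_right _ _)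

end EAP
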