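import Pool.Agent.EAP.Defs
import Pool.Agent.EAP.P6

/-!
[EAP-G1] a class with four elements gives a pattern.

Let `i0 < i1 < i2 < i3` be four elements of `F n d k c` (`F` has `S n d k c ≥ 4` elements; take e.g.
`Finset.exists_subset_card_eq` and `orderEmbOfFin`), `n + i_t d = c x_t²`, `x_t > 0` (`AP4.sp_mul_sq`). Then
`(i_t - i_0) d = c (x_t² - x_0²)` and `gcd (c, d) = 1` (`AP4.sp_coprime`), so `i_t - i_0 = c m_t`,
`x_t² = x_0² + m_t d`, `0 < m_1 < m_2 < m_3` and `c m_3 = i_3 - i_0 < k ≤ c U`, so `m_3 < U`.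
`y = x_0²` is coprime to `d` because it divides `n + i_0 d` (`AP4.coprime_term`).
-/

set_option autoImplicit false

namespace EAP

open Finset AP4

/-- one difference inside a class -/
theorem g1_step {n d k c : ℕ} (h : Sol n d k) (hc : 1 ≤ c) {i0 i x0 : ℕ}
    (hi0 : i0 < k) (hi : i < k) (hlt : i0 < i) (s0 : sp k (n + i0 * d) = c)
    (s1 : sp k (n + i * d) = c) (e0 : n + i0 * d = c * x0 ^ 2) :
    ∃ m : ℕ, 0 < m ∧ i = i0 + c * m ∧ IsSquare (x0 ^ 2 + m * d) := by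
  obtain ⟨x, hx, hxe⟩ := sp_mul_sq h hi
  rw [s1] at hxe
  have hcop : Nat.Coprime c d := by
    have := sp_coprime h hi0
    rwa [s0] at this
  obtain ⟨t, rfl⟩ := Nat.exists_eq_add_of_lt hlt
  have hcd : c ∣ (t + 1) * d := by
    have h1 : c * x ^ 2 = c * x0 ^ 2 + (t + 1) * d := by
      rw [← hxe, ← e0]; ring
    have h2 : c ∣ c * x0 ^ 2 + (t + 1) * d := ⟨x ^ 2, h1.symm⟩
    exact (Nat.dvd_add_right (Dvd.intro _ rfl)).1 h2
  obtain ⟨m, hm⟩ := hcop.dvd_of_dvd_mul_right hcd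
  refine ⟨m, ?_, ?_, ⟨x, ?_⟩⟩
  · rcases Nat.eq_zero_or_pos m with h0 | h0
    · rw [h0] at hm; omega
    · exact h0
  · rw [← hm]; ring
  · have h1 : c * (x ^ 2) = c * (x0 ^ 2 + m * d) := by
      rw [mul_add, ← e0, ← hxe]
      have : c * (m * d) = (t + 1) * d := by rw [hm]; ring
      rw [this]; ring
    have h2 := Nat.eq_of_mul_eq_mul_left (by omega) h1
    rw [← h2]; ring

theorem class_pattern {n d k c U : ℕ} (h : Sol n d k) (hc : 1 ≤ c) (hU : k ≤ c * U)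
    (h4 : 4 ≤ S n d k c) : ∃ m1 m2 m3 y i : ℕ, 0 < m1 ∧ m1 < m2 ∧ m2 < m3 ∧ m3 < U ∧ i < k ∧
      c * y = n + i * d ∧ Pa m1 m2 m3 d y := by
  obtain ⟨T, hT, hTc⟩ := Finset.exists_subset_card_eq h4
  set e := T.orderEmbOfFin hTc with he
  have hmem : ∀ j : Fin 4, e j < k ∧ sp k (n + e j * d) = c := by
    intro j
    have h1 := hT (T.orderEmbOfFin_mem hTc j)
    have h2 := mem_filter.1 h1
    exact ⟨mem_range.1 h2.1, h2.2⟩
  have l01 : e 0 < e 1 := e.strictMono (by decide)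
  have l12 : e 1 < e 2 := e.strictMono (by decide)
  have l23 : e 2 < e 3 := e.strictMono (by decide)
  obtain ⟨x0, hx0, e0⟩ := sp_mul_sq h (hmem 0).1
  rw [(hmem 0).2] at e0
  obtain ⟨m1, p1, q1, r1⟩ := g1_step h hc (hmem 0).1 (hmem 1).1 l01 (hmem 0).2 (hmem 1).2 e0
  obtain ⟨m2, p2, q2, r2⟩ := g1_step h hc (hmem 0).1 (hmem 2).1 (l01.trans l12) (hmem 0).2
    (hmem 2).2 e0
  obtain ⟨m3, p3, q3, r3⟩ := g1_step h hc (hmem 0).1 (hmem 3).1 ((l01.trans l12).trans l23)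
    (hmem 0).2 (hmem 3).2 e0
  refine ⟨m1, m2, m3, x0 ^ 2, e 0, p1, ?_, ?_, ?_, (hmem 0).1, e0.symm, by positivity, ?_,
    ⟨x0, by ring⟩, r1, r2, r3⟩
  · have : c * m1 < c * m2 := by omega
    exact lt_of_mul_lt_mul_left this (Nat.zero_le _)
  · have : c * m2 < c * m3 := by omega
    exact lt_of_mul_lt_mul_left this (Nat.zero_le _)
  · have h3 := (hmem 3).1
    have : c * m3 < c * U := by omega
    exact lt_of_mul_lt_mul_left this (Nat.zero_le _)
  · have h1 := coprime_term h.cop (e 0)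
    rw [e0] at h1
    exact Nat.Coprime.coprime_mul_left h1

end EAP
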