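import Pool.Agent.EAP.D1

/-!
[EAP-P1] the point attached to a four-term pattern, and its height.

`Dat m1 m2 m3 d x0 x1 x2 x3`: `x0², x0² + m1 d, x0² + m2 d, x0² + m3 d` are the squares of `x0, …, x3`, and
`gcd (x0, d) = 1`. Roots `ee i`: `-m2 m3, -m1 m3, -m1 m2`. With `X = m d / x0²`,
`Y = m x1 x2 x3 / x0³`, `m = m1 m2 m3`:
`X + m2 m3 = m2 m3 (x0² + m1 d)/x0² = m2 m3 x1²/x0²` etc., so the product is `(m x1 x2 x3/x0³)²`.
`hgt_le`: `X = a / b` with naturals `a = m d`, `b = x0²`; `(a/b).num.natAbs ≤ a`, `(a/b).den ≤ b`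
(`Rat.mulHeight₁_eq_max`/`logHeight₁_eq_log_max` in `Mathlib/NumberTheory/Height/NumberField.lean`; the
reduced numerator and denominator divide `a`, `b`). `x1 > x0`, `m1 d = x1² - x0² ≥ 2 x0 + 1`, so
`x0 ≤ m1 d ≤ m d` and `x0² ≤ (m d)²`, `a ≤ (m d)²`. So `logHeight₁ X ≤ 2 log (m d) = 2 log d + 2 log m`.
-/

set_option autoImplicit false

namespace EAP

open SC2

/-- four squares `x0², x0² + m1 d, x0² + m2 d, x0² + m3 d` -/
structure Dat (m1 m2 m3 d x0 x1 x2 x3 : ℕ) : Prop where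
  m10 : 0 < m1
  m12 : m1 < m2
  m23 : m2 < m3
  d0 : 0 < d
  x00 : 0 < x0
  cop : Nat.Coprime x0 d
  h1 : x1 ^ 2 = x0 ^ 2 + m1 * d
  h2 : x2 ^ 2 = x0 ^ 2 + m2 * d
  h3 : x3 ^ 2 = x0 ^ 2 + m3 * d

/-- the roots -/
def ee (m1 m2 m3 : ℕ) : Fin 3 → ℤ := ![-(m2 * m3 : ℤ), -(m1 * m3 : ℤ), -(m1 * m2 : ℤ)]

theorem ee_inj {m1 m2 m3 : ℕ} (h0 : 0 < m1) (h1 : m1 < m2) (h2 : m2 < m3) :
    Function.Injective (ee m1 m2 m3) := by
  have a1 : m1 * m2 < m1 * m3 := Nat.mul_lt_mul_of_pos_left h2 h0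
  have a2 : m1 * m3 < m2 * m3 := Nat.mul_lt_mul_of_pos_right h1 (by omega)
  have b1 : (m1 : ℤ) * m2 < m1 * m3 := by exact_mod_cast a1
  have b2 : (m1 : ℤ) * m3 < m2 * m3 := by exact_mod_cast a2
  intro i j hij
  fin_cases i <;> fin_cases j <;> simp [ee] at hij ⊢ <;> omega

theorem p1_lt {m1 m2 m3 d x0 x1 x2 x3 : ℕ} (h : Dat m1 m2 m3 d x0 x1 x2 x3) : x0 < m1 * d := by
  have h0 := h.x00
  have h1 := h.h1
  have hpos : 0 < m1 * d := Nat.mul_pos h.m10 h.d0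
  have hlt : x0 < x1 := by
    have : x0 ^ 2 < x1 ^ 2 := by omega
    exact lt_of_pow_lt_pow_left₀ 2 (Nat.zero_le _) this
  have : (x0 + 1) ^ 2 ≤ x1 ^ 2 := Nat.pow_le_pow_left hlt 2
  nlinarith

theorem dat_onC {m1 m2 m3 d x0 x1 x2 x3 : ℕ} (h : Dat m1 m2 m3 d x0 x1 x2 x3) :
    OnC (fun i => (ee m1 m2 m3 i : ℚ)) ((m1 * m2 * m3 : ℚ) * d / (x0 : ℚ) ^ 2)
      ((m1 * m2 * m3 : ℚ) * (x1 * x2 * x3) / (x0 : ℚ) ^ 3) := by
  have hx0 : (x0 : ℚ) ≠ 0 := by exact_mod_cast h.x00.ne'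
  have h1 : (x1 : ℚ) ^ 2 = (x0 : ℚ) ^ 2 + m1 * d := by exact_mod_cast h.h1
  have h2 : (x2 : ℚ) ^ 2 = (x0 : ℚ) ^ 2 + m2 * d := by exact_mod_cast h.h2
  have h3 : (x3 : ℚ) ^ 2 = (x0 : ℚ) ^ 2 + m3 * d := by exact_mod_cast h.h3
  rw [OnC]
  have e0 : ((ee m1 m2 m3 0 : ℤ) : ℚ) = -(m2 * m3) := by simp [ee]
  have e1 : ((ee m1 m2 m3 1 : ℤ) : ℚ) = -(m1 * m3) := by simp [ee]
  have e2 : ((ee m1 m2 m3 2 : ℤ) : ℚ) = -(m1 * m2) := by simp [ee]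
  simp only [e0, e1, e2]
  have hl : ((m1 * m2 * m3 : ℚ) * (x1 * x2 * x3) / (x0 : ℚ) ^ 3) ^ 2 =
      (m1 * m2 * m3 : ℚ) ^ 2 * ((x1 : ℚ) ^ 2 * (x2 : ℚ) ^ 2 * (x3 : ℚ) ^ 2) / (x0 : ℚ) ^ 6 := by
    field_simp
  rw [hl, h1, h2, h3]
  field_simp
  ring

theorem p1_height (a b : ℕ) (hb : 0 < b) :
    Height.logHeight₁ ((a : ℚ) / b) ≤ Real.log (max a b : ℕ) := by
  rw [Rat.logHeight₁_eq_log_max]
  have hb0 : (b : ℤ) ≠ 0 := by exact_mod_cast hb.ne'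
  have hq : ((a : ℚ) / b) = Rat.divInt (a : ℤ) (b : ℤ) := by
    rw [Rat.divInt_eq_div]
    simp
  have hnum : ((a : ℚ) / b).num.natAbs ≤ a := by
    rw [hq]
    rcases Nat.eq_zero_or_pos a with h0 | h0
    · subst h0
      simp
    · have h1 : (Rat.divInt (a : ℤ) (b : ℤ)).num ∣ a := Rat.num_dvd _ hb0
      have h2 := Int.natAbs_dvd_natAbs.2 h1
      rw [Int.natAbs_natCast] at h2
      exact Nat.le_of_dvd h0 h2
  have hden : ((a : ℚ) / b).den ≤ b := by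
    rw [hq]
    have h1 : ((Rat.divInt (a : ℤ) (b : ℤ)).den : ℤ) ∣ b := Rat.den_dvd _ _
    exact Nat.le_of_dvd hb (by exact_mod_cast h1)
  have hden0 : 0 < ((a : ℚ) / b).den := Rat.den_pos _
  apply Real.log_le_log
  · have : 0 < max ((a : ℚ) / b).num.natAbs ((a : ℚ) / b).den := lt_max_of_lt_right hden0
    exact_mod_cast this
  · exact_mod_cast max_le_max hnum hden

theorem dat_height {m1 m2 m3 d x0 x1 x2 x3 : ℕ} (h : Dat m1 m2 m3 d x0 x1 x2 x3) :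
    Height.logHeight₁ ((m1 * m2 * m3 : ℚ) * d / (x0 : ℚ) ^ 2) ≤
      2 * Real.log d + 2 * Real.log ((m1 : ℝ) * m2 * m3) := by
  have hx := p1_lt h
  have h1 := h.m10
  have h2 := h.m12
  have h3 := h.m23
  have hd := h.d0
  have hm2 : 0 < m2 := by omega
  have hm3 : 0 < m3 := by omega
  set m := m1 * m2 * m3 with hm
  have hmpos : 0 < m := Nat.mul_pos (Nat.mul_pos h1 hm2) hm3
  have hm1m : m1 ≤ m := by
    rw [hm, mul_assoc]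
    exact Nat.le_mul_of_pos_right _ (Nat.mul_pos hm2 hm3)
  have hxm : x0 ≤ m * d := hx.le.trans (Nat.mul_le_mul_right _ hm1m)
  have hmd : 0 < m * d := Nat.mul_pos hmpos hd
  have hmax : max (m * d) (x0 ^ 2) ≤ (m * d) ^ 2 := by
    apply max_le
    · rw [pow_two]
      exact Nat.le_mul_of_pos_right _ hmd
    · exact Nat.pow_le_pow_left hxm 2
  have e : (m1 * m2 * m3 : ℚ) * d / (x0 : ℚ) ^ 2 = ((m * d : ℕ) : ℚ) / ((x0 ^ 2 : ℕ) : ℚ) := by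
    rw [hm]; push_cast; ring
  rw [e]
  refine (p1_height _ _ (pow_pos h.x00 2)).trans ?_
  have hle : Real.log (max (m * d) (x0 ^ 2) : ℕ) ≤ Real.log (((m * d) ^ 2 : ℕ) : ℝ) := by
    apply Real.log_le_log
    · have : 0 < max (m * d) (x0 ^ 2) := lt_max_of_lt_left hmd
      exact_mod_cast this
    · exact_mod_cast hmax
  refine hle.trans (le_of_eq ?_)
  have hd0 : (d : ℝ) ≠ 0 := by exact_mod_cast hd.ne'
  have hm0 : (m : ℝ) ≠ 0 := by exact_mod_cast hmpos.ne'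
  have e2 : (m1 : ℝ) * m2 * m3 = (m : ℝ) := by rw [hm]; push_cast; ring
  rw [e2]
  push_cast
  rw [Real.log_pow, Real.log_mul hm0 hd0]
  push_cast
  ring

end EAP
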