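import Mathlib

/-!
[EAP-Q1] Tate's limit: an approximate parallelogram law is close to an exact one.

`x = y = 0`: `|h 0| ≤ C / 2`. `x = y`: `|h (2x) - 4 h x| ≤ (3/2) C`. Let `a_n = h (2^n x) / 4^n`;
`|a_{n+1} - a_n| ≤ (3/8) C / 4^n`, so `a_n` converges to `q x` (`cauchySeq_of_le_geometric`,
`dist_le_of_le_geometric_of_tendsto₀`) with `|q x - h x| ≤ (3/8) C · (4/3) = C/2 ≤ C`
(`0 ≤ C` from the hypothesis). The parallelogram law for `2^n x, 2^n y`, divided by `4^n`, in the limit.
`q x ≥ 0` as a limit of nonnegative numbers.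
-/

set_option autoImplicit false

namespace EAP

theorem tate {G : Type} [AddCommGroup G] (h : G → ℝ) (h0 : ∀ x, 0 ≤ h x) (C : ℝ)
    (hC : ∀ x y, |h (x + y) + h (x - y) - 2 * (h x + h y)| ≤ C) :
    ∃ q : G → ℝ, (∀ x y, q (x + y) + q (x - y) = 2 * (q x + q y)) ∧ (∀ x, 0 ≤ q x) ∧
      ∀ x, |q x - h x| ≤ C := by
  have hC0 : 0 ≤ C := (abs_nonneg _).trans (hC 0 0)
  have hz : |h 0| ≤ C / 2 := by
    have h1 := hC 0 0
    rw [add_zero, sub_zero] at h1
    have h2 : h 0 + h 0 - 2 * (h 0 + h 0) = -(2 * h 0) := by ring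
    rw [h2, abs_neg, abs_mul] at h1
    norm_num at h1
    linarith
  have hdbl : ∀ x, |h (2 • x) - 4 * h x| ≤ 3 / 2 * C := by
    intro x
    have h1 := hC x x
    rw [sub_self, ← two_nsmul] at h1
    have h2 := abs_le.1 h1
    have h3 := abs_le.1 hz
    rw [abs_le]
    constructor <;> linarith
  set a : G → ℕ → ℝ := fun x n => h (2 ^ n • x) / 4 ^ n with ha
  have hstep : ∀ x n, |a x n - a x (n + 1)| ≤ 3 / 8 * C * (1 / 4) ^ n := by
    intro x n
    have h1 := hdbl (2 ^ n • x)
    have h2 : 2 • (2 ^ n • x) = (2 ^ (n + 1)) • x := by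
      rw [← mul_nsmul', pow_succ, mul_comm]
    rw [h2] at h1
    have h4 : (0 : ℝ) < 4 ^ n := by positivity
    have h3 : a x n - a x (n + 1) = -(h (2 ^ (n + 1) • x) - 4 * h (2 ^ n • x)) / (4 * 4 ^ n) := by
      simp only [ha]
      rw [pow_succ (4 : ℝ) n]
      field_simp
      ring
    rw [h3, abs_div, abs_neg, abs_of_pos (by positivity : (0 : ℝ) < 4 * 4 ^ n)]
    rw [div_le_iff₀ (by positivity)]
    have h5 : 3 / 8 * C * (1 / 4) ^ n * (4 * 4 ^ n) = 3 / 2 * C := by
      rw [one_div, inv_pow]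
      field_simp
      ring
    linarith
  have hcs : ∀ x, CauchySeq (a x) := fun x =>
    cauchySeq_of_le_geometric (1 / 4) (3 / 8 * C) (by norm_num) (fun n => by
      rw [Real.dist_eq]; exact hstep x n)
  choose q hq using fun x => cauchySeq_tendsto_of_complete (hcs x)
  refine ⟨q, ?_, ?_, ?_⟩
  · intro x y
    have h1 : Filter.Tendsto (fun n => a (x + y) n + a (x - y) n - 2 * (a x n + a y n))
        Filter.atTop (nhds (q (x + y) + q (x - y) - 2 * (q x + q y))) :=
      ((hq _).add (hq _)).sub (((hq _).add (hq _)).const_mul 2)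
    have h2 : Filter.Tendsto (fun n => a (x + y) n + a (x - y) n - 2 * (a x n + a y n))
        Filter.atTop (nhds 0) := by
      rw [tendsto_zero_iff_abs_tendsto_zero]
      have h3 : Filter.Tendsto (fun n : ℕ => C * (1 / 4 : ℝ) ^ n) Filter.atTop (nhds 0) := by
        have := (tendsto_pow_atTop_nhds_zero_of_lt_one (r := (1 / 4 : ℝ)) (by norm_num)
          (by norm_num)).const_mul C
        simpa using this
      refine squeeze_zero (fun n => abs_nonneg _) (fun n => ?_) h3
      have h4 : (0 : ℝ) < 4 ^ n := by positivity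
      have h5 : a (x + y) n + a (x - y) n - 2 * (a x n + a y n) =
          (h (2 ^ n • x + 2 ^ n • y) + h (2 ^ n • x - 2 ^ n • y) -
            2 * (h (2 ^ n • x) + h (2 ^ n • y))) / 4 ^ n := by
        simp only [ha, nsmul_add, nsmul_sub]
        ring
      simp only [Function.comp_apply]
      rw [h5, abs_div, abs_of_pos h4, div_le_iff₀ h4]
      have h6 : C * (1 / 4 : ℝ) ^ n * 4 ^ n = C := by
        rw [mul_assoc, ← mul_pow]
        norm_num
      rw [h6]
      exact hC _ _
    have h7 := tendsto_nhds_unique h1 h2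
    linarith
  · intro x
    refine ge_of_tendsto' (hq x) (fun n => ?_)
    simp only [ha]
    exact div_nonneg (h0 _) (by positivity)
  · intro x
    have h1 := dist_le_of_le_geometric_of_tendsto₀ (1 / 4) (3 / 8 * C) (by norm_num)
      (fun n => by rw [Real.dist_eq]; exact hstep x n) (hq x)
    have h2 : a x 0 = h x := by simp [ha]
    rw [h2, Real.dist_eq, abs_sub_comm] at h1
    norm_num at h1
    linarith

end EAP
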