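import Mathlib

/-!
[EAP-Q2] a function with the parallelogram law is a quadratic form.

Put `b x y = q (x+y) - q x - q y`. `q 0 = 0`, `q (-x) = q x`. Additivity in `x`:
`q(x+y+z) + q(x+y-z) = 2q(x+y) + 2q(z)`, `q(x+z+y) + q(x+z-y) = 2q(x+z) + 2q(y)`,
`q(x+(y-z)) + q(x-(y-z)) = 2q(x) + 2q(y-z)`, `q(y+z) + q(y-z) = 2q(y) + 2q(z)` give
`q(x+y+z) = q(x+y) + q(y+z) + q(x+z) - q x - q y - q z` (linarith; mind `abel`-rewriting of arguments), i.e.
`b (x+y) z = b x z + b y z`. `b` is symmetric. So `b` is biadditive (make it an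
`AddMonoidHom G →+ G →+ ℝ` or just prove `b (∑ …) (∑ …)`), `b x x = 2 q x` (`y = x` in the law and `q 0 = 0`:
`q (2x) = 4 q x`). With `A i j = b (g i) (g j) / 2`:
`q (∑ n i • g i) = (1/2) b (∑) (∑) = ∑ ∑ n i n j A i j`.
(`b (n • x) y = n b x y` for integers follows from additivity: `map_zsmul`.)
-/

set_option autoImplicit false

namespace EAP

theorem q2_add {G : Type} [AddCommGroup G] (q : G → ℝ)
    (hq : ∀ x y, q (x + y) + q (x - y) = 2 * (q x + q y)) (x y z : G) :
    q (x + y + z) = q (x + y) + q (y + z) + q (x + z) - q x - q y - q z := by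
  have h1 := hq (x + y) z
  have h2 := hq (x + z) y
  have h3 := hq x (y - z)
  have h4 := hq y z
  have e1 : x + z + y = x + y + z := by abel
  have e2 : x + z - y = x - (y - z) := by abel
  have e3 : x + (y - z) = x + y - z := by abel
  rw [e1, e2] at h2
  rw [e3] at h3
  linarith

/-- the associated bilinear map -/
noncomputable def q2_b {G : Type} [AddCommGroup G] (q : G → ℝ)
    (hq : ∀ x y, q (x + y) + q (x - y) = 2 * (q x + q y)) : G →+ G →+ ℝ :=
  AddMonoidHom.mk' (fun x => AddMonoidHom.mk' (fun y => q (x + y) - q x - q y) (by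
    intro y z
    have h := q2_add q hq x y z
    have e : x + (y + z) = x + y + z := by abel
    rw [e]
    linarith)) (by
    intro x y
    ext z
    have h := q2_add q hq x y z
    simp only [AddMonoidHom.mk'_apply, AddMonoidHom.add_apply]
    linarith)

theorem q2_b_apply {G : Type} [AddCommGroup G] (q : G → ℝ)
    (hq : ∀ x y, q (x + y) + q (x - y) = 2 * (q x + q y)) (x y : G) :
    q2_b q hq x y = q (x + y) - q x - q y := rfl

theorem q2_b_self {G : Type} [AddCommGroup G] (q : G → ℝ)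
    (hq : ∀ x y, q (x + y) + q (x - y) = 2 * (q x + q y)) (x : G) :
    q2_b q hq x x = 2 * q x := by
  have h0 := hq 0 0
  have h1 := hq x x
  rw [add_zero, sub_zero] at h0
  rw [sub_self] at h1
  rw [q2_b_apply]
  linarith

theorem quad_form {G : Type} [AddCommGroup G] (q : G → ℝ)
    (hq : ∀ x y, q (x + y) + q (x - y) = 2 * (q x + q y)) {r : ℕ} (g : Fin r → G) :
    ∃ A : Matrix (Fin r) (Fin r) ℝ, A.IsSymm ∧ ∀ n : Fin r → ℤ,
      q (∑ i, n i • g i) = ∑ i, ∑ j, (n i : ℝ) * A i j * (n j : ℝ) := by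
  refine ⟨fun i j => q2_b q hq (g i) (g j) / 2, ?_, ?_⟩
  · ext i j
    rw [Matrix.transpose_apply, q2_b_apply, q2_b_apply, add_comm (g j) (g i)]
    ring
  · intro n
    have h1 := q2_b_self q hq (∑ i, n i • g i)
    have h2 : q2_b q hq (∑ i, n i • g i) (∑ i, n i • g i) =
        ∑ i, ∑ j, (n i : ℝ) * ((n j : ℝ) * q2_b q hq (g i) (g j)) := by
      rw [map_sum (q2_b q hq), AddMonoidHom.finsetSum_apply]
      refine Finset.sum_congr rfl fun i _ => ?_
      rw [map_zsmul, map_sum]
      refine Finset.sum_congr rfl fun j _ => ?_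
      rw [map_zsmul]
      simp only [AddMonoidHom.smul_apply, zsmul_eq_mul]
      ring
    have h3 : ∑ i, ∑ j, (n i : ℝ) * (q2_b q hq (g i) (g j) / 2) * (n j : ℝ) =
        (∑ i, ∑ j, (n i : ℝ) * ((n j : ℝ) * q2_b q hq (g i) (g j))) / 2 := by
      rw [Finset.sum_div]
      refine Finset.sum_congr rfl fun i _ => ?_
      rw [Finset.sum_div]
      refine Finset.sum_congr rfl fun j _ => ?_
      ring
    rw [h3, ← h2, h1]
    ring

end EAP
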